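import Mathlib

/-!
Circular mirrors: coordinates on oriented lines and the reflection dynamics.

A state is a base point `P : ℂ` together with `z = (φ, b)`: the oriented line with direction angle
`φ` through `P + b * (-sin φ, cos φ)`.
-/

set_option autoImplicit false

namespace Pool.Agent.Lib.MP_ab57f0_an

open Real Set MeasureTheory Filter Topology

/-- Component of `w` along the direction `φ`. -/
noncomputable def ee (w : ℂ) (φ : ℝ) : ℝ := w.re * cos φ + w.im * sin φ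

/-- Minus the component of `w` along the normal of the direction `φ`. -/
noncomputable def ss (w : ℂ) (φ : ℝ) : ℝ := w.re * sin φ - w.im * cos φ

/-- Half chord. -/
noncomputable def hh (ρ b : ℝ) : ℝ := √(ρ ^ 2 - b ^ 2)

/-- A configuration of disks with explicit constants. -/
structure Cfg (ι : Type) : Type where
  c : ι → ℂ
  r : ι → ℝ
  τ : ℝ
  A : ℝ
  τ_pos : 0 < τ
  τ_le : τ ≤ 1
  one_le : 1 ≤ A
  τ_le_r : ∀ i, τ ≤ r i
  r_le : ∀ i, r i ≤ A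
  sep : ∀ i j, i ≠ j → r i + r j + τ ≤ ‖c j - c i‖
  bdd : ∀ i j, 2 * ‖c j - c i‖ ≤ A

lemma ee_sq_add_ss_sq (w : ℂ) (φ : ℝ) : ee w φ ^ 2 + ss w φ ^ 2 = ‖w‖ ^ 2 := by
  rw [Complex.sq_norm, Complex.normSq_apply]
  unfold ee ss
  have := sin_sq_add_cos_sq φ
  linear_combination (w.re ^ 2 + w.im ^ 2) * this

lemma ee_sub (w w' : ℂ) (φ : ℝ) : ee (w - w') φ = ee w φ - ee w' φ := by
  simp only [ee, Complex.sub_re, Complex.sub_im]; ring

lemma ss_sub (w w' : ℂ) (φ : ℝ) : ss (w - w') φ = ss w φ - ss w' φ := by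
  simp only [ss, Complex.sub_re, Complex.sub_im]; ring

lemma ee_zero (φ : ℝ) : ee 0 φ = 0 := by simp [ee]

lemma ss_zero (φ : ℝ) : ss 0 φ = 0 := by simp [ss]

lemma ee_add_pi (w : ℂ) (φ : ℝ) : ee w (φ + π) = - ee w φ := by
  simp only [ee, cos_add_pi, sin_add_pi]; ring

lemma ss_add_pi (w : ℂ) (φ : ℝ) : ss w (φ + π) = - ss w φ := by
  simp only [ss, cos_add_pi, sin_add_pi]; ring

lemma ee_add_two_pi (w : ℂ) (φ : ℝ) : ee w (φ + 2 * π) = ee w φ := by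
  simp only [ee, cos_add_two_pi, sin_add_two_pi]

lemma ss_add_two_pi (w : ℂ) (φ : ℝ) : ss w (φ + 2 * π) = ss w φ := by
  simp only [ss, cos_add_two_pi, sin_add_two_pi]

lemma abs_ee_le (w : ℂ) (φ : ℝ) : |ee w φ| ≤ ‖w‖ := by
  have h := ee_sq_add_ss_sq w φ
  exact abs_le_of_sq_le_sq' (by nlinarith [sq_nonneg (ss w φ)]) (norm_nonneg w) |> abs_le.mpr

lemma hasDerivAt_ss (w : ℂ) (φ : ℝ) : HasDerivAt (ss w) (ee w φ) φ := by
  have h := ((hasDerivAt_sin φ).const_mul w.re).sub ((hasDerivAt_cos φ).const_mul w.im)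
  have e : ee w φ = w.re * cos φ - w.im * -sin φ := by simp only [ee]; ring
  rw [e]; exact h

lemma continuous_ss (w : ℂ) : Continuous (ss w) := by
  unfold ss; fun_prop

lemma continuous_ee (w : ℂ) : Continuous (ee w) := by
  unfold ee; fun_prop

lemma abs_ee_sub_le (w : ℂ) (φ φ' : ℝ) : |ee w φ - ee w φ'| ≤ 2 * ‖w‖ * |φ - φ'| := by
  have h1 := Real.abs_cos_sub_cos_le φ φ'
  have h2 := Real.abs_sin_sub_sin_le φ φ'
  have h3 := Complex.abs_re_le_norm w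
  have h4 := Complex.abs_im_le_norm w
  have e : ee w φ - ee w φ' = w.re * (cos φ - cos φ') + w.im * (sin φ - sin φ') := by
    unfold ee; ring
  rw [e]
  calc _ ≤ |w.re * (cos φ - cos φ')| + |w.im * (sin φ - sin φ')| := abs_add_le _ _
    _ = |w.re| * |cos φ - cos φ'| + |w.im| * |sin φ - sin φ'| := by rw [abs_mul, abs_mul]
    _ ≤ ‖w‖ * |φ - φ'| + ‖w‖ * |φ - φ'| := by gcongr
    _ = _ := by ring

lemma abs_ss_sub_le (w : ℂ) (φ φ' : ℝ) : |ss w φ - ss w φ'| ≤ 2 * ‖w‖ * |φ - φ'| := by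
  have h1 := Real.abs_cos_sub_cos_le φ φ'
  have h2 := Real.abs_sin_sub_sin_le φ φ'
  have h3 := Complex.abs_re_le_norm w
  have h4 := Complex.abs_im_le_norm w
  have e : ss w φ - ss w φ' = w.re * (sin φ - sin φ') - w.im * (cos φ - cos φ') := by
    unfold ss; ring
  rw [e]
  calc _ ≤ |w.re * (sin φ - sin φ')| + |w.im * (cos φ - cos φ')| := abs_sub _ _
    _ = |w.re| * |sin φ - sin φ'| + |w.im| * |cos φ - cos φ'| := by rw [abs_mul, abs_mul]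
    _ ≤ ‖w‖ * |φ - φ'| + ‖w‖ * |φ - φ'| := by gcongr
    _ = _ := by ring

lemma hh_nonneg (ρ b : ℝ) : 0 ≤ hh ρ b := sqrt_nonneg _

lemma hh_sq {ρ b : ℝ} (h : |b| ≤ ρ) : hh ρ b ^ 2 = ρ ^ 2 - b ^ 2 := by
  unfold hh
  rw [sq_sqrt]
  have := sq_abs b
  nlinarith [abs_nonneg b]

lemma hh_pos {ρ b : ℝ} (h : |b| < ρ) : 0 < hh ρ b := by
  unfold hh
  apply sqrt_pos.mpr
  have := sq_abs b
  nlinarith [abs_nonneg b]

lemma hh_le {ρ b : ℝ} (h : 0 ≤ ρ) : hh ρ b ≤ ρ := by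
  unfold hh
  apply sqrt_le_iff.mpr
  exact ⟨h, by nlinarith [sq_nonneg b]⟩

lemma hh_neg (ρ b : ℝ) : hh ρ (-b) = hh ρ b := by
  unfold hh; rw [neg_sq]

lemma continuous_hh (ρ : ℝ) : Continuous (hh ρ) := by
  unfold hh; fun_prop

lemma sub_abs_le_hh {ρ b : ℝ} (h : |b| ≤ ρ) : ρ - |b| ≤ hh ρ b := by
  unfold hh
  apply le_sqrt_of_sq_le
  have := sq_abs b
  nlinarith [abs_nonneg b]

/-- The gap lemma: a line meeting two disks that are `t` apart has chords that are `t` apart. -/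
lemma gap_abs {ρ₁ ρ₂ t b₁ b₂ e : ℝ} (ht : 0 < t) (h₁ : |b₁| ≤ ρ₁) (h₂ : |b₂| ≤ ρ₂)
    (h : (ρ₁ + ρ₂ + t) ^ 2 ≤ e ^ 2 + (b₂ - b₁) ^ 2) :
    hh ρ₁ b₁ + hh ρ₂ b₂ + t ≤ |e| := by
  by_contra hc
  push Not at hc
  have a1 := hh_sq h₁
  have a2 := hh_sq h₂
  have n1 := hh_nonneg ρ₁ b₁
  have n2 := hh_nonneg ρ₂ b₂
  have r1 : 0 ≤ ρ₁ := (abs_nonneg _).trans h₁
  have r2 : 0 ≤ ρ₂ := (abs_nonneg _).trans h₂
  have l1 := hh_le (b := b₁) r1
  have l2 := hh_le (b := b₂) r2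
  set h1 := hh ρ₁ b₁
  set h2 := hh ρ₂ b₂
  have he : e ^ 2 < (h1 + h2 + t) ^ 2 := by
    rw [← sq_abs e]
    exact pow_lt_pow_left₀ hc (abs_nonneg _) two_ne_zero
  have cs : h1 * h2 - b₁ * b₂ ≤ ρ₁ * ρ₂ := by
    apply le_trans (le_abs_self _)
    apply abs_le_of_sq_le_sq' ?_ (mul_nonneg r1 r2) |> abs_le.mpr
    have e1 : ρ₁ ^ 2 = h1 ^ 2 + b₁ ^ 2 := by linarith
    have e2 : ρ₂ ^ 2 = h2 ^ 2 + b₂ ^ 2 := by linarith
    rw [mul_pow, e1, e2]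
    nlinarith [sq_nonneg (h1 * b₂ + h2 * b₁)]
  nlinarith [mul_nonneg ht.le (sub_nonneg.2 l1), mul_nonneg ht.le (sub_nonneg.2 l2)]

namespace Cfg

variable {ι : Type} (K : Cfg ι)

/-- Position of the foot of `c l` on the line, measured from the foot of `P`. -/
noncomputable def e (P : ℂ) (z : ℝ × ℝ) (l : ι) : ℝ := ee (K.c l - P) z.1

/-- Impact parameter of the line with respect to `c l`. -/
noncomputable def b (P : ℂ) (z : ℝ × ℝ) (l : ι) : ℝ := z.2 + ss (K.c l - P) z.1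

def Ahead (P : ℂ) (z : ℝ × ℝ) (l : ι) : Prop := |K.b P z l| ≤ K.r l ∧ 0 < K.e P z l

def Next (P : ℂ) (z : ℝ × ℝ) (k : ι) : Prop :=
  K.Ahead P z k ∧ ∀ l, K.Ahead P z l → K.e P z k ≤ K.e P z l

noncomputable def step (P : ℂ) (k : ι) (z : ℝ × ℝ) : ℝ × ℝ :=
  (z.1 + π - 2 * arcsin (K.b P z k / K.r k), K.b P z k)

noncomputable def inc (k : ι) (z : ℝ × ℝ) : ℝ := z.1 - π + 2 * arcsin (z.2 / K.r k)

noncomputable def unstep (P : ℂ) (k : ι) (z : ℝ × ℝ) : ℝ × ℝ :=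
  (K.inc k z, z.2 - ss (K.c k - P) (K.inc k z))

/-- Admissible base point with virtual radius `ρ`. -/
def Adm (P : ℂ) (ρ : ℝ) : Prop :=
  0 < ρ ∧ ρ ≤ K.A ∧ ∀ l, 2 * ‖K.c l - P‖ ≤ K.A ∧ (P = K.c l ∨ ρ + K.r l + K.τ ≤ ‖K.c l - P‖)

/-- A chart: an admissible base point in free space. -/
def Chart (P : ℂ) (ρ : ℝ) : Prop :=
  0 < ρ ∧ ρ ≤ K.A ∧ ∀ l, 2 * ‖K.c l - P‖ ≤ K.A ∧ ρ + K.r l + K.τ ≤ ‖K.c l - P‖

noncomputable def fwd : ℂ → List ι → ℝ × ℝ → ℝ × ℝ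
  | _, [], z => z
  | P, k :: ω, z => fwd (K.c k) ω (K.step P k z)

noncomputable def back : ℂ → List ι → ℝ × ℝ → ℝ × ℝ
  | _, [], z => z
  | P, k :: ω, z => K.unstep P k (back (K.c k) ω z)

/-- The orbit has itinerary `ω` and then escapes. -/
def Esc : ℂ → List ι → ℝ × ℝ → Prop
  | P, [], z => ∀ l, ¬ K.Ahead P z l
  | P, k :: ω, z => K.Next P z k ∧ Esc (K.c k) ω (K.step P k z)

/-- The orbit has itinerary `ω`, without tangencies, and then escapes. -/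
def EscR : ℂ → List ι → ℝ × ℝ → Prop
  | P, [], z => ∀ l, ¬ K.Ahead P z l
  | P, k :: ω, z => K.Next P z k ∧ |K.b P z k| < K.r k ∧ EscR (K.c k) ω (K.step P k z)

/-- The first `n` collisions exist and are not tangential. -/
def RegN : ℕ → ℂ → ℝ × ℝ → Prop
  | 0, _, _ => True
  | n + 1, P, z => ∃ k, K.Next P z k ∧ |K.b P z k| < K.r k ∧ RegN n (K.c k) (K.step P k z)

/-- Itinerary `ω` without tangencies followed by a tangency with disk `k`. -/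
def TanAt : ℂ → List ι → ι → ℝ × ℝ → Prop
  | P, [], k, z => K.Next P z k ∧ |K.b P z k| = K.r k
  | P, l :: ω, k, z => K.Next P z l ∧ |K.b P z l| < K.r l ∧ TanAt (K.c l) ω k (K.step P l z)

def Pre (P : ℂ) (B : ι → Set (ℝ × ℝ)) : Set (ℝ × ℝ) :=
  {z | ∃ k, K.Next P z k ∧ K.step P k z ∈ B k}

def Lev (N : ℂ → Set (ℝ × ℝ)) : ℕ → ℂ → Set (ℝ × ℝ)
  | 0, P => N P
  | j + 1, P => K.Pre P (fun k => Lev N j (K.c k))

/-- Lines almost tangent to a disk lying ahead. -/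
def Near (η : ℝ) (P : ℂ) : Set (ℝ × ℝ) :=
  {z | ∃ l, 0 < K.e P z l ∧ abs (|K.b P z l| - K.r l) < η}

/-- Lines almost tangent to a disk lying ahead and not hidden behind another disk. -/
def NM (η : ℝ) (P : ℂ) : Set (ℝ × ℝ) :=
  {z | ∃ l, 0 < K.e P z l ∧ abs (|K.b P z l| - K.r l) < η ∧
    ∀ k, K.Ahead P z k → K.e P z l ≤ K.e P z k}

/-- The set of regularly escaping states. -/
def EE (P : ℂ) : Set (ℝ × ℝ) := {z | ∃ ω, K.EscR P ω z}

/-- The set of escaping states. -/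
def EP (P : ℂ) : Set (ℝ × ℝ) := {z | ∃ ω, K.Esc P ω z}

/-- Time reversal at a real disk. -/
noncomputable def iota (k : ι) (z : ℝ × ℝ) : ℝ × ℝ := (z.1 + 2 * arcsin (z.2 / K.r k), -z.2)

end Cfg

/-- Time reversal in a chart. -/
noncomputable def rev (z : ℝ × ℝ) : ℝ × ℝ := (z.1 + π, -z.2)

/-- Translation by a full turn. -/
noncomputable def sh (z : ℝ × ℝ) : ℝ × ℝ := (z.1 + 2 * π, z.2)

end Pool.Agent.Lib.MP_ab57f0_an
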