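import Pool.Agent.Lib.MP_ab57f0_an.Final

/-! Density of the regularly escaping directions at a point source. -/

set_option autoImplicit false

namespace Pool.Agent.Lib.MP_ab57f0_an

open Real Set MeasureTheory Filter Topology
open scoped ENNReal

namespace Cfg

variable {ι : Type} {K : Cfg ι}

lemma hit_fwd {P : ℂ} {ε : ℝ} (hε : 0 < ε) {z y : ℝ × ℝ} (h1 : y ∈ K.Par ε z) (h2 : y ∈ K.EP P)
    (h3 : K.HasLeaf P (56 * K.q ^ 2 * ε) y) :
    ∃ X, |X - z.1| ≤ 56 * K.q ^ 2 * ε ∧ (X, z.2) ∈ K.EE P := by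
  have hq := K.one_le_q
  obtain ⟨ω, h2⟩ := h2
  have hy : K.back P ω ((K.fwd P ω y).1, (K.fwd P ω y).2) = y := back_fwd ω P y
  obtain ⟨βm, βp, u, s, σ, hl⟩ := h3 ω _ _ hy h2
  obtain ⟨β, b1, b2, b3, _⟩ := hl.cross hε (z' := z) (by rw [hy]; exact h1) (by simpa using hε.le)
    (by simpa using hε.le)
  have p1 : ε ≤ K.q * ε := by nlinarith
  have p2 : K.q * ε ≤ K.q ^ 2 * ε := by nlinarith [mul_pos (zero_lt_one.trans_le hq) hε]
  refine ⟨(K.back P ω ((K.fwd P ω y).1, β)).1, by linarith, ω, ?_⟩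
  rw [← b2]
  exact hl.esc β b1

lemma vol_Par {ε : ℝ} (hε : 0 < ε) (z : ℝ × ℝ) :
    ENNReal.ofReal (ε ^ 2) ≤ volume (K.Par ε z) := by
  have hτ := K.τ_pos
  have hq := K.one_le_q
  have hqτ := K.q_mul
  have hA := K.one_le
  have p1 : ε ≤ K.q * ε := by nlinarith
  have p2 : K.q * ε ≤ K.q ^ 2 * ε := by nlinarith [mul_pos (zero_lt_one.trans_le hq) hε]
  have p3 : ε ≤ K.τ * (K.q * ε) := by nlinarith
  have hsub : Icc z.1 (z.1 + ε) ×ˢ Icc z.2 (z.2 + ε) ⊆ K.Par ε z := by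
    rintro y ⟨a1, a2⟩
    have k1 : 0 ≤ (y.2 - z.2) / K.τ := div_nonneg (by linarith [a2.1]) hτ.le
    have k2 : (y.2 - z.2) / K.τ ≤ K.q * ε := by
      rw [div_le_iff₀ hτ]; linarith [a2.2]
    constructor <;> rw [abs_le] <;> constructor <;> linarith [a1.1, a1.2]
  refine le_trans ?_ (measure_mono hsub)
  rw [Measure.volume_eq_prod, Measure.prod_prod, Real.volume_Icc, Real.volume_Icc,
    ← ENNReal.ofReal_mul (by linarith)]
  refine ENNReal.ofReal_le_ofReal ?_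
  nlinarith [sq_nonneg ε]

variable [Fintype ι]

/-- Local density when the reversed ray escapes. -/
theorem back_density (K : Cfg ι) : ∃ J : ℕ, ∀ {P : ℂ} {ρ : ℝ}, K.Chart P ρ →
    ∀ {z₀ : ℝ × ℝ}, |z₀.2| < ρ → K.RegN (J + 1) P z₀ → rev z₀ ∈ K.EE P →
    ∀ σ > 0, ∃ X, |X - z₀.1| < σ ∧ (X, z₀.2) ∈ K.EE P := by
  obtain ⟨x, hx, hleaf⟩ := K.exists_leaf
  have hτ := K.τ_pos
  have hA := K.A_pos
  have hq : 0 < K.q := zero_lt_one.trans_le K.one_le_q
  have hν0 := K.nu_pos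
  have hν1 := K.nu_lt_one
  have hν : 0 < 1 - K.nu := by linarith
  set L := 56 * K.q ^ 2 with hL
  set W₀ := 168 * K.A * K.q ^ 2 with hW₀
  set C₀ : ℝ := Fintype.card ι * (16 / K.τ) with hC₀
  set C₁ : ℝ := (Fintype.card ι + 1) ^ 2 * (8 * π) with hC₁
  have L0 : 0 < L := by positivity
  have W0 : 0 < W₀ := by positivity
  have C00 : 0 ≤ C₀ := by positivity
  have C10 : 0 ≤ C₁ := by positivity
  obtain ⟨J, hJ⟩ := exists_pow_le (c := 2 * W₀ * C₀ * (L / x) / (1 - K.nu)) (b := 1 / 4)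
    (by positivity) hν0.le hν1
  refine ⟨J, fun {P ρ} hP z₀ hz₀ r1 r2 σ hσ => ?_⟩
  have hz₀' : |(rev z₀).2| < ρ := by simpa [rev] using hz₀
  obtain ⟨η₁, hη₁, ev1⟩ := RegN.margin (J + 1) hP.adm hz₀ r1
  have ev2 := EE_mem_nhds hP.adm hz₀' r2
  obtain ⟨k₁, n1, n1', _⟩ := r1
  have ev3 := n1.eventually hP.adm hz₀ n1'
  obtain ⟨d₀, hd₀, hU⟩ := exists_Box (((ev1.and ev3).and
    (continuous_rev.continuousAt.eventually ev2)))
  obtain ⟨d, ⟨⟨hd1, hd2⟩, hd3⟩, hd⟩ := ((((ev_le 2 hd₀).and (ev_le 2 one_pos)).and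
    (ev_le 3 (sub_pos.2 hz₀))).and self_mem_nhdsWithin).exists
  have hd : 0 < d := hd
  have hstr : ∀ y ∈ Box z₀ (2 * d), |y.2| + d ≤ ρ := fun y hy => by
    have := abs_sub_abs_le_abs_sub y.2 z₀.2
    linarith [hy.2]
  obtain ⟨σ₁, ⟨s2, s4⟩, hσ₁⟩ := (((ev_le 3 hσ).and (ev_le 2 hd)).and self_mem_nhdsWithin).exists
  have hσ₁ : 0 < σ₁ := hσ₁
  obtain ⟨j₀, hj₀⟩ := exists_pow_le (c := 4 * W₀ * (C₁ * (L / x) / (1 - K.nu)) / σ₁)
    (b := 1 / 4) (by positivity) hν0.le hν1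
  obtain ⟨δ, hδ, hgr⟩ := K.growth_le j₀
  obtain ⟨ε, ⟨⟨⟨⟨⟨⟨e1, e2⟩, e3⟩, e5⟩, e6⟩, e8⟩, e9⟩, hε⟩ :=
    ((((((((ev_le (2 * W₀) hδ).and (ev_le W₀ hd)).and (ev_le (2 * W₀) hσ₁)).and
    (ev_le (L / x) (half_pos hτ))).and (ev_le (L / x) hη₁)).and
    (ev_le (2 * K.A * L) hd)).and (ev_le L hσ₁)).and
    self_mem_nhdsWithin).exists
  have hε : 0 < ε := hε
  set m := L / x * ε with hm
  have m0 : 0 < m := by positivity
  have hmj : ∀ j : ℕ, m * K.nu ^ j ≤ m := fun j =>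
    mul_le_of_le_one_right m0.le (pow_le_one₀ hν0.le hν1.le)
  set Mid : Set (ℝ × ℝ) := ⋃ i : ℕ, K.Lev (K.Near (m * K.nu ^ (i + J))) (i + J) P ∩
    {_y | i + J ≤ j₀} with hMid
  set High : Set (ℝ × ℝ) := ⋃ i : ℕ, K.Lev (K.Near (m * K.nu ^ (i + j₀))) (i + j₀) P with hHigh
  have mL : ∀ η j, MeasurableSet (K.Lev (K.Near η) j P) := fun η j =>
    measurableSet_Lev (measurableSet_Near η) j P
  have mHigh : MeasurableSet High := MeasurableSet.iUnion fun i => mL _ _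
  have hHL : ∀ y η, m ≤ η → (∃ k, K.Next P y k) → (∀ j < J + 1, y ∉ K.Lev (K.NM η) j P) →
      y ∉ Mid → y ∉ High → |y.2| + d ≤ ρ → K.HasLeaf P (L * ε) y := by
    rintro y η hη ⟨k, hk⟩ h1 h2 h3 h4 ω φ β₀ rfl he
    refine hleaf hP.adm ?_ (m := m) (by positivity) (le_of_eq (by rw [hm]; field_simp)) m0
      (by linarith) (by linarith) ⟨he, fun j hj => ?_⟩
    · rintro rfl
      exact he k hk.1
    · rcases lt_or_ge j J with h | h
      · exact h1 j (by omega) (Lev_mono (fun P => NM_mono ((hmj j).trans hη) P) j P hj)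
      · have hj' := Lev_mono (fun P => NM_subset_Near _ P) j P hj
        rcases le_total j j₀ with h' | h'
        · refine h2 (mem_iUnion.2 ⟨j - J, ?_, ?_⟩)
          · rwa [Nat.sub_add_cancel h]
          · change j - J + J ≤ j₀
            omega
        · refine h3 (mem_iUnion.2 ⟨j - j₀, ?_⟩)
          rwa [Nat.sub_add_cancel h']
  have vMid : ∀ z : ℝ × ℝ, (∀ y, |y - z.2| < W₀ * ε → |y| ≤ ρ) →
      volume (Mid ∩ Box z (W₀ * ε)) ≤ ENNReal.ofReal (1 / 4 * ε ^ 2) := by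
    intro z hz
    rw [hMid, iUnion_inter]
    refine (vol_iUnion_geom (c := 2 * (W₀ * ε) * (C₀ * (m * K.nu ^ J))) (by positivity) hν0.le hν1
      fun i => ?_).trans (ENNReal.ofReal_le_ofReal ?_)
    · by_cases hi : i + J ≤ j₀
      · refine le_trans (measure_mono (inter_subset_inter_left _ inter_subset_left)) ?_
        refine (vol_box_le (mL _ _) z (by positivity) fun y hy =>
          hgr (i + J) hi hP.adm (by positivity) ((hmj _).trans e5) (hz y hy)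
            (by linarith)).trans (ENNReal.ofReal_le_ofReal (le_of_eq ?_))
        rw [pow_add]; ring
      · simp [hi]
    · have := mul_le_mul_of_nonneg_right hJ (sq_nonneg ε)
      refine le_trans (le_of_eq ?_) this
      rw [hm]; ring
  have vHigh : ∀ z : ℝ × ℝ, volume (High ∩ Box z (2 * d)) ≤
      ENNReal.ofReal (C₁ * (m * K.nu ^ j₀) / (1 - K.nu)) := by
    intro z
    rw [hHigh, iUnion_inter]
    refine vol_iUnion_geom (by positivity) hν0.le hν1 fun i => ?_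
    refine le_trans (measure_mono (inter_subset_inter_right _ ?_))
      ((vol_Lev_Near (K := K) (m * K.nu ^ (i + j₀)) (by positivity) P (z.1 - π) (i + j₀)).trans
        (ENNReal.ofReal_le_ofReal (le_of_eq ?_)))
    · intro y hy
      have := abs_lt.1 hy.1
      constructor <;> linarith [pi_gt_three]
    · rw [pow_add, hC₁]; ring
  set H := High ∩ Box z₀ (2 * d) with hH
  have mH : MeasurableSet H := mHigh.inter (measurableSet_Box _ _)
  have vH : (volume.restrict H) univ ≤ ENNReal.ofReal (C₁ * (m * K.nu ^ j₀) / (1 - K.nu)) := by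
    rw [Measure.restrict_apply_univ]
    exact vHigh z₀
  have hthin : 4 * (W₀ * ε) * (C₁ * (m * K.nu ^ j₀) / (1 - K.nu)) / σ₁ ≤ 1 / 4 * ε ^ 2 := by
    have := mul_le_mul_of_nonneg_right hj₀ (sq_nonneg ε)
    refine le_trans (le_of_eq ?_) this
    rw [hm]; ring
  obtain ⟨φ₁, hφ₁, vcol⟩ := exists_thin (volume.restrict H) measurable_fst z₀.1 (w := W₀ * ε)
    (σ := σ₁) (by positivity) (by linarith) (by positivity) vH
  rw [Measure.restrict_apply' mH] at vcol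
  have hφ₁' : |φ₁ - z₀.1| ≤ σ₁ := by rw [abs_le]; constructor <;> linarith [hφ₁.1, hφ₁.2]
  set z : ℝ × ℝ := (φ₁, z₀.2) with hz
  have hzB : z ∈ Box z₀ d := ⟨by linarith, by simpa [hz] using hd⟩
  have hsub := Box_subset hzB e2
  have hPB : ∀ y ∈ K.Par ε z, y ∈ Box z (W₀ * ε) := fun y hy =>
    Par_mem_Box hε hy (by simpa using hε.le) (by simpa using hε.le)
  obtain ⟨y, y1, y2, y3, y4⟩ : ∃ y ∈ K.Par ε z, y ∉ Mid ∧ y ∉ High ∧
      y ∉ strip ρ ∩ rev ⁻¹' K.EP P ∩ (K.EP P)ᶜ := by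
    by_contra hcon
    push Not at hcon
    have hcov : K.Par ε z ⊆ (Mid ∩ Box z (W₀ * ε) ∪ {w | |w.1 - φ₁| < W₀ * ε} ∩ H) ∪
        (strip ρ ∩ rev ⁻¹' K.EP P ∩ (K.EP P)ᶜ) := by
      intro y hy
      by_cases a1 : y ∈ Mid
      · exact Or.inl (Or.inl ⟨a1, hPB y hy⟩)
      by_cases a2 : y ∈ High
      · exact Or.inl (Or.inr ⟨(hPB y hy).1, a2, hsub (hPB y hy)⟩)
      · exact Or.inr (hcon y hy a1 a2)
    have hz2 : ∀ y, |y - z.2| < W₀ * ε → |y| ≤ ρ := fun y hy => by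
      have := hstr (z.1, y) (hsub ⟨by simp only [sub_self, abs_zero]; positivity, hy⟩)
      simp only at this
      linarith
    have h3 := (vol_Par (K := K) hε z).trans ((measure_mono hcov).trans (measure_union_le _ _))
    rw [null_back hP, add_zero] at h3
    have h4 := h3.trans ((measure_union_le _ _).trans (add_le_add (vMid z hz2)
      (vcol.trans (ENNReal.ofReal_le_ofReal hthin))))
    rw [← ENNReal.ofReal_add (by positivity) (by positivity),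
      ENNReal.ofReal_le_ofReal_iff (by positivity)] at h4
    have : 0 < ε ^ 2 := by positivity
    linarith
  have hy2 := hsub (hPB y y1)
  have hs := hstr y hy2
  obtain ⟨⟨u1, u2⟩, u3⟩ := hU (Box_mono z₀ hd1 hy2)
  have y5 : y ∈ K.EP P := by
    by_contra hc
    exact y4 ⟨⟨by change |y.2| ≤ ρ; linarith, EE_subset_EP P u3⟩, hc⟩
  obtain ⟨X, hX1, hX2⟩ := hit_fwd hε y1 y5 (hHL y η₁ e6 ⟨k₁, u2.1⟩ u1 y2 y3 hs)
  refine ⟨X, ?_, hX2⟩
  have c1 := abs_le.1 hX1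
  have c2 := abs_le.1 hφ₁'
  simp only [hz] at c1
  rw [abs_lt]
  constructor <;> linarith

/-- Every arc of directions at a point in free space contains a regularly escaping ray. -/
theorem escape_dense (hF : K.Flight) {p : ℂ} {ρ : ℝ} (hp : K.Chart p ρ) {a b : ℝ} (hab : a < b) :
    ∃ φ ∈ Ioo a b, (φ, 0) ∈ K.EE p := by
  by_contra hcon
  push Not at hcon
  obtain ⟨J, hJ⟩ := K.local_density
  obtain ⟨J', hJ'⟩ := K.back_density
  have h0 : |(0 : ℝ)| < ρ := by rw [abs_zero]; exact hp.1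
  have hT := countable_tan hp.adm h0.le
  have hT' := hT.preimage (add_left_injective π)
  obtain ⟨φ, hφ1, hφ⟩ := ((hT.union hT').dense_compl ℝ).inter_open_nonempty (Ioo a b) isOpen_Ioo
    (nonempty_Ioo.2 hab)
  have reg : ∀ n, K.RegN n p (φ, 0) := fun n => by
    rcases trichotomy (K := K) n p (φ, 0) with h | h | h
    · exact absurd h (hcon φ hφ1)
    · exact h
    · exact absurd (Or.inl h) hφ
  have hσ : 0 < min (φ - a) (b - φ) := lt_min (sub_pos.2 hφ1.1) (sub_pos.2 hφ1.2)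
  have fin : ∀ X : ℝ, |X - φ| < min (φ - a) (b - φ) → X ∈ Ioo a b := fun X hX => by
    have c1 := abs_lt.1 hX
    have c2 := min_le_left (φ - a) (b - φ)
    have c3 := min_le_right (φ - a) (b - φ)
    constructor <;> linarith
  rcases trichotomy (K := K) (J + 1) p (φ + π, 0) with h | r2 | h
  · obtain ⟨X, c1, c2⟩ := hJ' hp (z₀ := (φ, 0)) h0 (reg _) (by simpa [rev] using h) _ hσ
    exact hcon X (fin X c1) c2
  · obtain ⟨d, hd, h⟩ := hJ hp (z₀ := (φ, 0)) h0 (reg _) (by simpa [rev] using r2)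
    obtain ⟨k, a1, a2, _⟩ := reg 1
    have h8 := (transfer_closure (K.stepH p k)
      (dich_step hp.adm (z := (φ, 0)) h0 a1 a2)).self_of_nhds.2 (strip_dense hF k a2)
    obtain ⟨zs, b1, b2⟩ := mem_closure_iff_nhds.1 h8 _ (Box_mem_nhds _ hd)
    obtain ⟨X, c1, c2⟩ := h zs b1 b2 (φ, 0) (mem_of_mem_nhds (Box_mem_nhds _ hd)) _ hσ
    exact hcon X (fin X c1) c2
  · exact hφ (Or.inr h)

/-- Every arc of directions contains an arc of regularly escaping rays. -/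
theorem escape_arc (hF : K.Flight) {p : ℂ} {ρ : ℝ} (hp : K.Chart p ρ) {a b : ℝ} (hab : a < b) :
    ∃ a' b', a ≤ a' ∧ a' < b' ∧ b' ≤ b ∧ ∀ φ ∈ Ioo a' b', (φ, 0) ∈ K.EE p := by
  obtain ⟨φ, h1, h2⟩ := escape_dense hF hp hab
  have h0 : |((φ, 0) : ℝ × ℝ).2| < ρ := by simpa using hp.1
  have c : Continuous fun t : ℝ => ((t, 0) : ℝ × ℝ) := by fun_prop
  have h3 : ∀ᶠ t in 𝓝 φ, ((t, 0) : ℝ × ℝ) ∈ K.EE p :=
    c.continuousAt.eventually (EE_mem_nhds hp.adm h0 h2)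
  obtain ⟨l, u, h4, h5⟩ := mem_nhds_iff_exists_Ioo_subset.1 h3
  refine ⟨max a l, min b u, le_max_left _ _, ?_, min_le_left _ _, fun t ht => h5 ⟨?_, ?_⟩⟩
  · exact (max_lt h1.1 h4.1).trans (lt_min h1.2 h4.2)
  · exact (le_max_right _ _).trans_lt ht.1
  · exact ht.2.trans_le (min_le_right _ _)

end Cfg

end Pool.Agent.Lib.MP_ab57f0_an
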