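import Pool.Agent.Lib.MP_ab57f0_an.Symm

/-! Derivatives along curves, the two-point form, countability of double tangencies. -/

set_option autoImplicit false

namespace Pool.Agent.Lib.MP_ab57f0_an

open Real Set MeasureTheory Filter Topology

/-- The plane curve `γ` has velocity `(p, q)` at time `t`. -/
def HD (γ : ℝ → ℝ × ℝ) (p q t : ℝ) : Prop :=
  HasDerivAt (fun s => (γ s).1) p t ∧ HasDerivAt (fun s => (γ s).2) q t

lemma HD.congr {γ : ℝ → ℝ × ℝ} {p q p' q' t : ℝ} (h : HD γ p q t) (h1 : p = p') (h2 : q = q') :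
    HD γ p' q' t := h1 ▸ h2 ▸ h

lemma hasDerivAt_arcsin_div {f : ℝ → ℝ} {f' t ρ : ℝ} (hf : HasDerivAt f f' t) (h : |f t| < ρ) :
    HasDerivAt (fun s => arcsin (f s / ρ)) (f' / hh ρ (f t)) t := by
  have hρ : 0 < ρ := (abs_nonneg _).trans_lt h
  have h1 : f t / ρ ≠ -1 := by
    intro e
    rw [div_eq_iff hρ.ne'] at e
    have := (abs_lt.1 h).1
    linarith
  have h2 : f t / ρ ≠ 1 := by
    intro e
    rw [div_eq_iff hρ.ne'] at e
    have := (abs_lt.1 h).2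
    linarith
  have h3 := (hasDerivAt_arcsin h1 h2).comp t (hf.div_const ρ)
  have e : hh ρ (f t) = √(1 - (f t / ρ) ^ 2) * ρ := by
    unfold hh
    rw [← sqrt_sq hρ.le, ← sqrt_mul' _ (sq_nonneg ρ), sqrt_sq hρ.le]
    congr 1
    field_simp
  have e2 : f' / hh ρ (f t) = 1 / √(1 - (f t / ρ) ^ 2) * (f' / ρ) := by
    rw [e, div_mul_div_comm, one_mul]
  rw [e2]
  exact h3

lemma mul_sin_arcsin {ρ x : ℝ} (hρ : 0 < ρ) (h : |x| ≤ ρ) : ρ * sin (arcsin (x / ρ)) = x := by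
  have := abs_le.1 h
  rw [sin_arcsin]
  · field_simp
  · rw [le_div_iff₀ hρ]; linarith
  · rw [div_le_iff₀ hρ]; linarith

lemma mul_cos_arcsin {ρ x : ℝ} (hρ : 0 < ρ) : ρ * cos (arcsin (x / ρ)) = hh ρ x := by
  rw [cos_arcsin]
  unfold hh
  rw [← sqrt_sq hρ.le, ← sqrt_mul (sq_nonneg ρ), sqrt_sq hρ.le]
  congr 1
  field_simp

/-- The two-point form. -/
noncomputable def QQ (ρ : ℝ) (z z' : ℝ × ℝ) : ℝ :=
  (z.2 - z'.2) * sin (z.1 - z'.1) + (hh ρ z.2 + hh ρ z'.2) * (1 - cos (z.1 - z'.1))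

lemma refl_identity (α α' Δ : ℝ) :
    ((sin α - sin α') * sin (Δ - 2 * (α - α')) + (cos α + cos α') * (1 - cos (Δ - 2 * (α - α'))))
      - ((sin α - sin α') * sin Δ - (cos α + cos α') * (1 - cos Δ))
      = 2 * (cos α + cos α') * (1 - cos (Δ - (α - α'))) := by
  obtain ⟨m, d, rfl, rfl⟩ : ∃ m d, α = m + d ∧ α' = m - d :=
    ⟨(α + α') / 2, (α - α') / 2, by ring, by ring⟩
  obtain ⟨θ, rfl⟩ : ∃ θ, Δ = θ + 2 * d := ⟨Δ - 2 * d, by ring⟩
  have e1 : θ + 2 * d - 2 * (m + d - (m - d)) = θ - 2 * d := by ring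
  have e2 : θ + 2 * d - (m + d - (m - d)) = θ := by ring
  rw [e1, e2]
  simp only [sin_add, sin_sub, cos_add, cos_sub, sin_two_mul, cos_two_mul]
  have := sin_sq_add_cos_sq d
  linear_combination (-8 * cos m * cos d * cos θ) * this

lemma base_identity (w : ℂ) (φ φ' : ℝ) :
    (ss w φ - ss w φ') * sin (φ - φ') = (ee w φ + ee w φ') * (1 - cos (φ - φ')) := by
  simp only [ss, ee, sin_sub, cos_sub]
  have h1 := sin_sq_add_cos_sq φ
  have h2 := sin_sq_add_cos_sq φ'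
  linear_combination (w.re * cos φ' + w.im * sin φ') * h1 + (w.re * cos φ + w.im * sin φ) * h2

namespace Cfg

variable {ι : Type} {K : Cfg ι}

lemma hd_b {γ : ℝ → ℝ × ℝ} {p q t : ℝ} (h : HD γ p q t) (P : ℂ) (k : ι) :
    HasDerivAt (fun s => K.b P (γ s) k) (q + K.e P (γ t) k * p) t := by
  have h3 := (hasDerivAt_ss (K.c k - P) (γ t).1).comp t h.1
  exact h.2.add h3

lemma hd_step {γ : ℝ → ℝ × ℝ} {p q t : ℝ} (h : HD γ p q t) (P : ℂ) (k : ι)
    (hb : |K.b P (γ t) k| < K.r k) :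
    HD (fun s => K.step P k (γ s))
      (p - 2 * ((q + K.e P (γ t) k * p) / hh (K.r k) (K.b P (γ t) k)))
      (q + K.e P (γ t) k * p) t :=
  ⟨(h.1.add_const π).sub ((hasDerivAt_arcsin_div (hd_b h P k) hb).const_mul 2), hd_b h P k⟩

lemma hd_inc {γ : ℝ → ℝ × ℝ} {p q t : ℝ} (h : HD γ p q t) (k : ι) (hb : |(γ t).2| < K.r k) :
    HasDerivAt (fun s => K.inc k (γ s)) (p + 2 * (q / hh (K.r k) (γ t).2)) t :=
  (h.1.sub_const π).add ((hasDerivAt_arcsin_div h.2 hb).const_mul 2)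

lemma hd_unstep {γ : ℝ → ℝ × ℝ} {u q t : ℝ} (P : ℂ) (k : ι)
    (h1 : HasDerivAt (fun s => K.inc k (γ s)) u t) (h2 : HasDerivAt (fun s => (γ s).2) q t) :
    HD (fun s => K.unstep P k (γ s)) u (q - K.e P (K.unstep P k (γ t)) k * u) t := by
  have h3 := (hasDerivAt_ss (K.c k - P) (K.inc k (γ t))).comp t h1
  exact ⟨h1, h2.sub h3⟩

/-- One step of a dispersing curve. -/
lemma hd_step_cone {γ : ℝ → ℝ × ℝ} {p g t : ℝ} (h : HD γ p (-(g * p)) t) {P : ℂ} {ρ : ℝ}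
    (hP : K.Adm P ρ) (hz : |(γ t).2| ≤ ρ) (hg : g ≤ hh ρ (γ t).2) {k : ι}
    (hk : K.Ahead P (γ t) k) (hb : |K.b P (γ t) k| < K.r k) :
    ∃ Λ g' : ℝ, 1 + 2 * K.τ / hh (K.r k) (K.b P (γ t) k) ≤ Λ ∧ 0 ≤ g' ∧
      g' ≤ hh (K.r k) (K.b P (γ t) k) ∧
      HD (fun s => K.step P k (γ s)) (-(Λ * p)) (-(g' * (-(Λ * p)))) t := by
  have hgap := hP.gap hz hk
  have hpos := hh_pos hb
  have hτ := K.τ_pos
  have hst := hd_step h P k hb
  set H := hh (K.r k) (K.b P (γ t) k)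
  set x := K.e P (γ t) k - g with hx
  have hxH : H + K.τ ≤ x := by linarith
  have hd : 0 < 2 * x - H := by linarith
  refine ⟨(2 * x - H) / H, x * H / (2 * x - H), ?_, ?_, ?_, ?_⟩
  · rw [le_div_iff₀ hpos]
    field_simp
    linarith
  · exact div_nonneg (mul_nonneg (by linarith) hpos.le) hd.le
  · rw [div_le_iff₀ hd]
    nlinarith
  · have hd' : x * 2 - H ≠ 0 := by linarith
    refine hst.congr ?_ ?_
    · have : K.e P (γ t) k = x + g := by rw [hx]; ring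
      rw [this]; field_simp; ring
    · have : K.e P (γ t) k = x + g := by rw [hx]; ring
      rw [this]; field_simp; ring

/-- Final impact parameter along an itinerary. -/
noncomputable def Bf (K : Cfg ι) : ℂ → List ι → ι → ℝ × ℝ → ℝ
  | P, [], k, z => K.b P z k
  | P, l :: ω, k, z => Bf K (K.c l) ω k (K.step P l z)

lemma TanAt.abs_Bf : ∀ (ω : List ι) {P : ℂ} {k : ι} {z : ℝ × ℝ}, K.TanAt P ω k z →
    |K.Bf P ω k z| = K.r k
  | [], _, _, _, h => h.2
  | _ :: ω, _, _, _, h => TanAt.abs_Bf ω h.2.2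

lemma TanAt.deriv_ne : ∀ (ω : List ι) {P : ℂ} {ρ : ℝ}, K.Adm P ρ → ∀ {k : ι} {γ : ℝ → ℝ × ℝ}
    {p g t : ℝ}, HD γ p (-(g * p)) t → p ≠ 0 → |(γ t).2| ≤ ρ → g ≤ hh ρ (γ t).2 →
    K.TanAt P ω k (γ t) → ∃ D, D ≠ 0 ∧ HasDerivAt (fun s => K.Bf P ω k (γ s)) D t
  | [], P, ρ, hP, k, γ, p, g, t, h, hp, hz, hg, hT => by
    refine ⟨_, ?_, hd_b h P k⟩
    have hgap := hP.gap hz hT.1.1
    have := hh_nonneg (K.r k) (K.b P (γ t) k)
    have hτ := K.τ_pos
    have e : -(g * p) + K.e P (γ t) k * p = (K.e P (γ t) k - g) * p := by ring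
    rw [e]
    exact mul_ne_zero (by linarith) hp
  | l :: ω, P, ρ, hP, k, γ, p, g, t, h, hp, hz, hg, hT => by
    obtain ⟨Λ, g', h1, _, h3, h4⟩ := hd_step_cone h hP hz hg hT.1.1 hT.2.1
    have hΛ : 0 < Λ := by
      have : 0 ≤ 2 * K.τ / hh (K.r l) (K.b P (γ t) l) :=
        div_nonneg (by linarith [K.τ_pos]) (hh_nonneg _ _)
      linarith
    exact TanAt.deriv_ne ω (K.adm_c l) h4 (neg_ne_zero.2 (mul_ne_zero hΛ.ne' hp)) hT.2.1.le h3
      hT.2.2

lemma countable_tan [Finite ι] {P : ℂ} {ρ : ℝ} (hP : K.Adm P ρ) {y : ℝ} (hy : |y| ≤ ρ) :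
    {t : ℝ | ∃ ω k, K.TanAt P ω k (t, y)}.Countable := by
  have key : ∀ (ω : List ι) (k : ι) (x : ℝ),
      {t : ℝ | K.TanAt P ω k (t, y) ∧ K.Bf P ω k (t, y) = x}.Countable := by
    intro ω k x
    refine (countable_setOfPred_isolated_right_within
      (s := {t : ℝ | K.TanAt P ω k (t, y) ∧ K.Bf P ω k (t, y) = x})).mono ?_
    intro t ht
    refine ⟨ht, ?_⟩
    have hd : HD (fun s : ℝ => (s, y)) 1 (-(0 * 1)) t :=
      ⟨hasDerivAt_id t, by simpa using hasDerivAt_const t y⟩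
    obtain ⟨D, hD, h⟩ := TanAt.deriv_ne ω hP hd one_ne_zero hy (hh_nonneg _ _) ht.1
    have h2 := h.eventually_ne (c := x) hD
    rw [← empty_mem_iff_bot, mem_nhdsWithin_iff_eventually]
    rw [eventually_nhdsWithin_iff] at h2
    filter_upwards [h2] with s hs hs'
    exact hs (ne_of_gt hs'.2) hs'.1.2
  have : {t : ℝ | ∃ ω k, K.TanAt P ω k (t, y)} ⊆ ⋃ ω, ⋃ k,
      ({t : ℝ | K.TanAt P ω k (t, y) ∧ K.Bf P ω k (t, y) = K.r k} ∪
        {t : ℝ | K.TanAt P ω k (t, y) ∧ K.Bf P ω k (t, y) = - K.r k}) := by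
    rintro t ⟨ω, k, h⟩
    refine mem_iUnion₂.2 ⟨ω, k, ?_⟩
    rcases (abs_eq (K.r_pos k).le).1 (TanAt.abs_Bf ω h) with e | e
    · exact Or.inl ⟨h, e⟩
    · exact Or.inr ⟨h, e⟩
  exact (countable_iUnion fun ω => countable_iUnion fun k => (key ω k _).union (key ω k _)).mono
    this

lemma sh_injective : Function.Injective sh := by
  intro z z' h
  have h1 := congrArg Prod.fst h
  have h2 := congrArg Prod.snd h
  simp only [sh] at h1 h2
  ext
  · linarith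
  · exact h2

/-- States with a tangency both in the future and in the past are countably many. -/
lemma countable_double_aux [Finite ι] : ∀ (ω' : List ι) (i : ι),
    {z : ℝ × ℝ | |z.2| < K.r i ∧ (∃ k', K.TanAt (K.c i) ω' k' (K.iota i z)) ∧
      ∃ ω k, K.TanAt (K.c i) ω k z}.Countable
  | [], i => by
    have hc : ∀ k', (sh ⁻¹' (K.step (K.c k') i ''
        ((fun t => (t, K.r k')) '' {t : ℝ | ∃ ω k, K.TanAt (K.c k') ω k (t, K.r k')} ∪
        (fun t => (t, - K.r k')) '' {t : ℝ | ∃ ω k, K.TanAt (K.c k') ω k (t, - K.r k')}))).Countable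
        := fun k' => by
      refine Set.Countable.preimage (Set.Countable.image (Set.Countable.union ?_ ?_) _) sh_injective
      · exact (countable_tan (K.adm_c k') (by rw [abs_of_pos (K.r_pos k')])).image _
      · exact (countable_tan (K.adm_c k') (by rw [abs_neg, abs_of_pos (K.r_pos k')])).image _
    refine (countable_iUnion hc).mono ?_
    rintro z ⟨h1, ⟨k', h2⟩, ω, k, h3⟩
    have hz : |(K.iota i z).2| ≤ K.r i := by simpa [iota] using h1.le
    have hn := h2.1.back hz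
    have hs := step_back (K := K) i k' (K.iota i z)
    have hb := b_back (K := K) i k' (K.iota i z)
    rw [iota_iota] at hs
    set w := K.iota k' (K.step (K.c i) k' (K.iota i z)) with hw
    have hT : K.TanAt (K.c k') (i :: ω) k w := by
      refine ⟨hn, ?_, ?_⟩
      · rw [hb]; simpa [iota] using h1
      · rw [hs, tanAt_sh]; exact h3
    have hw2 : |w.2| = K.r k' := by
      rw [hw, iota_step, abs_neg]; exact h2.2
    refine mem_iUnion.2 ⟨k', w, ?_, hs⟩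
    rcases (abs_eq (K.r_pos k').le).1 hw2 with e | e
    · exact Or.inl ⟨w.1, ⟨i :: ω, k, by rw [← e]; exact hT⟩, by rw [← e]⟩
    · exact Or.inr ⟨w.1, ⟨i :: ω, k, by rw [← e]; exact hT⟩, by rw [← e]⟩
  | l :: ω', i => by
    refine (((countable_double_aux ω' l).image (K.step (K.c l) i)).preimage sh_injective).mono ?_
    rintro z ⟨h1, ⟨k', h2⟩, ω, k, h3⟩
    have hz : |(K.iota i z).2| ≤ K.r i := by simpa [iota] using h1.le
    have hn := h2.1.back hz
    have hs := step_back (K := K) i l (K.iota i z)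
    have hb := b_back (K := K) i l (K.iota i z)
    rw [iota_iota] at hs
    refine ⟨K.iota l (K.step (K.c i) l (K.iota i z)), ⟨?_, ⟨k', ?_⟩, i :: ω, k, hn, ?_, ?_⟩, hs⟩
    · rw [iota_step, abs_neg]; exact h2.2.1
    · rw [iota_iota]; exact h2.2.2
    · rw [hb]; simpa [iota] using h1
    · rw [hs, tanAt_sh]; exact h3

lemma countable_double [Finite ι] (i : ι) :
    {z : ℝ × ℝ | |z.2| < K.r i ∧ (∃ ω' k', K.TanAt (K.c i) ω' k' (K.iota i z)) ∧
      ∃ ω k, K.TanAt (K.c i) ω k z}.Countable := by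
  refine (countable_iUnion fun ω' => countable_double_aux (K := K) ω' i).mono ?_
  rintro z ⟨h1, ⟨ω', h2⟩, h3⟩
  exact mem_iUnion.2 ⟨ω', h1, h2, h3⟩

/-- Invariance of the Wronskian. -/
lemma wronskian : ∀ (ω : List ι) (P : ℂ) {γ Γ : ℝ → ℝ × ℝ} {p q t u v β : ℝ},
    K.EscR P ω (γ t) → Γ β = γ t → HD γ p q t → HD Γ u v β →
    ∃ p' q' u' v', HD (fun s => K.fwd P ω (γ s)) p' q' t ∧
      HD (fun s => K.fwd P ω (Γ s)) u' v' β ∧ p' * v' - q' * u' = p * v - q * u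
  | [], _, _, _, p, q, _, u, v, _, _, _, h1, h2 => ⟨p, q, u, v, h1, h2, rfl⟩
  | k :: ω, P, γ, Γ, p, q, t, u, v, β, h, e, h1, h2 => by
    have a1 := hd_step h1 P k h.2.1
    have a2 := hd_step h2 P k (e ▸ h.2.1)
    obtain ⟨p', q', u', v', b1, b2, b3⟩ := wronskian ω (K.c k) (γ := fun s => K.step P k (γ s))
      (Γ := fun s => K.step P k (Γ s)) h.2.2 (by simp only [e]) a1 a2
    refine ⟨p', q', u', v', b1, b2, b3.trans ?_⟩
    rw [e]; ring

lemma QQ_nonpos : ∀ (ω : List ι) {P : ℂ} {ρ : ℝ}, K.Adm P ρ → ∀ {z z' : ℝ × ℝ},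
    |z.2| ≤ ρ → |z'.2| ≤ ρ → K.Esc P ω z → K.Esc P ω z' →
    (K.fwd P ω z).1 = (K.fwd P ω z').1 → QQ ρ z z' ≤ 0
  | [], P, ρ, _, z, z', _, _, _, _, h => by
    have h' : z.1 = z'.1 := h
    simp [QQ, h']
  | k :: ω, P, ρ, hP, z, z', hz, hz', h1, h2, h => by
    have ih := QQ_nonpos ω (K.adm_c k) (z := K.step P k z) (z' := K.step P k z')
      h1.1.1.1 h2.1.1.1 h1.2 h2.2 h
    have g1 := hP.gap hz h1.1.1
    have g2 := hP.gap hz' h2.1.1
    have hr := K.r_pos k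
    have s1 := mul_sin_arcsin hr h1.1.1.1
    have s2 := mul_sin_arcsin hr h2.1.1.1
    have c1 := mul_cos_arcsin (x := K.b P z k) hr
    have c2 := mul_cos_arcsin (x := K.b P z' k) hr
    have hid := refl_identity (arcsin (K.b P z k / K.r k)) (arcsin (K.b P z' k / K.r k))
      (z.1 - z'.1)
    have hb := base_identity (K.c k - P) z.1 z'.1
    simp only [QQ, step] at ih ⊢
    have e1 : z.1 + π - 2 * arcsin (K.b P z k / K.r k) - (z'.1 + π - 2 * arcsin (K.b P z' k / K.r k))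
        = z.1 - z'.1 - 2 * (arcsin (K.b P z k / K.r k) - arcsin (K.b P z' k / K.r k)) := by ring
    rw [e1] at ih
    set α := arcsin (K.b P z k / K.r k)
    set α' := arcsin (K.b P z' k / K.r k)
    have n1 : 0 ≤ 1 - cos (z.1 - z'.1) := sub_nonneg.2 (cos_le_one _)
    have n2 : 0 ≤ 1 - cos (z.1 - z'.1 - (α - α')) := sub_nonneg.2 (cos_le_one _)
    have n3 := hh_nonneg (K.r k) (K.b P z k)
    have n4 := hh_nonneg (K.r k) (K.b P z' k)
    have hτ := K.τ_pos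
    have e2 : z.2 - z'.2 = (K.b P z k - K.b P z' k)
        - (ss (K.c k - P) z.1 - ss (K.c k - P) z'.1) := by unfold b; ring
    have e3 : (K.b P z k - K.b P z' k) * sin (z.1 - z'.1)
        - (hh (K.r k) (K.b P z k) + hh (K.r k) (K.b P z' k)) * (1 - cos (z.1 - z'.1)) ≤ 0 := by
      have n5 := mul_nonneg (add_nonneg n3 n4) n2
      rw [← s1, ← s2, ← c1, ← c2] at *
      nlinarith [hid]
    rw [e2, sub_mul, hb]
    unfold e at g1 g2
    nlinarith [mul_nonneg n1 (sub_nonneg.2 g1), mul_nonneg n1 (sub_nonneg.2 g2),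
      mul_nonneg n1 hτ.le]

/-- Two states with the same itinerary and final direction do not form an increasing pair. -/
lemma not_increasing (ω : List ι) {P : ℂ} {ρ : ℝ} (hP : K.Adm P ρ) {z z' : ℝ × ℝ}
    (hz : |z.2| ≤ ρ) (hz' : |z'.2| ≤ ρ) (h1 : K.Esc P ω z) (h2 : K.Esc P ω z')
    (h : (K.fwd P ω z).1 = (K.fwd P ω z').1) (hπ : |z.1 - z'.1| < π) :
    (z.2 - z'.2) * (z.1 - z'.1) ≤ 0 := by
  have hQ := QQ_nonpos ω hP hz hz' h1 h2 h
  unfold QQ at hQ
  have n1 : 0 ≤ 1 - cos (z.1 - z'.1) := sub_nonneg.2 (cos_le_one _)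
  have n2 := mul_nonneg (add_nonneg (hh_nonneg ρ z.2) (hh_nonneg ρ z'.2)) n1
  have hs : (z.2 - z'.2) * sin (z.1 - z'.1) ≤ 0 := by linarith
  have := abs_lt.1 hπ
  rcases lt_trichotomy (z.1 - z'.1) 0 with h0 | h0 | h0
  · have : sin (z.1 - z'.1) < 0 := sin_neg_of_neg_of_neg_pi_lt h0 this.1
    have : 0 ≤ z.2 - z'.2 := by
      by_contra hc
      push Not at hc
      nlinarith
    nlinarith
  · rw [h0, mul_zero]
  · have : 0 < sin (z.1 - z'.1) := sin_pos_of_pos_of_lt_pi h0 this.2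
    have : z.2 - z'.2 ≤ 0 := by
      by_contra hc
      push Not at hc
      nlinarith
    nlinarith

end Cfg

end Pool.Agent.Lib.MP_ab57f0_an
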