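import Pool.Agent.Lib.MP_ab57f0_an.Global

/-! Translation between light rays in the plane and the dynamics on oriented lines. -/

set_option autoImplicit false

namespace Pool.Agent.Lib.MP_ab57f0_an

open Real Set MeasureTheory Filter Topology

/-- The vector with components `a` along and `y` across the direction `φ`. -/
noncomputable def pt (a y φ : ℝ) : ℂ := ⟨a * cos φ - y * sin φ, a * sin φ + y * cos φ⟩

lemma norm_pt_sq (a y φ : ℝ) : ‖pt a y φ‖ ^ 2 = a ^ 2 + y ^ 2 := by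
  rw [Complex.sq_norm, Complex.normSq_apply]
  simp only [pt]
  linear_combination (a ^ 2 + y ^ 2) * sin_sq_add_cos_sq φ

namespace Cfg

variable {ι : Type} {K : Cfg ι}

lemma ray_eq (P : ℂ) (z : ℝ × ℝ) (H s : ℝ) (l : ι) :
    P + pt H z.2 z.1 + s * pt 1 0 z.1 - K.c l = pt (H + s - K.e P z l) (K.b P z l) z.1 := by
  have h := sin_sq_add_cos_sq z.1
  apply Complex.ext
  · simp only [pt, e, b, ee, ss, Complex.add_re, Complex.sub_re, Complex.mul_re, Complex.ofReal_re,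
      Complex.ofReal_im, Complex.sub_im]
    linear_combination ((K.c l).re - P.re) * h
  · simp only [pt, e, b, ee, ss, Complex.add_im, Complex.sub_re, Complex.mul_im, Complex.ofReal_re,
      Complex.ofReal_im, Complex.sub_im]
    linear_combination ((K.c l).im - P.im) * h

lemma one_step {P : ℂ} {ρ : ℝ} (hP : K.Adm P ρ) {z : ℝ × ℝ} (hz : |z.2| ≤ ρ) {H : ℝ}
    (H0 : 0 ≤ H) (H1 : H ≤ hh ρ z.2) {i : ι} {t : ℝ} (ht : 0 < t)
    (h1 : ‖P + pt H z.2 z.1 + t * pt 1 0 z.1 - K.c i‖ = K.r i)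
    (h2 : ∀ s : ℝ, 0 < s → s < t → ∀ j, K.r j < ‖P + pt H z.2 z.1 + s * pt 1 0 z.1 - K.c j‖) :
    K.Next P z i ∧ H + t - K.e P z i = - hh (K.r i) (K.b P z i) := by
  have hr := K.r_pos i
  have a1 : (H + t - K.e P z i) ^ 2 + K.b P z i ^ 2 = K.r i ^ 2 := by
    rw [← norm_pt_sq _ _ z.1, ← ray_eq, h1]
  have a2 : ∀ s : ℝ, 0 < s → s < t → ∀ j,
      K.r j ^ 2 < (H + s - K.e P z j) ^ 2 + K.b P z j ^ 2 := fun s s0 s1 j => by
    rw [← norm_pt_sq _ _ z.1, ← ray_eq]
    exact pow_lt_pow_left₀ (h2 s s0 s1 j) (K.r_pos j).le two_ne_zero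
  have a3 : |K.b P z i| ≤ K.r i :=
    abs_le.2 (abs_le_of_sq_le_sq' (by nlinarith [sq_nonneg (H + t - K.e P z i)]) hr.le)
  have a4 : H + t - K.e P z i ≤ 0 := by
    by_contra hc
    push Not at hc
    set x := H + t - K.e P z i with hx
    have m0 : 0 < min t x := lt_min ht hc
    have m1 := min_le_left t x
    have m2 := min_le_right t x
    have := a2 (t - min t x / 2) (by linarith) (by linarith) i
    have e : H + (t - min t x / 2) - K.e P z i = x - min t x / 2 := by rw [hx]; ring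
    rw [e] at this
    nlinarith
  have a5 : H + t - K.e P z i = - hh (K.r i) (K.b P z i) := by
    have b1 := hh_sq a3
    have b2 := hh_nonneg (K.r i) (K.b P z i)
    have : (- (H + t - K.e P z i)) ^ 2 = hh (K.r i) (K.b P z i) ^ 2 := by linarith
    have := (pow_left_inj₀ (by linarith) b2 two_ne_zero).1 this
    linarith
  refine ⟨⟨⟨a3, by linarith⟩, fun l hl => ?_⟩, a5⟩
  by_contra hc
  push Not at hc
  have hil : l ≠ i := by rintro rfl; exact lt_irrefl _ hc
  have g1 := hP.gap hz hl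
  have g2 := gap_two P z hil hl.1 a3
  rw [abs_of_pos (by linarith)] at g2
  have n1 := hh_nonneg (K.r l) (K.b P z l)
  have hτ := K.τ_pos
  have := a2 (K.e P z l - H) (by linarith) (by linarith) l
  have b1 := abs_le.1 hl.1
  nlinarith

lemma not_esc {Q D : ℕ → ℂ} (h : ∀ n, ∃ (i : ι) (t : ℝ), 0 < t ∧ Q (n + 1) = Q n + t * D n ∧
    ‖Q (n + 1) - K.c i‖ = K.r i ∧
    (∀ s : ℝ, 0 < s → s < t → ∀ j, K.r j < ‖Q n + s * D n - K.c j‖) ∧
    D (n + 1) = D n - ((2 * ((D n).re * (Q (n + 1) - K.c i).re + (D n).im * (Q (n + 1) - K.c i).im)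
      / K.r i ^ 2 : ℝ) : ℂ) * (Q (n + 1) - K.c i)) :
    ∀ (ω : List ι) (n : ℕ) {P : ℂ} {ρ : ℝ}, K.Adm P ρ → ∀ {z : ℝ × ℝ}, |z.2| ≤ ρ → ∀ {H : ℝ},
      0 ≤ H → H ≤ hh ρ z.2 → D n = pt 1 0 z.1 → Q n = P + pt H z.2 z.1 → ¬ K.Esc P ω z
  | [], n, P, ρ, hP, z, hz, H, H0, H1, hD, hQ, hE => by
    obtain ⟨i, t, ht, a1, a2, a3, _⟩ := h n
    rw [a1] at a2
    rw [hD, hQ] at a2 a3
    exact hE i (one_step hP hz H0 H1 ht a2 a3).1.1
  | k :: ω, n, P, ρ, hP, z, hz, H, H0, H1, hD, hQ, hE => by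
    obtain ⟨i, t, ht, a1, a2, a3, a4⟩ := h n
    rw [a1] at a2
    rw [hD, hQ] at a1 a2 a3
    obtain ⟨b1, b2⟩ := one_step hP hz H0 H1 ht a2 a3
    obtain rfl := hE.1.unique b1
    have hr := K.r_pos k
    have e1 : Q (n + 1) - K.c k = pt (- hh (K.r k) (K.b P z k)) (K.b P z k) z.1 := by
      rw [a1, ray_eq, b2]
    have s1 := mul_sin_arcsin hr b1.1.1
    have c1 := mul_cos_arcsin (x := K.b P z k) hr
    have e2 : (K.step P k z).1 = z.1 - 2 * arcsin (K.b P z k / K.r k) + π := by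
      simp only [step]; ring
    have e3 : (K.step P k z).2 = K.b P z k := rfl
    have t1 := sin_sq_add_cos_sq z.1
    have t2 := sin_sq_add_cos_sq (arcsin (K.b P z k / K.r k))
    refine not_esc h ω (n + 1) (K.adm_c k) (z := K.step P k z) b1.1.1 (hh_nonneg _ _) le_rfl
      ?_ ?_ hE.2
    · rw [a4, e1, hD, e2, ← c1]
      generalize arcsin (K.b P z k / K.r k) = α at s1 t2 ⊢
      rw [← s1]
      apply Complex.ext
      · simp only [pt, Complex.sub_re, Complex.mul_re, Complex.ofReal_re, Complex.ofReal_im,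
          cos_add_pi, sin_add_pi, cos_sub, sin_sub, cos_two_mul, sin_two_mul]
        field_simp
        linear_combination (2 * cos α * (- cos α * cos z.1 - sin α * sin z.1)) * t1
      · simp only [pt, Complex.sub_im, Complex.mul_im, Complex.ofReal_re, Complex.ofReal_im,
          cos_add_pi, sin_add_pi, cos_sub, sin_sub, cos_two_mul, sin_two_mul]
        field_simp
        linear_combination (2 * cos α * (- cos α * sin z.1 + sin α * cos z.1)) * t1
    · rw [← sub_eq_iff_eq_add', e1, e2, e3, ← c1]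
      generalize arcsin (K.b P z k / K.r k) = α at s1 t2 ⊢
      rw [← s1]
      apply Complex.ext
      · simp only [pt, cos_add_pi, sin_add_pi, cos_sub, sin_sub, cos_two_mul, sin_two_mul]
        linear_combination (2 * K.r k * cos α * cos z.1) * t2
      · simp only [pt, cos_add_pi, sin_add_pi, cos_sub, sin_sub, cos_two_mul, sin_two_mul]
        linear_combination (2 * K.r k * cos α * sin z.1) * t2

end Cfg

lemma ev_add_le {a b : ℝ} (h : a < b) : ∀ᶠ t in 𝓝[>] (0 : ℝ), a + t ≤ b := by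
  filter_upwards [ev_le 1 (sub_pos.2 h)] with t ht using by linarith

/-- The configuration with explicit constants. -/
lemma exists_cfg {ι : Type} [Fintype ι] (c : ι → ℂ) (r : ι → ℝ) (p : ℂ) (hr : ∀ i, 0 < r i)
    (hsep : ∀ i j, i ≠ j → r i + r j < ‖c j - c i‖) (hp : ∀ i, r i < ‖c i - p‖) :
    ∃ K : Cfg ι, K.c = c ∧ K.r = r ∧ K.Flight ∧ K.Chart p K.τ := by
  obtain ⟨t, ⟨⟨⟨⟨t1, t2⟩, t3⟩, t4⟩, t0⟩⟩ : ∃ t : ℝ, ((((∀ i j, i ≠ j → r i + r j + t ≤ ‖c j - c i‖) ∧
      ∀ i, r i + t ≤ ‖c i - p‖) ∧ ∀ i, 0 + t ≤ r i) ∧ 0 + t ≤ 1) ∧ t ∈ Ioi 0 := by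
    refine (((((eventually_all.2 fun i => eventually_all.2 fun j => ?_).and
      (eventually_all.2 fun i => ev_add_le (hp i))).and
      (eventually_all.2 fun i => ev_add_le (hr i))).and (ev_add_le one_pos)).and
      self_mem_nhdsWithin).exists
    by_cases h : i = j
    · exact Eventually.of_forall fun _ h' => absurd h h'
    · exact (ev_add_le (hsep i j h)).mono fun _ h' _ => h'
  have t0 : 0 < t := t0
  obtain ⟨A, ⟨A1, A2⟩, A3⟩ : ∃ A : ℝ, (1 ≤ A ∧ ∀ i j, 2 * (‖c j - c i‖ + r i + t) ≤ A) ∧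
      ∀ i, 2 * ‖c i - p‖ ≤ A :=
    (((eventually_ge_atTop 1).and (eventually_all.2 fun i => eventually_all.2 fun j =>
      eventually_ge_atTop _)).and (eventually_all.2 fun i => eventually_ge_atTop _)).exists
  obtain ⟨τ, ⟨τ1, τ2⟩, τ0⟩ := (((ev_le (4 * A + 4) (pow_pos (half_pos t0) 2)).and
    (ev_le 4 t0)).and self_mem_nhdsWithin).exists
  have τ0 : 0 < τ := τ0
  have rA : ∀ i, r i ≤ A := fun i => by linarith [A2 i i, norm_nonneg (c i - c i), hr i]
  refine ⟨⟨c, r, τ, A, τ0, by linarith, A1, fun i => by linarith [t3 i], rA,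
    fun i j h => by linarith [t1 i j h], fun i j => by linarith [A2 i j, hr i]⟩, rfl, rfl,
    ⟨t / 2, t, half_pos t0, half_lt_self t0, t1, fun i w w1 w2 => ⟨τ0, ?_, fun l => ⟨?_, ?_⟩⟩⟩,
    τ0, ?_, fun l => ⟨A3 l, ?_⟩⟩
  · change τ ≤ A; linarith
  · change 2 * ‖c l - (c i + w)‖ ≤ A
    change ‖w‖ ≤ r i + t / 2 at w2
    have := norm_sub_le (c l - c i) w
    rw [sub_sub] at this
    linarith [A2 i l]
  · change τ + r l + τ ≤ ‖c l - (c i + w)‖
    change ‖w‖ ≤ r i + t / 2 at w2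
    change r i ^ 2 + (t / 2) ^ 2 ≤ ‖w‖ ^ 2 at w1
    by_cases h : i = l
    · subst h
      rw [sub_add_cancel_left, norm_neg]
      refine (abs_le_of_sq_le_sq' ?_ (norm_nonneg w)).2
      nlinarith [rA i, hr i]
    · have := norm_sub_norm_le (c l - c i) w
      rw [sub_sub] at this
      linarith [t1 i l h]
  · change τ ≤ A; linarith
  · change τ + r l + τ ≤ ‖c l - p‖
    linarith [t2 l]

/-- The identification of the Euclidean plane with the complex numbers. -/
def toC (x : EuclideanSpace ℝ (Fin 2)) : ℂ := ⟨x 0, x 1⟩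

lemma dist_toC (x y : EuclideanSpace ℝ (Fin 2)) : dist x y = ‖toC x - toC y‖ := by
  rw [EuclideanSpace.dist_eq, Complex.norm_eq_sqrt_sq_add_sq]
  simp [toC, Real.dist_eq]

lemma toC_add_smul (x y : EuclideanSpace ℝ (Fin 2)) (t : ℝ) :
    toC (x + t • y) = toC x + t * toC y := by
  apply Complex.ext <;> simp [toC]

lemma toC_sub_smul (x y : EuclideanSpace ℝ (Fin 2)) (t : ℝ) :
    toC (x - t • y) = toC x - t * toC y := by
  apply Complex.ext <;> simp [toC]

lemma toC_sub (x y : EuclideanSpace ℝ (Fin 2)) : toC (x - y) = toC x - toC y := by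
  apply Complex.ext <;> simp [toC]

lemma inner_toC (x y : EuclideanSpace ℝ (Fin 2)) :
    inner ℝ x y = (toC x).re * (toC y).re + (toC x).im * (toC y).im := by
  simp [toC, PiLp.inner_apply, mul_comm]

theorem no_trap (k : ℕ) (c : Fin k → EuclideanSpace ℝ (Fin 2)) (r : Fin k → ℝ)
    (p : EuclideanSpace ℝ (Fin 2)) (hr : ∀ i, 0 < r i)
    (hsep : ∀ i j, i ≠ j → r i + r j < dist (c i) (c j)) (hp : ∀ i, r i < dist p (c i))
    (h : ∀ v : EuclideanSpace ℝ (Fin 2), v ≠ 0 →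
        ∃ (q : ℕ → EuclideanSpace ℝ (Fin 2)) (d : ℕ → EuclideanSpace ℝ (Fin 2)),
          q 0 = p ∧ d 0 = v ∧
          ∀ n : ℕ, ∃ i : Fin k, ∃ t : ℝ, 0 < t ∧
            q (n + 1) = q n + t • d n ∧
            dist (q (n + 1)) (c i) = r i ∧
            (∀ s : ℝ, 0 < s → s < t → ∀ j : Fin k,
              r j < dist (q n + s • d n) (c j)) ∧
            d (n + 1) = d n - (2 * inner ℝ (d n) (q (n + 1) - c i) / r i ^ 2) • (q (n + 1) - c i)) :
    False := by
  obtain ⟨K, h1, h2, hF, hC⟩ := exists_cfg (fun i => toC (c i)) r (toC p) hr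
    (fun i j hij => by rw [← dist_toC, dist_comm]; exact hsep i j hij)
    (fun i => by rw [← dist_toC, dist_comm]; exact hp i)
  obtain ⟨φ, ω, hω⟩ := Cfg.escape hF hC
  obtain ⟨q, d, a1, a2, a3⟩ := h !₂[cos φ, sin φ] (fun e => by
    have b0 : cos φ = 0 := by simpa using congrArg (fun v : EuclideanSpace ℝ (Fin 2) => v 0) e
    have b1 : sin φ = 0 := by simpa using congrArg (fun v : EuclideanSpace ℝ (Fin 2) => v 1) e
    have := sin_sq_add_cos_sq φ
    rw [b0, b1] at this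
    norm_num at this)
  refine Cfg.not_esc (K := K) (Q := fun n => toC (q n)) (D := fun n => toC (d n)) (fun n => ?_)
    ω 0 hC.adm (z := (φ, 0)) (by simpa using K.τ_pos.le) le_rfl (hh_nonneg _ _) ?_ ?_ hω
  · obtain ⟨i, t, b1, b2, b3, b4, b5⟩ := a3 n
    rw [h1, h2]
    refine ⟨i, t, b1, ?_, ?_, fun s s0 s1 j => ?_, ?_⟩
    · rw [← toC_add_smul, ← b2]
    · rw [← dist_toC, b3]
    · rw [← toC_add_smul, ← dist_toC]; exact b4 s s0 s1 j
    · rw [← toC_sub, ← inner_toC, ← toC_sub_smul, ← b5]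
  · rw [a2]; apply Complex.ext <;> simp [toC, pt]
  · rw [a1]; apply Complex.ext <;> simp [pt]

end Pool.Agent.Lib.MP_ab57f0_an
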