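import Pool.Agent.Lib.MP_ab57f0_an.Defs

/-! Elementary geometry of the reflection dynamics. -/

set_option autoImplicit false

namespace Pool.Agent.Lib.MP_ab57f0_an

open Real Set MeasureTheory Filter Topology

namespace Cfg

variable {ι : Type} (K : Cfg ι)

lemma r_pos (i : ι) : 0 < K.r i := K.τ_pos.trans_le (K.τ_le_r i)

lemma A_pos : 0 < K.A := zero_lt_one.trans_le K.one_le

lemma adm_c (i : ι) : K.Adm (K.c i) (K.r i) := by
  refine ⟨K.r_pos i, K.r_le i, fun l => ⟨K.bdd i l, ?_⟩⟩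
  by_cases h : i = l
  · left; rw [h]
  · right; exact K.sep i l h

variable {K}

lemma Chart.adm {P : ℂ} {ρ : ℝ} (h : K.Chart P ρ) : K.Adm P ρ :=
  ⟨h.1, h.2.1, fun l => ⟨(h.2.2 l).1, Or.inr (h.2.2 l).2⟩⟩

lemma e_sq_add (P : ℂ) (z : ℝ × ℝ) (l : ι) :
    K.e P z l ^ 2 + (K.b P z l - z.2) ^ 2 = ‖K.c l - P‖ ^ 2 := by
  have := ee_sq_add_ss_sq (K.c l - P) z.1
  simp only [e, b, add_sub_cancel_left]
  exact this

lemma e_self (z : ℝ × ℝ) (l : ι) : K.e (K.c l) z l = 0 := by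
  simp [e, ee_zero]

lemma b_self (z : ℝ × ℝ) (l : ι) : K.b (K.c l) z l = z.2 := by
  simp [b, ss_zero]

lemma gap_gen {P : ℂ} {ρ ρ' t : ℝ} {z : ℝ × ℝ} {l : ι} (ht : 0 < t) (hz : |z.2| ≤ ρ)
    (hb : |K.b P z l| ≤ ρ') (h : ρ + ρ' + t ≤ ‖K.c l - P‖) :
    hh ρ z.2 + hh ρ' (K.b P z l) + t ≤ |K.e P z l| := by
  apply gap_abs ht hz hb
  rw [e_sq_add]
  have h0 : 0 ≤ ρ := (abs_nonneg _).trans hz
  have h1 : 0 ≤ ρ' := (abs_nonneg _).trans hb
  exact pow_le_pow_left₀ (by linarith) h 2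

lemma Adm.sep_of_pos {P : ℂ} {ρ : ℝ} (hP : K.Adm P ρ) {z : ℝ × ℝ} {l : ι}
    (he : K.e P z l ≠ 0) : ρ + K.r l + K.τ ≤ ‖K.c l - P‖ := by
  rcases (hP.2.2 l).2 with h | h
  · exact absurd (by rw [h]; exact e_self z l) he
  · exact h

lemma Adm.gap {P : ℂ} {ρ : ℝ} (hP : K.Adm P ρ) {z : ℝ × ℝ} (hz : |z.2| ≤ ρ) {l : ι}
    (h : K.Ahead P z l) : hh ρ z.2 + hh (K.r l) (K.b P z l) + K.τ ≤ K.e P z l := by
  have := gap_gen K.τ_pos hz h.1 (hP.sep_of_pos h.2.ne')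
  rwa [abs_of_pos h.2] at this

lemma Adm.gap_near {P : ℂ} {ρ : ℝ} (hP : K.Adm P ρ) {z : ℝ × ℝ} (hz : |z.2| ≤ ρ) {l : ι}
    (he : 0 < K.e P z l) (hb : |K.b P z l| ≤ K.r l + K.τ / 2) :
    hh ρ z.2 + K.τ / 2 ≤ K.e P z l := by
  have h := hP.sep_of_pos he.ne'
  have := gap_gen (t := K.τ / 2) (half_pos K.τ_pos) hz hb (by linarith)
  rw [abs_of_pos he] at this
  linarith [hh_nonneg (K.r l + K.τ / 2) (K.b P z l)]

lemma Adm.abs_e_le {P : ℂ} {ρ : ℝ} (hP : K.Adm P ρ) (z : ℝ × ℝ) (l : ι) :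
    |K.e P z l| ≤ K.A := by
  have := abs_ee_le (K.c l - P) z.1
  have h2 := (hP.2.2 l).1
  have := norm_nonneg (K.c l - P)
  unfold e; linarith

lemma Adm.abs_e_sub {P : ℂ} {ρ : ℝ} (hP : K.Adm P ρ) (z z' : ℝ × ℝ) (l : ι) :
    |K.e P z l - K.e P z' l| ≤ K.A * |z.1 - z'.1| := by
  refine (abs_ee_sub_le _ _ _).trans ?_
  exact mul_le_mul_of_nonneg_right (hP.2.2 l).1 (abs_nonneg _)

lemma Adm.abs_ss_sub {P : ℂ} {ρ : ℝ} (hP : K.Adm P ρ) (φ φ' : ℝ) (l : ι) :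
    |ss (K.c l - P) φ - ss (K.c l - P) φ'| ≤ K.A * |φ - φ'| := by
  refine (abs_ss_sub_le _ _ _).trans ?_
  exact mul_le_mul_of_nonneg_right (hP.2.2 l).1 (abs_nonneg _)

lemma Adm.abs_b_sub {P : ℂ} {ρ : ℝ} (hP : K.Adm P ρ) (z z' : ℝ × ℝ) (l : ι) :
    |K.b P z l - K.b P z' l| ≤ |z.2 - z'.2| + K.A * |z.1 - z'.1| := by
  have h := hP.abs_ss_sub z.1 z'.1 l
  have e : K.b P z l - K.b P z' l
      = (z.2 - z'.2) + (ss (K.c l - P) z.1 - ss (K.c l - P) z'.1) := by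
    unfold b; ring
  rw [e]
  exact (abs_add_le _ _).trans (by linarith)

lemma e_rebase (P P' : ℂ) (z z' : ℝ × ℝ) (h : z'.1 = z.1) (l : ι) :
    K.e P' z' l = K.e P z l - ee (P' - P) z.1 := by
  unfold e
  rw [h, ← ee_sub]; congr 1; ring

lemma b_rebase (P P' : ℂ) (z z' : ℝ × ℝ) (h : z'.1 = z.1) (h2 : z'.2 = z.2 + ss (P' - P) z.1)
    (l : ι) : K.b P' z' l = K.b P z l := by
  unfold b
  rw [h, h2, add_assoc]; congr 1
  have := ss_sub (K.c l - P) (P' - P) z.1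
  have e : K.c l - P - (P' - P) = K.c l - P' := by ring
  rw [e] at this; linarith

/-- Two different disks met by a line have well separated feet. -/
lemma gap_two (P : ℂ) (z : ℝ × ℝ) {k l : ι} (hkl : k ≠ l) (hk : |K.b P z k| ≤ K.r k)
    (hl : |K.b P z l| ≤ K.r l) :
    hh (K.r k) (K.b P z k) + hh (K.r l) (K.b P z l) + K.τ ≤ |K.e P z l - K.e P z k| := by
  have hb : K.b (K.c k) (z.1, K.b P z k) l = K.b P z l :=
    b_rebase P (K.c k) z (z.1, K.b P z k) rfl rfl l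
  have he : K.e (K.c k) (z.1, K.b P z k) l = K.e P z l - K.e P z k :=
    e_rebase P (K.c k) z (z.1, K.b P z k) rfl l
  have := gap_gen (P := K.c k) (z := (z.1, K.b P z k)) (l := l) K.τ_pos hk (hb ▸ hl)
    (K.sep k l hkl)
  rwa [hb, he] at this

lemma gap_two' (P : ℂ) (z : ℝ × ℝ) {k l : ι} (hkl : k ≠ l) (hk : |K.b P z k| ≤ K.r k)
    (hl : |K.b P z l| ≤ K.r l) : K.τ ≤ |K.e P z l - K.e P z k| := by
  have := gap_two P z hkl hk hl
  linarith [hh_nonneg (K.r k) (K.b P z k), hh_nonneg (K.r l) (K.b P z l)]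

lemma Next.unique {P : ℂ} {z : ℝ × ℝ} {k l : ι} (hk : K.Next P z k) (hl : K.Next P z l) :
    k = l := by
  by_contra h
  have := gap_two' P z h hk.1.1 hl.1.1
  have h1 := hk.2 l hl.1
  have h2 := hl.2 k hk.1
  have h3 : K.e P z l - K.e P z k = 0 := by linarith
  rw [h3, abs_zero] at this
  linarith [K.τ_pos]

lemma exists_next [Finite ι] {P : ℂ} {z : ℝ × ℝ} {l : ι} (h : K.Ahead P z l) :
    ∃ k, K.Next P z k := by
  obtain ⟨k, hk, hmin⟩ := Set.exists_min_image {l | K.Ahead P z l} (K.e P z) (Set.toFinite _)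
    ⟨l, h⟩
  exact ⟨k, hk, hmin⟩

lemma inc_step (P : ℂ) (k : ι) (z : ℝ × ℝ) : K.inc k (K.step P k z) = z.1 := by
  simp only [inc, step]; ring

lemma unstep_step (P : ℂ) (k : ι) (z : ℝ × ℝ) : K.unstep P k (K.step P k z) = z := by
  unfold unstep
  rw [inc_step]
  ext
  · rfl
  · simp only [step, b]; ring

lemma b_unstep (P : ℂ) (k : ι) (z : ℝ × ℝ) : K.b P (K.unstep P k z) k = z.2 := by
  simp only [unstep, b]; ring

lemma step_unstep (P : ℂ) (k : ι) (z : ℝ × ℝ) : K.step P k (K.unstep P k z) = z := by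
  unfold step
  rw [b_unstep]
  ext
  · simp only [unstep, inc]; ring
  · rfl

lemma back_fwd : ∀ (ω : List ι) (P : ℂ) (z : ℝ × ℝ), K.back P ω (K.fwd P ω z) = z
  | [], _, _ => rfl
  | k :: ω, P, z => by simp only [back, fwd, back_fwd ω, unstep_step]

lemma fwd_back : ∀ (ω : List ι) (P : ℂ) (z : ℝ × ℝ), K.fwd P ω (K.back P ω z) = z
  | [], _, _ => rfl
  | k :: ω, P, z => by simp only [back, fwd, step_unstep, fwd_back ω]

lemma continuous_e (P : ℂ) (l : ι) : Continuous fun z : ℝ × ℝ => K.e P z l :=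
  (continuous_ee _).comp continuous_fst

lemma continuous_b (P : ℂ) (l : ι) : Continuous fun z : ℝ × ℝ => K.b P z l :=
  continuous_snd.add ((continuous_ss _).comp continuous_fst)

lemma continuous_step (P : ℂ) (k : ι) : Continuous (K.step P k) := by
  unfold step
  refine Continuous.prodMk ?_ (continuous_b P k)
  exact (continuous_fst.add continuous_const).sub
    (continuous_const.mul (continuous_arcsin.comp ((continuous_b P k).div_const _)))

lemma continuous_inc (k : ι) : Continuous (K.inc k) := by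
  unfold inc
  exact (continuous_fst.sub continuous_const).add
    (continuous_const.mul (continuous_arcsin.comp (continuous_snd.div_const _)))

lemma continuous_unstep (P : ℂ) (k : ι) : Continuous (K.unstep P k) := by
  unfold unstep
  exact (continuous_inc k).prodMk (continuous_snd.sub ((continuous_ss _).comp (continuous_inc k)))

lemma continuous_fwd : ∀ (ω : List ι) (P : ℂ), Continuous (K.fwd P ω)
  | [], _ => continuous_id
  | k :: ω, P => (continuous_fwd ω (K.c k)).comp (continuous_step P k)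

lemma continuous_back : ∀ (ω : List ι) (P : ℂ), Continuous (K.back P ω)
  | [], _ => continuous_id
  | k :: ω, P => (continuous_unstep P k).comp (continuous_back ω (K.c k))

lemma continuous_iota (k : ι) : Continuous (K.iota k) := by
  unfold iota
  exact (continuous_fst.add
    (continuous_const.mul (continuous_arcsin.comp (continuous_snd.div_const _)))).prodMk
    continuous_snd.neg

lemma iota_iota (k : ι) (z : ℝ × ℝ) : K.iota k (K.iota k z) = z := by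
  ext
  · simp only [iota, neg_div, arcsin_neg]; ring
  · simp only [iota, neg_neg]

/-- Perturbation: the next disk does not change. -/
lemma Next.perturb {P : ℂ} {ρ m : ℝ} (hP : K.Adm P ρ) {z z' : ℝ × ℝ} {k : ι}
    (hz : |z.2| ≤ ρ) (hz' : |z'.2| ≤ ρ) (hk : K.Next P z k) (hm : z ∉ K.NM m P)
    (h1 : |z.2 - z'.2| + K.A * |z.1 - z'.1| < m) (h2 : 2 * K.A * |z.1 - z'.1| < K.τ) :
    K.Next P z' k ∧ |K.b P z' k| < K.r k := by
  have hA := K.A_pos
  have hbk : |K.b P z k| ≤ K.r k - m := by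
    by_contra hc
    push Not at hc
    refine hm ⟨k, hk.1.2, ?_, hk.2⟩
    rw [abs_lt]; constructor <;> linarith [hk.1.1]
  have hb : ∀ l, |K.b P z l - K.b P z' l| < m := fun l => (hP.abs_b_sub z z' l).trans_lt h1
  have he : ∀ l, |K.e P z l - K.e P z' l| < K.τ / 2 := fun l =>
    (hP.abs_e_sub z z' l).trans_lt (by linarith)
  have hbk' : |K.b P z' k| < K.r k := by
    have := abs_sub_abs_le_abs_sub (K.b P z' k) (K.b P z k)
    rw [abs_sub_comm] at this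
    linarith [hb k]
  have hek := hP.gap hz hk.1
  have n1 := hh_nonneg ρ z.2
  have n2 := hh_nonneg (K.r k) (K.b P z k)
  have hek' : 0 < K.e P z' k := by
    have := (abs_lt.1 (he k)).2
    linarith [K.τ_pos]
  refine ⟨⟨⟨hbk'.le, hek'⟩, fun l hl => ?_⟩, hbk'⟩
  by_cases hkl : k = l
  · rw [hkl]
  have hel' := hP.gap hz' hl
  have n3 := hh_nonneg ρ z'.2
  have n4 := hh_nonneg (K.r l) (K.b P z' l)
  have hel : 0 < K.e P z l := by
    have := (abs_lt.1 (he l)).1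
    linarith [K.τ_pos]
  have hle : K.e P z k ≤ K.e P z l := by
    by_cases hc : |K.b P z l| ≤ K.r l
    · exact hk.2 l ⟨hc, hel⟩
    · push Not at hc
      by_contra hlt
      push Not at hlt
      refine hm ⟨l, hel, ?_, fun k' hk' => (hlt.le.trans (hk.2 k' hk'))⟩
      have := abs_sub_abs_le_abs_sub (K.b P z l) (K.b P z' l)
      rw [abs_lt]; constructor <;> linarith [hb l, hl.1]
  have hg := gap_two' P z' hkl hbk'.le hl.1
  have a1 := abs_lt.1 (he k)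
  have a2 := abs_lt.1 (he l)
  rcases le_abs.1 hg with h | h
  · linarith [K.τ_pos]
  · linarith

lemma NM_le_of_next {P : ℂ} {m : ℝ} {z : ℝ × ℝ} {k : ι} (hk : K.Next P z k)
    (hm : z ∉ K.NM m P) : |K.b P z k| ≤ K.r k - m := by
  by_contra hc
  push Not at hc
  refine hm ⟨k, hk.1.2, ?_, hk.2⟩
  rw [abs_lt]; constructor <;> linarith [hk.1.1]

/-- Perturbation: still no disk ahead. -/
lemma free_perturb {P : ℂ} {ρ m : ℝ} (hP : K.Adm P ρ) {z z' : ℝ × ℝ}
    (hz' : |z'.2| ≤ ρ) (hk : ∀ l, ¬ K.Ahead P z l) (hm : z ∉ K.NM m P)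
    (h1 : |z.2 - z'.2| + K.A * |z.1 - z'.1| < m) (h2 : 2 * K.A * |z.1 - z'.1| < K.τ) :
    ∀ l, ¬ K.Ahead P z' l := by
  intro l hl
  have hA := K.A_pos
  have hb : |K.b P z l - K.b P z' l| < m := (hP.abs_b_sub z z' l).trans_lt h1
  have he : |K.e P z l - K.e P z' l| < K.τ / 2 := (hP.abs_e_sub z z' l).trans_lt (by linarith)
  have hel' := hP.gap hz' hl
  have n3 := hh_nonneg ρ z'.2
  have n4 := hh_nonneg (K.r l) (K.b P z' l)
  have hel : 0 < K.e P z l := by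
    have := (abs_lt.1 he).1
    linarith [K.τ_pos]
  by_cases hc : |K.b P z l| ≤ K.r l
  · exact hk l ⟨hc, hel⟩
  · push Not at hc
    refine hm ⟨l, hel, ?_, fun k' hk' => absurd hk' (hk k')⟩
    have := abs_sub_abs_le_abs_sub (K.b P z l) (K.b P z' l)
    rw [abs_lt]; constructor <;> linarith [hl.1]

lemma NM_mono {η η' : ℝ} (h : η ≤ η') (P : ℂ) : K.NM η P ⊆ K.NM η' P :=
  fun _ ⟨l, h1, h2, h3⟩ => ⟨l, h1, h2.trans_le h, h3⟩

lemma NM_subset_Near (η : ℝ) (P : ℂ) : K.NM η P ⊆ K.Near η P :=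
  fun _ ⟨l, h1, h2, _⟩ => ⟨l, h1, h2⟩

lemma Lev_mono {N N' : ℂ → Set (ℝ × ℝ)} (h : ∀ P, N P ⊆ N' P) :
    ∀ (j : ℕ) (P : ℂ), K.Lev N j P ⊆ K.Lev N' j P
  | 0, P => h P
  | j + 1, _ => fun _ ⟨k, h1, h2⟩ => ⟨k, h1, Lev_mono h j _ h2⟩

/-- Away from a tangency there is a uniform margin in a neighbourhood. -/
lemma exists_margin [Finite ι] {P : ℂ} {ρ : ℝ} (hP : K.Adm P ρ) {z : ℝ × ℝ} (hz : |z.2| ≤ ρ)
    (hreg : ∀ k, K.Next P z k → |K.b P z k| < K.r k) :
    ∃ m > 0, ∀ᶠ z' in 𝓝 z, z' ∉ K.NM m P := by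
  have key : ∀ l, ∃ m > 0, ∀ᶠ z' in 𝓝 z, ¬ (0 < K.e P z' l ∧ abs (|K.b P z' l| - K.r l) < m ∧
      ∀ k, K.Ahead P z' k → K.e P z' l ≤ K.e P z' k) := by
    intro l
    by_cases h1 : |K.b P z l| = K.r l
    · refine ⟨1, one_pos, ?_⟩
      rcases (hP.2.2 l).2 with hc | hc
      · refine Eventually.of_forall fun z' h => ?_
        have := h.1
        rw [hc, e_self] at this
        exact lt_irrefl _ this
      have hg := gap_gen K.τ_pos hz h1.le hc
      have n1 := hh_nonneg ρ z.2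
      have n2 := hh_nonneg (K.r l) (K.b P z l)
      have hτ := K.τ_pos
      rcases lt_trichotomy (K.e P z l) 0 with h | h | h
      · filter_upwards [(continuous_e P l).continuousAt.eventually_lt continuousAt_const h]
          with z' hz' h'
        linarith [h'.1]
      · rw [h, abs_zero] at hg; linarith
      · obtain ⟨k, hk⟩ := exists_next (K := K) (P := P) (z := z) ⟨h1.le, h⟩
        have hk1 := hreg k hk
        have hkl : k ≠ l := by
          intro e; rw [e] at hk1; linarith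
        have hlt : K.e P z k < K.e P z l := by
          have := gap_two' P z hkl hk.1.1 h1.le
          have h3 := hk.2 l ⟨h1.le, h⟩
          rw [abs_of_nonneg (by linarith)] at this
          linarith
        filter_upwards [(continuous_e P k).continuousAt.eventually_lt
          (continuous_e P l).continuousAt hlt,
          continuousAt_const.eventually_lt (continuous_e P k).continuousAt hk.1.2,
          (continuous_b P k).abs.continuousAt.eventually_lt continuousAt_const hk1]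
          with z' a1 a2 a3 h'
        have := h'.2.2 k ⟨a3.le, a2⟩
        linarith
    · have hpos : 0 < abs (|K.b P z l| - K.r l) := abs_pos.2 (sub_ne_zero.2 h1)
      refine ⟨abs (|K.b P z l| - K.r l) / 2, half_pos hpos, ?_⟩
      have hc : Continuous fun z' : ℝ × ℝ => abs (|K.b P z' l| - K.r l) :=
        ((continuous_b P l).abs.sub continuous_const).abs
      filter_upwards [continuousAt_const.eventually_lt hc.continuousAt (half_lt_self hpos)]
        with z' a1 h'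
      linarith [h'.2.1]
  choose m hm hev using key
  rcases isEmpty_or_nonempty ι with hι | hι
  · exact ⟨1, one_pos, Eventually.of_forall fun z' ⟨l, _⟩ => hι.elim l⟩
  obtain ⟨l₀, hl₀⟩ := Finite.exists_min m
  refine ⟨m l₀, hm l₀, ?_⟩
  filter_upwards [eventually_all.2 hev] with z' h ⟨l, h1, h2, h3⟩
  exact h l ⟨h1, h2.trans_le (hl₀ l), h3⟩

lemma eventually_close {m t : ℝ} (hm : 0 < m) (ht : 0 < t) (z : ℝ × ℝ) :
    ∀ᶠ z' : ℝ × ℝ in 𝓝 z, |z.2 - z'.2| + K.A * |z.1 - z'.1| < m ∧ 2 * K.A * |z.1 - z'.1| < t := by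
  have c1 : Continuous fun z' : ℝ × ℝ => |z.2 - z'.2| + K.A * |z.1 - z'.1| := by fun_prop
  have c2 : Continuous fun z' : ℝ × ℝ => 2 * K.A * |z.1 - z'.1| := by fun_prop
  refine (c1.continuousAt.eventually_lt continuousAt_const ?_).and
    (c2.continuousAt.eventually_lt continuousAt_const ?_)
  · simpa using hm
  · simpa using ht

lemma eventually_abs_lt {ρ : ℝ} {z : ℝ × ℝ} (hz : |z.2| < ρ) :
    ∀ᶠ z' : ℝ × ℝ in 𝓝 z, |z'.2| < ρ :=
  continuous_snd.abs.continuousAt.eventually_lt continuousAt_const hz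

lemma Next.eventually [Finite ι] {P : ℂ} {ρ : ℝ} (hP : K.Adm P ρ) {z : ℝ × ℝ} (hz : |z.2| < ρ)
    {k : ι} (hk : K.Next P z k) (hb : |K.b P z k| < K.r k) :
    ∀ᶠ z' in 𝓝 z, K.Next P z' k ∧ |K.b P z' k| < K.r k := by
  obtain ⟨m, hm, hev⟩ := exists_margin hP hz.le (fun k' hk' => by rw [hk'.unique hk]; exact hb)
  filter_upwards [eventually_close (K := K) hm K.τ_pos z, eventually_abs_lt hz] with z' h1 h2
  exact hk.perturb hP hz.le h2.le hev.self_of_nhds h1.1 h1.2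

lemma EscR.eventually [Finite ι] : ∀ (ω : List ι) {P : ℂ} {ρ : ℝ}, K.Adm P ρ →
    ∀ {z : ℝ × ℝ}, |z.2| < ρ → K.EscR P ω z → ∀ᶠ z' in 𝓝 z, K.EscR P ω z'
  | [], P, ρ, hP, z, hz, h => by
    obtain ⟨m, hm, hev⟩ := exists_margin hP hz.le (fun k hk => absurd hk.1 (h k))
    filter_upwards [eventually_close (K := K) hm K.τ_pos z, eventually_abs_lt hz] with z' h1 h2
    exact free_perturb hP h2.le h hev.self_of_nhds h1.1 h1.2
  | k :: ω, P, ρ, hP, z, hz, h => by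
    have h2 := EscR.eventually ω (K.adm_c k) (z := K.step P k z) h.2.1 h.2.2
    filter_upwards [h.1.eventually hP hz h.2.1,
      (continuous_step P k).continuousAt.eventually h2] with z' a1 a2
    exact ⟨a1.1, a1.2, a2⟩

lemma EE_mem_nhds [Finite ι] {P : ℂ} {ρ : ℝ} (hP : K.Adm P ρ) {z : ℝ × ℝ} (hz : |z.2| < ρ)
    (h : z ∈ K.EE P) : K.EE P ∈ 𝓝 z := by
  obtain ⟨ω, hω⟩ := h
  filter_upwards [EscR.eventually ω hP hz hω] with z' h' using ⟨ω, h'⟩

/-- Low order singularities stay away from a regular orbit segment. -/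
lemma RegN.margin [Finite ι] : ∀ (n : ℕ) {P : ℂ} {ρ : ℝ}, K.Adm P ρ →
    ∀ {z : ℝ × ℝ}, |z.2| < ρ → K.RegN n P z →
      ∃ m > 0, ∀ᶠ z' in 𝓝 z, ∀ j < n, z' ∉ K.Lev (K.NM m) j P
  | 0, _, _, _, _, _, _ => ⟨1, one_pos, Eventually.of_forall fun _ _ h => absurd h (by omega)⟩
  | n + 1, P, ρ, hP, z, hz, ⟨k, h1, h2, h3⟩ => by
    obtain ⟨m, hm, hev⟩ := exists_margin hP hz.le (fun k' hk' => by rw [hk'.unique h1]; exact h2)
    obtain ⟨m', hm', hev'⟩ := RegN.margin n (K.adm_c k) (z := K.step P k z) h2 h3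
    refine ⟨min m m', lt_min hm hm', ?_⟩
    filter_upwards [hev, h1.eventually hP hz h2,
      (continuous_step P k).continuousAt.eventually hev'] with z' a1 a2 a3 j hj hmem
    rcases j with _ | j
    · exact a1 (NM_mono (min_le_left _ _) P hmem)
    · obtain ⟨k', b1, b2⟩ := hmem
      rw [b1.unique a2.1] at b2
      exact a3 j (by omega) (Lev_mono (fun P => NM_mono (min_le_right _ _) P) j _ b2)

lemma EscR.esc : ∀ (ω : List ι) {P : ℂ} {z : ℝ × ℝ}, K.EscR P ω z → K.Esc P ω z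
  | [], _, _, h => h
  | _ :: ω, _, _, h => ⟨h.1, EscR.esc ω h.2.2⟩

lemma EE_subset_EP (P : ℂ) : K.EE P ⊆ K.EP P := fun _ ⟨ω, h⟩ => ⟨ω, EscR.esc ω h⟩

lemma Esc.unique : ∀ (ω ω' : List ι) {P : ℂ} {z : ℝ × ℝ}, K.Esc P ω z → K.Esc P ω' z → ω = ω'
  | [], [], _, _, _, _ => rfl
  | [], k :: _, _, _, h, h' => absurd h'.1.1 (h k)
  | k :: _, [], _, _, h, h' => absurd h.1.1 (h' k)
  | k :: ω, k' :: ω', _, _, h, h' => by
    obtain rfl := h.1.unique h'.1
    rw [Esc.unique ω ω' h.2 h'.2]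

lemma mem_EP_iff {P : ℂ} {z : ℝ × ℝ} {k : ι} (hk : K.Next P z k) :
    z ∈ K.EP P ↔ K.step P k z ∈ K.EP (K.c k) := by
  constructor
  · rintro ⟨ω, h⟩
    rcases ω with _ | ⟨k', ω⟩
    · exact absurd hk.1 (h k)
    · obtain rfl := hk.unique h.1
      exact ⟨ω, h.2⟩
  · rintro ⟨ω, h⟩
    exact ⟨k :: ω, hk, h⟩

lemma mem_EE_iff {P : ℂ} {z : ℝ × ℝ} {k : ι} (hk : K.Next P z k) (hb : |K.b P z k| < K.r k) :
    z ∈ K.EE P ↔ K.step P k z ∈ K.EE (K.c k) := by
  constructor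
  · rintro ⟨ω, h⟩
    rcases ω with _ | ⟨k', ω⟩
    · exact absurd hk.1 (h k)
    · obtain rfl := hk.unique h.1
      exact ⟨ω, h.2.2⟩
  · rintro ⟨ω, h⟩
    exact ⟨k :: ω, hk, hb, h⟩

lemma next_of_not_EP [Finite ι] {P : ℂ} {z : ℝ × ℝ} (h : z ∉ K.EP P) :
    ∃ k, K.Next P z k ∧ K.step P k z ∉ K.EP (K.c k) := by
  have : ¬ ∀ l, ¬ K.Ahead P z l := fun h' => h ⟨[], h'⟩
  push Not at this
  obtain ⟨l, hl⟩ := this
  obtain ⟨k, hk⟩ := exists_next hl
  exact ⟨k, hk, fun h' => h ((mem_EP_iff hk).2 h')⟩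

/-- Trichotomy: escape regularly, be regular for `n` steps, or meet a tangency. -/
lemma trichotomy [Finite ι] : ∀ (n : ℕ) (P : ℂ) (z : ℝ × ℝ),
    z ∈ K.EE P ∨ K.RegN n P z ∨ ∃ ω k, K.TanAt P ω k z
  | 0, _, _ => Or.inr (Or.inl trivial)
  | n + 1, P, z => by
    by_cases h : ∀ l, ¬ K.Ahead P z l
    · exact Or.inl ⟨[], h⟩
    push Not at h
    obtain ⟨l, hl⟩ := h
    obtain ⟨k, hk⟩ := exists_next hl
    rcases hk.1.1.lt_or_eq with hb | hb
    · rcases trichotomy n (K.c k) (K.step P k z) with h | h | ⟨ω, k', h⟩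
      · exact Or.inl ((mem_EE_iff hk hb).2 h)
      · exact Or.inr (Or.inl ⟨k, hk, hb, h⟩)
      · exact Or.inr (Or.inr ⟨k :: ω, k', hk, hb, h⟩)
    · exact Or.inr (Or.inr ⟨[], k, hk, hb⟩)

lemma RegN.mono : ∀ {n n' : ℕ}, n' ≤ n → ∀ {P : ℂ} {z : ℝ × ℝ}, K.RegN n P z → K.RegN n' P z
  | _, 0, _, _, _, _ => trivial
  | 0, _ + 1, h, _, _, _ => absurd h (by omega)
  | _ + 1, _ + 1, h, _, _, ⟨k, h1, h2, h3⟩ => ⟨k, h1, h2, RegN.mono (by omega) h3⟩

end Cfg

end Pool.Agent.Lib.MP_ab57f0_an
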