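import Pool.Agent.Lib.MP_ab57f0_an.Local

/-! From local to global density of escaping states. -/

set_option autoImplicit false

namespace Pool.Agent.Lib.MP_ab57f0_an

open Real Set MeasureTheory Filter Topology
open scoped ENNReal

/-- `z` is not on the boundary of the closure of `S`. -/
def Dich (S : Set (ℝ × ℝ)) (z : ℝ × ℝ) : Prop :=
  z ∈ closure S → ∀ᶠ y in 𝓝 z, y ∈ closure S

lemma transfer_closure (F : ℝ × ℝ ≃ₜ ℝ × ℝ) {S S' : Set (ℝ × ℝ)} {z : ℝ × ℝ}
    (h : ∀ᶠ y in 𝓝 z, y ∈ S ↔ F y ∈ S') : ∀ᶠ y in 𝓝 z, y ∈ closure S ↔ F y ∈ closure S' := by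
  filter_upwards [h.eventually_nhds] with y hy
  rw [mem_closure_iff_frequently, mem_closure_iff_frequently, ← F.map_nhds_eq, frequently_map]
  exact frequently_congr hy

lemma transfer (F : ℝ × ℝ ≃ₜ ℝ × ℝ) {S S' : Set (ℝ × ℝ)} {z : ℝ × ℝ}
    (h : ∀ᶠ y in 𝓝 z, y ∈ S ↔ F y ∈ S') : Dich S z ↔ Dich S' (F z) := by
  have h2 := transfer_closure F h
  unfold Dich
  rw [← h2.self_of_nhds, ← F.map_nhds_eq, eventually_map]
  exact imp_congr_right fun _ => eventually_congr h2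

noncomputable def shH : ℝ × ℝ ≃ₜ ℝ × ℝ where
  toFun := sh
  invFun z := (z.1 - 2 * π, z.2)
  left_inv z := by simp [sh]
  right_inv z := by simp [sh]
  continuous_toFun := continuous_sh
  continuous_invFun := by fun_prop

noncomputable def rebH (w : ℂ) : ℝ × ℝ ≃ₜ ℝ × ℝ where
  toFun z := (z.1, z.2 + ss w z.1)
  invFun z := (z.1, z.2 - ss w z.1)
  left_inv z := by simp
  right_inv z := by simp
  continuous_toFun :=
    continuous_fst.prodMk (continuous_snd.add ((continuous_ss w).comp continuous_fst))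
  continuous_invFun :=
    continuous_fst.prodMk (continuous_snd.sub ((continuous_ss w).comp continuous_fst))

lemma dense_of_dich {S X : Set (ℝ × ℝ)} {ρ : ℝ} (hX : X.Countable)
    (h : ∀ z : ℝ × ℝ, |z.2| < ρ → z ∉ X → Dich S z) {z₁ : ℝ × ℝ} (h1 : |z₁.2| < ρ)
    (hS : S ∈ 𝓝 z₁) {z₂ : ℝ × ℝ} (h2 : |z₂.2| < ρ) : z₂ ∈ closure S := by
  have key : ∀ C : Set (ℝ × ℝ), IsPreconnected C → (∀ z ∈ C, |z.2| < ρ ∧ z ∉ X) →
      (C ∩ interior (closure S)).Nonempty → C ⊆ interior (closure S) := by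
    intro C hC hs hne
    refine hC.subset_of_closure_inter_subset isOpen_interior hne ?_
    rintro z ⟨a1, a2⟩
    have : z ∈ closure S := closure_minimal interior_subset isClosed_closure a1
    exact mem_interior_iff_mem_nhds.2 (h z (hs z a2).1 (hs z a2).2 this)
  have c1 : Continuous fun y : ℝ => (z₁.1, y) := by fun_prop
  have n1 : {y : ℝ | (z₁.1, y) ∈ interior S ∧ |y| < ρ} ∈ 𝓝 z₁.2 :=
    (c1.continuousAt.eventually (interior_mem_nhds.2 hS)).and
      (continuous_abs.continuousAt.eventually_lt continuousAt_const h1)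
  obtain ⟨y₀, a3, a1, a2⟩ := ((hX.image Prod.snd).dense_compl ℝ).inter_nhds_nonempty n1
  have r1 := key ((fun t : ℝ => (t, y₀)) '' univ)
    (isPreconnected_univ.image _ (by fun_prop))
    (by
      rintro _ ⟨t, _, rfl⟩
      exact ⟨a2, fun hx => a3 ⟨_, hx, rfl⟩⟩)
    ⟨(z₁.1, y₀), ⟨z₁.1, trivial, rfl⟩, interior_mono subset_closure a1⟩
  have r2 : ∀ t ∈ (Prod.fst '' X)ᶜ, (t, z₂.2) ∈ closure S := by
    intro t ht
    have := key ((fun y : ℝ => (t, y)) '' Ioo (-ρ) ρ)
      (isPreconnected_Ioo.image _ (by fun_prop))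
      (by
        rintro _ ⟨y, hy, rfl⟩
        exact ⟨abs_lt.2 hy, fun hx => ht ⟨_, hx, rfl⟩⟩)
      ⟨(t, y₀), ⟨y₀, abs_lt.1 a2, rfl⟩, r1 ⟨t, trivial, rfl⟩⟩
    exact interior_subset (this ⟨z₂.2, abs_lt.1 h2, rfl⟩)
  have c2 : Continuous fun t : ℝ => (t, z₂.2) := by fun_prop
  have hcl : IsClosed {t : ℝ | (t, z₂.2) ∈ closure S} := isClosed_closure.preimage c2
  exact closure_minimal r2 hcl (((hX.image Prod.fst).dense_compl ℝ) z₂.1)

namespace Cfg

variable {ι : Type}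

noncomputable def stepH (K : Cfg ι) (P : ℂ) (k : ι) : ℝ × ℝ ≃ₜ ℝ × ℝ where
  toFun := K.step P k
  invFun := K.unstep P k
  left_inv := unstep_step P k
  right_inv := step_unstep P k
  continuous_toFun := continuous_step P k
  continuous_invFun := continuous_unstep P k

/-- Every flight carries a chart with the uniform gap. -/
def Flight (K : Cfg ι) : Prop :=
  ∃ s t : ℝ, 0 < s ∧ s < t ∧ (∀ i j, i ≠ j → K.r i + K.r j + t ≤ ‖K.c j - K.c i‖) ∧
    ∀ i (w : ℂ), K.r i ^ 2 + s ^ 2 ≤ ‖w‖ ^ 2 → ‖w‖ ≤ K.r i + s → K.Chart (K.c i + w) K.τ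

variable {K : Cfg ι}

lemma Flight.chart (hF : K.Flight) (i : ι) {z : ℝ × ℝ} (hz : |z.2| < K.r i) :
    ∃ (o w : ℂ), K.Chart o K.τ ∧ (rebH w z).2 = 0 ∧
      (∀ᶠ y in 𝓝 z, K.Same (K.c i) o y (rebH w y)) ∧ K.Next o (rev (rebH w z)) i ∧
      K.b o (rev (rebH w z)) i = - z.2 ∧ K.step o i (rev (rebH w z)) = sh (K.iota i z) := by
  obtain ⟨s, t, hs, hst, hsep, hch⟩ := hF
  set H := hh (K.r i) z.2 with hH
  set w : ℂ := ⟨(H + s) * cos z.1 - z.2 * sin z.1, (H + s) * sin z.1 + z.2 * cos z.1⟩ with hw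
  have h1 := sin_sq_add_cos_sq z.1
  have e1 : ee w z.1 = H + s := by
    simp only [ee, hw]; linear_combination (H + s) * h1
  have e2 : ss w z.1 = - z.2 := by
    simp only [ss, hw]; linear_combination (- z.2) * h1
  have e3 := ee_sq_add_ss_sq w z.1
  rw [e1, e2] at e3
  have H0 : 0 ≤ H := hh_nonneg _ _
  have H1 : H ≤ K.r i := hh_le (K.r_pos i).le
  have H2 : H ^ 2 = K.r i ^ 2 - z.2 ^ 2 := hh_sq hz.le
  have hC : K.Chart (K.c i + w) K.τ := hch i w (by nlinarith)
    (abs_le_of_sq_le_sq' (by nlinarith) (by linarith [K.r_pos i])).2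
  have ew : K.c i + w - K.c i = w := by ring
  have hev : ∀ᶠ y in 𝓝 z, |y.2| < K.r i ∧ 0 < ee w y.1 ∧ ee w y.1 < hh (K.r i) y.2 + t := by
    have c1 : Continuous fun y : ℝ × ℝ => ee w y.1 := (continuous_ee w).comp continuous_fst
    have c2 : Continuous fun y : ℝ × ℝ => hh (K.r i) y.2 + t :=
      ((continuous_hh _).comp continuous_snd).add continuous_const
    refine (eventually_abs_lt hz).and ((continuousAt_const.eventually_lt c1.continuousAt ?_).and
      (c1.continuousAt.eventually_lt c2.continuousAt ?_))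
    · simp only [e1]; linarith
    · simp only [e1]; linarith
  have hb : ∀ y l, K.b (K.c i + w) (rebH w y) l = K.b (K.c i) y l := fun y l =>
    b_rebase _ _ y (rebH w y) rfl (by rw [ew]; rfl) l
  have he : ∀ y l, K.e (K.c i + w) (rebH w y) l = K.e (K.c i) y l - ee w y.1 := fun y l => by
    rw [e_rebase (K.c i) _ y (rebH w y) rfl l, ew]
  have hah : ∀ y : ℝ × ℝ, |y.2| < K.r i → ∀ l, K.Ahead (K.c i) y l →
      hh (K.r i) y.2 + t ≤ K.e (K.c i) y l := fun y hy l hl => by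
    have hil : i ≠ l := by
      rintro rfl
      have := hl.2
      rw [e_self] at this
      exact lt_irrefl _ this
    have := gap_gen (by linarith) hy.le hl.1 (hsep i l hil)
    rw [abs_of_pos hl.2] at this
    linarith [hh_nonneg (K.r l) (K.b (K.c i) y l)]
  have hb0 : K.b (K.c i + w) (rev (rebH w z)) i = - z.2 := by rw [b_rev, hb, b_self]
  refine ⟨K.c i + w, w, hC, ?_, ?_, ⟨⟨?_, ?_⟩, fun l hl => ?_⟩, hb0, ?_⟩
  · change z.2 + ss w z.1 = 0
    rw [e2]; ring
  · filter_upwards [hev] with y hy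
    refine ⟨rfl, by rw [ew]; rfl, fun l => ⟨fun h => ⟨by rw [hb]; exact h.1, ?_⟩,
      fun h => ⟨by rw [← hb]; exact h.1, ?_⟩⟩⟩
    · rw [he]; linarith [hah y hy.1 l h, hy.2.2]
    · have := h.2
      rw [he] at this; linarith [hy.2.1]
  · rw [hb0, abs_neg]; exact hz.le
  · rw [e_rev, he, e_self, e1]; linarith
  · obtain ⟨a1, a2⟩ := hl
    rw [b_rev, hb, abs_neg] at a1
    rw [e_rev, he, e1] at a2
    rw [e_rev, e_rev, he, he, e_self]
    by_contra hc
    have := hah z hz l ⟨a1, by linarith⟩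
    linarith
  · unfold step
    rw [hb0]
    ext
    · simp only [iota, sh, rev, neg_div, arcsin_neg]
      change z.1 + π + π - _ = _
      ring
    · simp only [iota, sh]

variable [Fintype ι]

lemma dich_step {P : ℂ} {ρ : ℝ} (hP : K.Adm P ρ) {z : ℝ × ℝ} (hz : |z.2| < ρ) {k : ι}
    (hk : K.Next P z k) (hb : |K.b P z k| < K.r k) :
    ∀ᶠ y in 𝓝 z, y ∈ K.EE P ↔ K.stepH P k y ∈ K.EE (K.c k) := by
  filter_upwards [hk.eventually hP hz hb] with y hy using mem_EE_iff hy.1 hy.2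

lemma dich_back (hF : K.Flight) (i : ι) {z : ℝ × ℝ} (hz : |z.2| < K.r i)
    (h : K.iota i z ∈ K.EE (K.c i)) : Dich (K.EE (K.c i)) z := by
  obtain ⟨o, w, hC, h0, hS, hn, hb, hs⟩ := hF.chart i hz
  rw [transfer (rebH w) (hS.mono fun y hy => hy.EE)]
  have h1 : |(rebH w z).2| < K.τ := by rw [h0, abs_zero]; exact K.τ_pos
  have h2 : rev (rebH w z) ∈ K.EE o := by
    rw [mem_EE_iff hn (by rw [hb, abs_neg]; exact hz), hs, EE_sh]; exact h
  have h3 := continuous_rev.continuousAt.eventually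
    (EE_mem_nhds hC.adm (z := rev (rebH w z)) (by simpa [rev] using h1) h2)
  intro _
  filter_upwards [(h3.and (eventually_abs_lt h1)).eventually_nhds] with y hy
  by_contra hc
  have h4 : (closure (K.EE o))ᶜ ∈ 𝓝 y := isClosed_closure.isOpen_compl.mem_nhds hc
  have h5 := Measure.measure_pos_of_mem_nhds volume (inter_mem hy h4)
  refine h5.ne' (measure_mono_null ?_ (measure_union_null (null_back hC) (null_tan (K := K) o)))
  rintro y' ⟨⟨a1, a2⟩, a3⟩
  by_cases hy' : y' ∈ K.EP o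
  · exact Or.inr ⟨hy', fun h => a3 (subset_closure h)⟩
  · exact Or.inl ⟨⟨le_of_lt a2, EE_subset_EP o a1⟩, hy'⟩

theorem strip_dense (hF : K.Flight) (i : ι) {z : ℝ × ℝ} (hz : |z.2| < K.r i) :
    z ∈ closure (K.EE (K.c i)) := by
  obtain ⟨J, hJ⟩ := K.local_density
  have good : ∀ i (z : ℝ × ℝ), |z.2| < K.r i → K.RegN (J + 1) (K.c i) z →
      K.RegN J (K.c i) (K.iota i z) → Dich (K.EE (K.c i)) z := by
    intro i z hz r1 r2
    obtain ⟨o, w, hC, h0, hS, hn, hb, hs⟩ := hF.chart i hz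
    rw [transfer (rebH w) (hS.mono fun y hy => hy.EE)]
    obtain ⟨d, hd, h⟩ := hJ hC (z₀ := rebH w z) (by rw [h0, abs_zero]; exact K.τ_pos)
      ((hS.self_of_nhds.regN _).1 r1)
      ⟨i, hn, by rw [hb, abs_neg]; exact hz, by rw [hs, regN_sh]; exact r2⟩
    intro hc
    obtain ⟨zs, a1, a2⟩ := mem_closure_iff_nhds.1 hc _ (Box_mem_nhds _ hd)
    filter_upwards [Box_mem_nhds _ hd] with y hy
    refine Metric.mem_closure_iff.2 fun σ hσ => ?_
    obtain ⟨X, b1, b2⟩ := h zs a1 a2 y hy σ hσ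
    refine ⟨(X, y.2), b2, ?_⟩
    rw [Prod.dist_eq, max_lt_iff, Real.dist_eq, abs_sub_comm, dist_self]
    exact ⟨b1, hσ⟩
  have goodA : ∀ (n : ℕ) i (z : ℝ × ℝ), |z.2| < K.r i → K.RegN (J + 1 + n) (K.c i) z →
      K.RegN (J - n) (K.c i) (K.iota i z) → Dich (K.EE (K.c i)) z := by
    intro n
    induction n with
    | zero => exact good
    | succ n ih =>
      rintro i z hz ⟨k, a1, a2, a3⟩ r2
      rw [transfer (K.stepH (K.c i) k) (dich_step (K.adm_c i) hz a1 a2)]
      refine ih k _ a2 a3 (RegN.mono (n := J - (n + 1) + 1) (by omega) ⟨i, a1.back hz.le, ?_, ?_⟩)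
      · change |K.b (K.c k) (K.iota k (K.step (K.c i) k z)) i| < _
        rw [b_back, abs_neg]; exact hz
      · change K.RegN _ _ (K.step (K.c k) i (K.iota k (K.step (K.c i) k z)))
        rw [step_back, regN_sh]; exact r2
  have goodB : ∀ (n : ℕ) i (z : ℝ × ℝ), |z.2| < K.r i → K.RegN (J + 1 - n) (K.c i) z →
      K.RegN (J + n) (K.c i) (K.iota i z) → Dich (K.EE (K.c i)) z := by
    intro n
    induction n with
    | zero => exact good
    | succ n ih =>
      rintro i z hz r1 ⟨k, a1, a2, a3⟩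
      have hz' : |(K.iota i z).2| ≤ K.r i := by simpa [iota] using hz.le
      have hn := a1.back hz'
      have hs := step_back (K := K) i k (K.iota i z)
      have hb := b_back (K := K) i k (K.iota i z)
      rw [iota_iota] at hs
      have hb' : |K.b (K.c k) (K.iota k (K.step (K.c i) k (K.iota i z))) i| < K.r i := by
        rw [hb]; simpa [iota] using hz
      have hk : |(K.iota k (K.step (K.c i) k (K.iota i z))).2| < K.r k := by
        rw [iota_step, abs_neg]; exact a2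
      have := ih k _ hk (RegN.mono (n := J + 1 - (n + 1) + 1) (by omega)
        ⟨i, hn, hb', by rw [hs, regN_sh]; exact r1⟩) (by rw [iota_iota]; exact a3)
      rw [transfer (K.stepH (K.c k) i) (dich_step (K.adm_c k) hk hn hb')] at this
      change Dich _ (K.step (K.c k) i _) at this
      rw [hs] at this
      exact (transfer shH (Eventually.of_forall fun y => (EE_sh (K.c i) y).symm)).2 this
  have dich : ∀ i {z₁ : ℝ × ℝ}, |z₁.2| < K.r i → z₁ ∈ K.EE (K.c i) → ∀ {z₂ : ℝ × ℝ},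
      |z₂.2| < K.r i → z₂ ∈ closure (K.EE (K.c i)) := by
    intro i z₁ h1 h2 z₂ h3
    refine dense_of_dich (countable_double (K := K) i) (fun z hz hX => ?_) h1
      (EE_mem_nhds (K.adm_c i) h1 h2) h3
    rcases trichotomy (K := K) (J + 1 + J) (K.c i) z with h | h | h
    · exact fun _ => mem_of_superset (EE_mem_nhds (K.adm_c i) hz h) subset_closure
    · exact goodA J i z hz h (by rw [Nat.sub_self]; trivial)
    rcases trichotomy (K := K) (J + (J + 1)) (K.c i) (K.iota i z) with h' | h' | h'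
    · exact dich_back hF i hz h'
    · exact goodB (J + 1) i z hz (by rw [Nat.sub_self]; trivial) h'
    · exact absurd ⟨hz, h', h⟩ hX
  by_contra hcon
  obtain ⟨j, hj, hmax⟩ := Set.exists_max_image
    {j | ∀ y : ℝ × ℝ, |y.2| < K.r j → y ∉ K.EE (K.c j)} (fun j => (K.c j).re + K.r j)
    (Set.toFinite _) ⟨i, fun y h1 h2 => hcon (dich i h1 h2 hz)⟩
  have hfin : (⋃ l, ({K.r l - ss (K.c l - K.c j) 0, - K.r l - ss (K.c l - K.c j) 0} :
      Set ℝ)).Countable := countable_iUnion fun l => (Set.toFinite _).countable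
  obtain ⟨y, y1, y2⟩ := (hfin.dense_compl ℝ).inter_open_nonempty (Ioo (-K.τ) K.τ) isOpen_Ioo
    ⟨0, by linarith [K.τ_pos], K.τ_pos⟩
  have y3 : |y| < K.τ := abs_lt.2 y1
  have y4 : |((0 : ℝ), y).2| < K.r j := y3.trans_le (K.τ_le_r j)
  by_cases hfree : ∀ l, ¬ K.Ahead (K.c j) (0, y) l
  · exact hj _ y4 ⟨[], hfree⟩
  push Not at hfree
  obtain ⟨l, hl⟩ := hfree
  obtain ⟨k, hk⟩ := exists_next hl
  have hb : |K.b (K.c j) (0, y) k| < K.r k := by
    refine lt_of_le_of_ne hk.1.1 fun e => y2 (mem_iUnion.2 ⟨k, ?_⟩)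
    rcases (abs_eq (K.r_pos k).le).1 e with e | e
    · left; unfold b at e; simp only at e; linarith
    · right; unfold b at e; simp only at e; simp only [mem_singleton_iff]; linarith
  have hg := (K.adm_c j).gap y4.le hk.1
  have e1 : K.e (K.c j) (0, y) k = (K.c k).re - (K.c j).re := by simp [e, ee]
  have h5 := sub_abs_le_hh y4.le
  have h6 := hh_nonneg (K.r k) (K.b (K.c j) (0, y) k)
  have hk' : ¬ ∀ y : ℝ × ℝ, |y.2| < K.r k → y ∉ K.EE (K.c k) := fun h => by
    have := hmax k h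
    simp only at this h5 hg
    linarith [K.r_pos k]
  push Not at hk'
  obtain ⟨y', a1, a2⟩ := hk'
  have h7 := dich k a1 a2 (z₂ := K.step (K.c j) k (0, y)) hb
  have h8 := (transfer_closure (K.stepH (K.c j) k)
    (dich_step (K.adm_c j) y4 hk hb)).self_of_nhds.2 h7
  obtain ⟨y'', b1, b2⟩ := mem_closure_iff_nhds.1 h8 _ (eventually_abs_lt y4)
  exact hj y'' b1 b2

/-- Some ray from a point in free space escapes. -/
theorem escape (hF : K.Flight) {p : ℂ} {ρ : ℝ} (hp : K.Chart p ρ) : ∃ φ, (φ, 0) ∈ K.EP p := by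
  by_contra hcon
  push Not at hcon
  obtain ⟨J, hJ⟩ := K.local_density
  have h0 : |(0 : ℝ)| < ρ := by rw [abs_zero]; exact hp.1
  have hT := countable_tan hp.adm h0.le
  have hT' := hT.preimage (add_left_injective π)
  obtain ⟨φ, hφ⟩ := ((hT.union hT').dense_compl ℝ).nonempty
  have reg : ∀ t, (¬ ∃ ω k, K.TanAt p ω k (t, 0)) → K.RegN (J + 1) p (t, 0) := fun t ht => by
    rcases trichotomy (K := K) (J + 1) p (t, 0) with h | h | h
    · exact absurd (EE_subset_EP p h) (hcon t)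
    · exact h
    · exact absurd h ht
  have r1 := reg φ fun h => hφ (Or.inl h)
  have r2 := reg (φ + π) fun h => hφ (Or.inr h)
  obtain ⟨d, hd, h⟩ := hJ hp (z₀ := (φ, 0)) h0 r1 (by simpa [rev] using r2)
  obtain ⟨k, a1, a2, _⟩ := r1
  have h8 := (transfer_closure (K.stepH p k)
    (dich_step hp.adm (z := (φ, 0)) h0 a1 a2)).self_of_nhds.2 (strip_dense hF k a2)
  obtain ⟨zs, b1, b2⟩ := mem_closure_iff_nhds.1 h8 _ (Box_mem_nhds _ hd)
  obtain ⟨X, _, c2⟩ := h zs b1 b2 (φ, 0) (mem_of_mem_nhds (Box_mem_nhds _ hd)) 1 one_pos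
  exact hcon X (EE_subset_EP p c2)

end Cfg

end Pool.Agent.Lib.MP_ab57f0_an
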