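import Pool.Agent.Lib.MP_ab57f0_an.Deriv

/-! The growth lemma for short dispersing curves. -/

set_option autoImplicit false

namespace Pool.Agent.Lib.MP_ab57f0_an

open Real Set MeasureTheory Filter Topology
open scoped ENNReal

lemma ev_le (a : ℝ) {b : ℝ} (hb : 0 < b) : ∀ᶠ δ in 𝓝[>] (0 : ℝ), a * δ ≤ b := by
  have : ∀ᶠ δ in 𝓝 (0 : ℝ), a * δ < b := by
    have c : Continuous fun δ : ℝ => a * δ := by fun_prop
    exact c.continuousAt.eventually_lt continuousAt_const (by simpa using hb)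
  exact (this.mono fun _ h => h.le).filter_mono nhdsWithin_le_nhds

lemma mvt_ge {I : Set ℝ} (hI : I.OrdConnected) {f f' : ℝ → ℝ} {C : ℝ}
    (hf : ∀ t ∈ I, HasDerivAt f (f' t) t) (hC : ∀ t ∈ I, C ≤ f' t) {x y : ℝ} (hx : x ∈ I)
    (hy : y ∈ I) (hxy : x ≤ y) : C * (y - x) ≤ f y - f x := by
  rcases hxy.eq_or_lt with rfl | h
  · simp
  have hs : Icc x y ⊆ I := hI.out hx hy
  obtain ⟨c, hc, e⟩ := exists_hasDerivAt_eq_slope f f' h
    (fun t ht => (hf t (hs ht)).continuousAt.continuousWithinAt)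
    (fun t ht => hf t (hs (Ioo_subset_Icc_self ht)))
  have := hC c (hs (Ioo_subset_Icc_self hc))
  rw [e, le_div_iff₀ (sub_pos.2 h)] at this
  exact this

lemma vol_le_of_dist {S : Set ℝ} {d : ℝ} (h : ∀ x ∈ S, ∀ y ∈ S, x ≤ y → y - x ≤ d) :
    volume S ≤ ENNReal.ofReal d := by
  refine (Real.volume_le_diam S).trans (Metric.ediam_le fun x hx y hy => ?_)
  rw [edist_dist, Real.dist_eq]
  refine ENNReal.ofReal_le_ofReal ?_
  rcases le_total x y with h' | h'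
  · rw [abs_sub_comm, abs_of_nonneg (sub_nonneg.2 h')]; exact h x hx y hy h'
  · rw [abs_of_nonneg (sub_nonneg.2 h')]; exact h y hy x hx h'

lemma hh_le_add {ρ A y y' d t : ℝ} (ht : 0 ≤ t) (hρ : ρ ≤ A) (hy : |y| ≤ ρ) (hy' : |y'| ≤ ρ)
    (hd : |y - y'| ≤ d) (h : 2 * A * d ≤ t ^ 2) : hh ρ y ≤ hh ρ y' + t := by
  have a1 := hh_sq hy
  have a2 := hh_sq hy'
  have n2 := hh_nonneg ρ y'
  apply abs_le_of_sq_le_sq' ?_ (by linarith) |>.2
  have e : y' ^ 2 - y ^ 2 ≤ 2 * A * d := by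
    have : y' ^ 2 - y ^ 2 = - ((y - y') * (y + y')) := by ring
    rw [this]
    refine (neg_le_abs _).trans ?_
    rw [abs_mul]
    have : |y + y'| ≤ 2 * A := (abs_add_le _ _).trans (by linarith)
    calc _ ≤ d * (2 * A) := mul_le_mul hd this (abs_nonneg _) ((abs_nonneg _).trans hd)
      _ = _ := by ring
  nlinarith [mul_nonneg ht n2]

namespace Cfg

variable {ι : Type} {K : Cfg ι}

/-- A short dispersing curve. -/
structure Short (K : Cfg ι) (ρ δ : ℝ) (I : Set ℝ) (γ : ℝ → ℝ × ℝ) (p g : ℝ → ℝ) (σ m : ℝ) :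
    Prop where
  oc : I.OrdConnected
  sg : σ = 1 ∨ σ = -1
  mpos : 0 < m
  hd : ∀ t ∈ I, HD γ (p t) (-(g t * p t)) t
  lo : ∀ t ∈ I, m ≤ σ * p t
  cone : ∀ t ∈ I, g t ≤ hh ρ (γ t).2
  str : ∀ t ∈ I, |(γ t).2| ≤ ρ
  d1 : ∀ t ∈ I, ∀ t' ∈ I, |(γ t).1 - (γ t').1| ≤ δ
  d2 : ∀ t ∈ I, ∀ t' ∈ I, |(γ t).2 - (γ t').2| ≤ δ

section

variable {P : ℂ} {ρ δ : ℝ} {I : Set ℝ} {γ : ℝ → ℝ × ℝ} {p g : ℝ → ℝ} {σ m : ℝ}

lemma Short.e_var (hS : K.Short ρ δ I γ p g σ m) (hP : K.Adm P ρ) (l : ι) {t t' : ℝ} (ht : t ∈ I)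
    (ht' : t' ∈ I) : |K.e P (γ t) l - K.e P (γ t') l| ≤ K.A * δ :=
  (hP.abs_e_sub _ _ l).trans (mul_le_mul_of_nonneg_left (hS.d1 t ht t' ht') K.A_pos.le)

lemma Short.b_var (hS : K.Short ρ δ I γ p g σ m) (hP : K.Adm P ρ) (l : ι) {t t' : ℝ} (ht : t ∈ I)
    (ht' : t' ∈ I) : |K.b P (γ t) l - K.b P (γ t') l| ≤ (1 + K.A) * δ := by
  have := hP.abs_b_sub (γ t) (γ t') l
  have h1 := mul_le_mul_of_nonneg_left (hS.d1 t ht t' ht') K.A_pos.le
  have h2 := hS.d2 t ht t' ht'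
  linarith

lemma Short.ahead (hS : K.Short ρ δ I γ p g σ m) (hP : K.Adm P ρ) (h1 : 8 * K.A * δ ≤ K.τ)
    (h2 : 128 * K.A * δ ≤ K.τ ^ 2) {l : ι} {t₀ : ℝ} (ht₀ : t₀ ∈ I) (he : 0 < K.e P (γ t₀) l)
    (hb : |K.b P (γ t₀) l| ≤ K.r l + K.τ / 2) {t : ℝ} (ht : t ∈ I) :
    K.τ / 4 ≤ K.e P (γ t) l - g t ∧ 0 < K.e P (γ t) l := by
  have hτ := K.τ_pos
  have a1 := hP.gap_near (hS.str t₀ ht₀) he hb
  have a2 := (abs_le.1 (hS.e_var hP l ht ht₀)).1
  have a3 := hh_le_add (t := K.τ / 8) (by linarith) hP.2.1 (hS.str t ht) (hS.str t₀ ht₀)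
    (hS.d2 t ht t₀ ht₀) (by linarith)
  have a4 := hS.cone t ht
  have a5 := hh_nonneg ρ (γ t₀).2
  constructor <;> linarith

lemma Short.mono (hS : K.Short ρ δ I γ p g σ m) (hP : K.Adm P ρ) (h1 : 8 * K.A * δ ≤ K.τ)
    (h2 : 128 * K.A * δ ≤ K.τ ^ 2) {l : ι} {t₀ : ℝ} (ht₀ : t₀ ∈ I) (he : 0 < K.e P (γ t₀) l)
    (hb : |K.b P (γ t₀) l| ≤ K.r l + K.τ / 2) {x y : ℝ} (hx : x ∈ I) (hy : y ∈ I) (hxy : x ≤ y) :
    K.τ / 4 * m * (y - x) ≤ σ * K.b P (γ y) l - σ * K.b P (γ x) l := by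
  refine mvt_ge hS.oc (f := fun t => σ * K.b P (γ t) l)
    (f' := fun t => σ * (-(g t * p t) + K.e P (γ t) l * p t))
    (fun t ht => (hd_b (hS.hd t ht) P l).const_mul σ) (fun t ht => ?_) hx hy hxy
  have a1 := (hS.ahead hP h1 h2 ht₀ he hb ht).1
  have a2 := hS.lo t ht
  have e : σ * (-(g t * p t) + K.e P (γ t) l * p t) = (K.e P (γ t) l - g t) * (σ * p t) := by ring
  rw [e]
  exact mul_le_mul a1 a2 hS.mpos.le (by linarith [K.τ_pos])

lemma Short.vol_level (hS : K.Short ρ δ I γ p g σ m) (hP : K.Adm P ρ) (h1 : 8 * K.A * δ ≤ K.τ)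
    (h2 : 128 * K.A * δ ≤ K.τ ^ 2) (l : ι) {η y : ℝ} (hη : η ≤ K.τ / 2) (hy : |y| ≤ K.r l) :
    volume {t | t ∈ I ∧ 0 < K.e P (γ t) l ∧ |K.b P (γ t) l - y| ≤ η}
      ≤ ENNReal.ofReal (8 * η / (K.τ * m)) := by
  refine vol_le_of_dist fun x hx x' hx' hxx => ?_
  have hb : |K.b P (γ x) l| ≤ K.r l + K.τ / 2 := by
    have := abs_sub_abs_le_abs_sub (K.b P (γ x) l) y
    linarith [hx.2.2]
  have a := hS.mono hP h1 h2 hx.1 hx.2.1 hb hx.1 hx'.1 hxx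
  have hτ := K.τ_pos
  have hm := hS.mpos
  rw [le_div_iff₀ (mul_pos hτ hm)]
  have b1 := abs_le.1 hx.2.2
  have b2 := abs_le.1 hx'.2.2
  rcases hS.sg with h | h <;> rw [h] at a <;> nlinarith

end

variable [Fintype ι]

lemma growth_zero {P : ℂ} {ρ δ : ℝ} {I : Set ℝ} {γ : ℝ → ℝ × ℝ} {p g : ℝ → ℝ} {σ m : ℝ}
    (hS : K.Short ρ δ I γ p g σ m) (hP : K.Adm P ρ) (h1 : 8 * K.A * δ ≤ K.τ)
    (h2 : 128 * K.A * δ ≤ K.τ ^ 2) {η : ℝ} (hη0 : 0 ≤ η) (hη : η ≤ K.τ / 2) :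
    volume {t | t ∈ I ∧ γ t ∈ K.Near η P}
      ≤ ENNReal.ofReal (Fintype.card ι * (16 / K.τ) * η / m) := by
  have : {t | t ∈ I ∧ γ t ∈ K.Near η P} ⊆ ⋃ l,
      ({t | t ∈ I ∧ 0 < K.e P (γ t) l ∧ |K.b P (γ t) l - K.r l| ≤ η} ∪
        {t | t ∈ I ∧ 0 < K.e P (γ t) l ∧ |K.b P (γ t) l - - K.r l| ≤ η}) := by
    rintro t ⟨ht, l, a1, a2⟩
    refine mem_iUnion.2 ⟨l, ?_⟩
    rw [abs_lt] at a2
    rcases abs_cases (K.b P (γ t) l) with h | h
    · left; refine ⟨ht, a1, abs_le.2 ⟨?_, ?_⟩⟩ <;> linarith [h.1, a2.1, a2.2]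
    · right; refine ⟨ht, a1, abs_le.2 ⟨?_, ?_⟩⟩ <;> linarith [h.1, a2.1, a2.2]
  refine (measure_mono this).trans ((measure_iUnion_fintype_le _ _).trans ?_)
  have hτ := K.τ_pos
  have hm := hS.mpos
  have hn : 0 ≤ 8 * η / (K.τ * m) := by positivity
  calc _ ≤ ∑ _l : ι, ENNReal.ofReal (8 * η / (K.τ * m) + 8 * η / (K.τ * m)) := by
        refine Finset.sum_le_sum fun l _ => (measure_union_le _ _).trans ?_
        rw [ENNReal.ofReal_add hn hn]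
        exact add_le_add (hS.vol_level hP h1 h2 l hη (by rw [abs_of_pos (K.r_pos l)]))
          (hS.vol_level hP h1 h2 l hη (by rw [abs_neg, abs_of_pos (K.r_pos l)]))
    _ = _ := by
        rw [Finset.sum_const, Finset.card_univ, nsmul_eq_mul, ← ENNReal.ofReal_natCast,
          ← ENNReal.ofReal_mul (Nat.cast_nonneg _)]
        congr 1
        field_simp
        ring

omit [Fintype ι] in
/-- The image of the part of a short curve that hits disk `k`. -/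
lemma Short.image {P : ℂ} {ρ δ : ℝ} {I : Set ℝ} {γ : ℝ → ℝ × ℝ} {p g : ℝ → ℝ} {σ m : ℝ}
    (hS : K.Short ρ δ I γ p g σ m) (hP : K.Adm P ρ) (h1 : 8 * K.A * δ ≤ K.τ)
    (h2 : 128 * K.A * δ ≤ K.τ ^ 2) {k : ι} {t₀ : ℝ} (ht₀ : t₀ ∈ I) (hk : K.Ahead P (γ t₀) k)
    {δ' δ₁ : ℝ} (h3 : 2 * (1 + K.A) * δ ≤ δ') (h4 : (1 + K.A) * δ ≤ K.τ * δ₁)
    (huc : ∀ x ∈ Icc (-1 : ℝ) 1, ∀ y ∈ Icc (-1 : ℝ) 1, |x - y| ≤ δ₁ →
      |arcsin x - arcsin y| ≤ δ' / 4)
    {H : ℝ} (hH : ∀ t ∈ I, |K.b P (γ t) k| < K.r k → hh (K.r k) (K.b P (γ t) k) ≤ H) :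
    ∃ p' g', K.Short (K.r k) δ' {t | t ∈ I ∧ |K.b P (γ t) k| < K.r k}
      (fun t => K.step P k (γ t)) p' g' (-σ) ((1 + 2 * K.τ / |H|) * m) := by
  have hτ := K.τ_pos
  have hA := K.one_le
  have hb₀ : |K.b P (γ t₀) k| ≤ K.r k + K.τ / 2 := by linarith [hk.1]
  have hδ : 0 ≤ δ := (abs_nonneg _).trans (hS.d1 t₀ ht₀ t₀ ht₀)
  have key : ∀ t, ∃ Λ g' : ℝ, t ∈ I → |K.b P (γ t) k| < K.r k →
      1 + 2 * K.τ / hh (K.r k) (K.b P (γ t) k) ≤ Λ ∧ 0 ≤ g' ∧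
      g' ≤ hh (K.r k) (K.b P (γ t) k) ∧
      HD (fun s => K.step P k (γ s)) (-(Λ * p t)) (-(g' * (-(Λ * p t)))) t := by
    intro t
    by_cases h : t ∈ I ∧ |K.b P (γ t) k| < K.r k
    · obtain ⟨Λ, g', h'⟩ := hd_step_cone (hS.hd t h.1) hP (hS.str t h.1) (hS.cone t h.1)
        ⟨h.2.le, (hS.ahead hP h1 h2 ht₀ hk.2 hb₀ h.1).2⟩ h.2
      exact ⟨Λ, g', fun _ _ => h'⟩
    · exact ⟨0, 0, fun a b => absurd ⟨a, b⟩ h⟩
  choose Λ g' hΛ using key
  have hr := K.r_pos k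
  have hdiv : ∀ x : ℝ, |x| < K.r k → x / K.r k ∈ Icc (-1 : ℝ) 1 := fun x hx => by
    have := abs_lt.1 hx
    constructor
    · rw [le_div_iff₀ hr]; linarith
    · rw [div_le_iff₀ hr]; linarith
  refine ⟨fun t => -(Λ t * p t), g', ⟨⟨fun x hx y hy t ht => ?_⟩, ?_, ?_,
    fun t ht => (hΛ t ht.1 ht.2).2.2.2, fun t ht => ?_, fun t ht => (hΛ t ht.1 ht.2).2.2.1,
    fun t ht => ht.2.le, fun t ht t' ht' => ?_, fun t ht t' ht' => ?_⟩⟩
  · have htI : t ∈ I := hS.oc.out hx.1 hy.1 ht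
    refine ⟨htI, ?_⟩
    have a1 := hS.mono hP h1 h2 ht₀ hk.2 hb₀ hx.1 htI ht.1
    have a2 := hS.mono hP h1 h2 ht₀ hk.2 hb₀ htI hy.1 ht.2
    have n1 : 0 ≤ K.τ / 4 * m * (t - x) :=
      mul_nonneg (mul_nonneg (by linarith) hS.mpos.le) (sub_nonneg.2 ht.1)
    have n2 : 0 ≤ K.τ / 4 * m * (y - t) :=
      mul_nonneg (mul_nonneg (by linarith) hS.mpos.le) (sub_nonneg.2 ht.2)
    have b1 := abs_lt.1 hx.2
    have b2 := abs_lt.1 hy.2
    rw [abs_lt]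
    rcases hS.sg with h | h <;> rw [h] at a1 a2 <;> constructor <;> linarith
  · rcases hS.sg with h | h
    · right; rw [h]
    · left; rw [h, neg_neg]
  · have : 0 ≤ 2 * K.τ / |H| := by positivity
    exact mul_pos (by linarith) hS.mpos
  · have a1 := (hΛ t ht.1 ht.2).1
    have a2 := hS.lo t ht.1
    have a3 := hH t ht.1 ht.2
    have a4 := hh_pos ht.2
    have a5 : 2 * K.τ / |H| ≤ 2 * K.τ / hh (K.r k) (K.b P (γ t) k) :=
      div_le_div_of_nonneg_left (by linarith) a4 (a3.trans (le_abs_self H))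
    have e : -σ * -(Λ t * p t) = Λ t * (σ * p t) := by ring
    rw [e]
    have : 0 ≤ 2 * K.τ / |H| := by positivity
    exact mul_le_mul (by linarith) a2 hS.mpos.le (by linarith)
  · have a1 := hS.b_var hP k ht.1 ht'.1
    have a2 := huc _ (hdiv _ ht.2) _ (hdiv _ ht'.2) (by
      rw [← sub_div, abs_div, abs_of_pos hr, div_le_iff₀ hr]
      have : 0 ≤ δ₁ := by
        by_contra hc
        push Not at hc
        nlinarith
      nlinarith [K.τ_le_r k])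
    have a3 := hS.d1 t ht.1 t' ht'.1
    have a4 : 2 * δ ≤ δ' / 2 := by nlinarith
    simp only [step]
    have b1 := abs_le.1 a2
    have b2 := abs_le.1 a3
    rw [abs_le]
    constructor <;> linarith
  · have a1 := hS.b_var hP k ht.1 ht'.1
    simp only [step]
    nlinarith

lemma growth (K : Cfg ι) : ∀ j : ℕ, ∃ δ > 0, ∀ {P : ℂ} {ρ : ℝ}, K.Adm P ρ → ∀ {η : ℝ}, 0 ≤ η →
    η ≤ K.τ / 2 → ∀ {I : Set ℝ} {γ : ℝ → ℝ × ℝ} {p g : ℝ → ℝ} {σ m : ℝ},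
    K.Short ρ δ I γ p g σ m → volume {t | t ∈ I ∧ γ t ∈ K.Lev (K.Near η) j P}
      ≤ ENNReal.ofReal (Fintype.card ι * (16 / K.τ) * η / m)
  | 0 => by
    have hτ := K.τ_pos
    obtain ⟨δ, ⟨h1, h2⟩, h0⟩ := (((ev_le (8 * K.A) hτ).and
      (ev_le (128 * K.A) (pow_pos hτ 2))).and self_mem_nhdsWithin).exists
    exact ⟨δ, h0, fun hP η hη0 hη I γ p g σ m hS => growth_zero hS hP h1 h2 hη0 hη⟩
  | j + 1 => by
    classical
    obtain ⟨δ', hδ', ih⟩ := growth K j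
    have hτ := K.τ_pos
    have hA := K.A_pos
    obtain ⟨δ₁, hδ₁, huc⟩ : ∃ δ₁ > 0, ∀ x ∈ Icc (-1 : ℝ) 1, ∀ y ∈ Icc (-1 : ℝ) 1,
        |x - y| ≤ δ₁ → |arcsin x - arcsin y| ≤ δ' / 4 := by
      have := (isCompact_Icc (a := (-1 : ℝ)) (b := 1)).uniformContinuousOn_of_continuous
        continuous_arcsin.continuousOn
      rw [Metric.uniformContinuousOn_iff_le] at this
      exact this (δ' / 4) (by linarith)
    set lam : ℝ := 1 + 2 * K.τ / K.A with hlam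
    have hlam1 : 1 < lam := by
      have : 0 < 2 * K.τ / K.A := by positivity
      linarith
    set θ : ℝ := (1 - 1 / lam) / (Fintype.card ι + 1) with hθ
    have hθ0 : 0 < θ := by
      have : 1 / lam < 1 := by rw [div_lt_one (by linarith)]; exact hlam1
      exact div_pos (by linarith) (by positivity)
    set ξ : ℝ := (2 * K.τ * θ) ^ 2 / (2 * K.A) with hξ
    have hξ0 : 0 < ξ := by positivity
    obtain ⟨δ, ⟨⟨⟨⟨⟨h1, h2⟩, h3⟩, h4⟩, h5⟩, h0⟩⟩ := ((((((ev_le (8 * K.A) hτ).and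
      (ev_le (128 * K.A) (pow_pos hτ 2))).and (ev_le (2 * (1 + K.A)) hδ')).and
      (ev_le (1 + K.A) (mul_pos hτ hδ₁))).and (ev_le (1 + K.A) hξ0)).and
      self_mem_nhdsWithin).exists
    refine ⟨δ, h0, fun {P ρ} hP η hη0 hη I γ p g σ m hS => ?_⟩
    have hm := hS.mpos
    set C : ℝ := Fintype.card ι * (16 / K.τ) * η with hC
    have hC0 : 0 ≤ C := by positivity
    set Deep : ι → Prop := fun k => (∃ t ∈ I, K.Next P (γ t) k) ∧
      ∃ t ∈ I, |K.b P (γ t) k| ≤ K.r k - ξ with hDeep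
    have hcard : (Finset.univ.filter Deep).card ≤ 1 := by
      refine Finset.card_le_one.2 fun k hk k' hk' => ?_
      by_contra hne
      have hah : ∀ k, Deep k → ∀ t ∈ I, K.Ahead P (γ t) k := by
        rintro k ⟨⟨t₁, a1, a2⟩, t₂, a3, a4⟩ t ht
        refine ⟨?_, (hS.ahead hP h1 h2 a1 a2.1.2 (by linarith [a2.1.1]) ht).2⟩
        have := hS.b_var hP k ht a3
        have := abs_sub_abs_le_abs_sub (K.b P (γ t) k) (K.b P (γ t₂) k)
        linarith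
      have dk := (Finset.mem_filter.1 hk).2
      have dk' := (Finset.mem_filter.1 hk').2
      obtain ⟨t₁, a1, a2⟩ := dk.1
      obtain ⟨t₂, a3, a4⟩ := dk'.1
      have g1 := gap_two' P (γ t₁) hne a2.1.1 (hah k' dk' t₁ a1).1
      have g2 := gap_two' P (γ t₂) (Ne.symm hne) a4.1.1 (hah k dk t₂ a3).1
      rw [abs_of_nonneg (sub_nonneg.2 (a2.2 k' (hah k' dk' t₁ a1)))] at g1
      rw [abs_of_nonneg (sub_nonneg.2 (a4.2 k (hah k dk t₂ a3)))] at g2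
      have v1 := abs_le.1 (hS.e_var hP k a1 a3)
      have v2 := abs_le.1 (hS.e_var hP k' a1 a3)
      linarith
    have hk : ∀ k, volume {t | t ∈ I ∧ K.Next P (γ t) k ∧
        K.step P k (γ t) ∈ K.Lev (K.Near η) j (K.c k)}
        ≤ ENNReal.ofReal ((θ + if Deep k then 1 / lam else 0) * (C / m)) := by
      intro k
      rcases Set.eq_empty_or_nonempty {t | t ∈ I ∧ K.Next P (γ t) k ∧
        K.step P k (γ t) ∈ K.Lev (K.Near η) j (K.c k)} with he | ⟨t₀, ht₀, hn, _⟩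
      · rw [he, measure_empty]; exact zero_le
      have hsub : {t | t ∈ I ∧ K.Next P (γ t) k ∧
          K.step P k (γ t) ∈ K.Lev (K.Near η) j (K.c k)} ⊆
          {t | t ∈ {t | t ∈ I ∧ |K.b P (γ t) k| < K.r k} ∧
            K.step P k (γ t) ∈ K.Lev (K.Near η) j (K.c k)} ∪
          ({t | t ∈ I ∧ 0 < K.e P (γ t) k ∧ |K.b P (γ t) k - K.r k| ≤ 0} ∪
            {t | t ∈ I ∧ 0 < K.e P (γ t) k ∧ |K.b P (γ t) k - - K.r k| ≤ 0}) := by
        rintro t ⟨a1, a2, a3⟩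
        rcases a2.1.1.lt_or_eq with h | h
        · exact Or.inl ⟨⟨a1, h⟩, a3⟩
        · rcases (abs_eq (K.r_pos k).le).1 h with e | e
          · exact Or.inr (Or.inl ⟨a1, a2.1.2, by rw [e]; simp⟩)
          · exact Or.inr (Or.inr ⟨a1, a2.1.2, by rw [e]; simp⟩)
      have z1 := hS.vol_level hP h1 h2 k (η := 0) (y := K.r k) (by linarith)
        (by rw [abs_of_pos (K.r_pos k)])
      have z2 := hS.vol_level hP h1 h2 k (η := 0) (y := - K.r k) (by linarith)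
        (by rw [abs_neg, abs_of_pos (K.r_pos k)])
      rw [mul_zero, zero_div, ENNReal.ofReal_zero] at z1 z2
      refine (measure_mono hsub).trans ((measure_union_le _ _).trans ?_)
      refine (add_le_add le_rfl ((measure_union_le _ _).trans (add_le_add z1 z2))).trans ?_
      rw [add_zero, add_zero]
      by_cases hD : Deep k
      · obtain ⟨p', g', hS'⟩ := hS.image hP h1 h2 ht₀ hn.1 h3 h4 huc (H := K.A)
          (fun t _ _ => (hh_le (K.r_pos k).le).trans (K.r_le k))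
        refine (ih (K.adm_c k) hη0 hη hS').trans (ENNReal.ofReal_le_ofReal ?_)
        rw [if_pos hD, abs_of_pos hA, ← hlam, ← hC]
        have e : C / (lam * m) = 1 / lam * (C / m) := by field_simp
        rw [e]
        exact mul_le_mul_of_nonneg_right (by linarith) (by positivity)
      · obtain ⟨p', g', hS'⟩ := hS.image hP h1 h2 ht₀ hn.1 h3 h4 huc (H := 2 * K.τ * θ)
          (fun t ht hb => by
            have h6 : K.r k - ξ < |K.b P (γ t) k| := by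
              by_contra hc
              push Not at hc
              exact hD ⟨⟨t₀, ht₀, hn⟩, t, ht, hc⟩
            apply abs_le_of_sq_le_sq' ?_ (by positivity) |>.2
            rw [hh_sq hb.le, ← sq_abs (K.b P (γ t) k)]
            have e : (2 * K.τ * θ) ^ 2 = ξ * (2 * K.A) := by rw [hξ]; field_simp
            rw [e]
            have := K.r_le k
            have := abs_nonneg (K.b P (γ t) k)
            nlinarith)
        refine (ih (K.adm_c k) hη0 hη hS').trans (ENNReal.ofReal_le_ofReal ?_)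
        rw [if_neg hD, abs_of_pos (by positivity), ← hC, add_zero]
        have e : 2 * K.τ / (2 * K.τ * θ) = 1 / θ := by field_simp
        rw [e, div_le_iff₀ (by positivity)]
        have e2 : θ * (C / m) * ((1 + 1 / θ) * m) = C * (θ + 1) := by field_simp
        rw [e2]
        nlinarith
    have hsub : {t | t ∈ I ∧ γ t ∈ K.Lev (K.Near η) (j + 1) P} ⊆ ⋃ k, {t | t ∈ I ∧
        K.Next P (γ t) k ∧ K.step P k (γ t) ∈ K.Lev (K.Near η) j (K.c k)} := by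
      rintro t ⟨a1, k, a2, a3⟩
      exact mem_iUnion.2 ⟨k, a1, a2, a3⟩
    refine (measure_mono hsub).trans ((measure_iUnion_fintype_le _ _).trans
      ((Finset.sum_le_sum fun k _ => hk k).trans ?_))
    have hl0 : 0 < 1 / lam := by positivity
    rw [← ENNReal.ofReal_sum_of_nonneg (fun k _ => mul_nonneg (by split_ifs <;> linarith)
      (by positivity))]
    refine ENNReal.ofReal_le_ofReal ?_
    rw [← Finset.sum_mul, Finset.sum_add_distrib, Finset.sum_const, Finset.card_univ,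
      ← Finset.sum_filter, Finset.sum_const, nsmul_eq_mul, nsmul_eq_mul]
    refine mul_le_of_le_one_left (by positivity) ?_
    have c1 : ((Finset.univ.filter Deep).card : ℝ) ≤ 1 := by exact_mod_cast hcard
    have c2 : (Fintype.card ι + 1) * θ = 1 - 1 / lam := by rw [hθ]; field_simp
    nlinarith

lemma growth_le (K : Cfg ι) : ∀ j₀ : ℕ, ∃ δ > 0, ∀ j ≤ j₀, ∀ {P : ℂ} {ρ : ℝ}, K.Adm P ρ →
    ∀ {η : ℝ}, 0 ≤ η → η ≤ K.τ / 2 → ∀ {x y d : ℝ}, |y| ≤ ρ → 2 * d ≤ δ →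
    volume {t | t ∈ Ioo (x - d) (x + d) ∧ (t, y) ∈ K.Lev (K.Near η) j P}
      ≤ ENNReal.ofReal (Fintype.card ι * (16 / K.τ) * η) := by
  intro j₀
  choose δ hδ h using growth K
  obtain ⟨j₁, _, hj₁⟩ := (Finset.range (j₀ + 1)).exists_min_image δ ⟨0, by simp⟩
  refine ⟨δ j₁, hδ j₁, fun j hj P ρ hP η hη0 hη x y d hy hd => ?_⟩
  have hle := hj₁ j (Finset.mem_range.2 (by omega))
  have hS : K.Short ρ (δ j) (Ioo (x - d) (x + d)) (fun t => (t, y)) (fun _ => 1) (fun _ => 0)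
      1 1 := by
    refine ⟨ordConnected_Ioo, Or.inl rfl, one_pos, fun t _ => ⟨hasDerivAt_id t, ?_⟩,
      fun t _ => by simp, fun t _ => hh_nonneg _ _, fun t _ => hy, fun t ht t' ht' => ?_,
      fun t _ t' _ => by simpa using (hδ j).le⟩
    · simpa using hasDerivAt_const t y
    · rw [abs_le]; constructor <;> linarith [ht.1, ht.2, ht'.1, ht'.2]
  have := h j hP hη0 hη hS
  rwa [div_one] at this

end Cfg

end Pool.Agent.Lib.MP_ab57f0_an
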