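import Pool.Agent.Lib.MP_ab57f0_an.Symm

/-! Invariance of area and its consequences. -/

set_option autoImplicit false

namespace Pool.Agent.Lib.MP_ab57f0_an

open Real Set MeasureTheory Filter Topology
open scoped ENNReal

/-- A window of angles of length a full turn. -/
def win (a : ℝ) : Set (ℝ × ℝ) := {z | z.1 ∈ Ioc a (a + 2 * π)}

def strip (ρ : ℝ) : Set (ℝ × ℝ) := {z | |z.2| ≤ ρ}

lemma measurableSet_win (a : ℝ) : MeasurableSet (win a) := measurable_fst measurableSet_Ioc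

lemma measurableSet_strip (ρ : ℝ) : MeasurableSet (strip ρ) :=
  measurableSet_le continuous_snd.abs.measurable measurable_const

lemma strip_sh (ρ : ℝ) (z : ℝ × ℝ) : sh z ∈ strip ρ ↔ z ∈ strip ρ := Iff.rfl

lemma mp_shearB {f : ℝ → ℝ} (hf : Measurable f) :
    MeasurePreserving (fun z : ℝ × ℝ => (z.1, z.2 + f z.1)) volume volume := by
  have := MeasurePreserving.skew_product (μa := (volume : Measure ℝ)) (μc := (volume : Measure ℝ))
    (μd := (volume : Measure ℝ)) (MeasurePreserving.id (volume : Measure ℝ))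
    (g := fun x y => y + f x) (measurable_snd.add (hf.comp measurable_fst))
    (Eventually.of_forall fun x => map_add_right_eq_self volume (f x))
  exact this

lemma mp_shearP {g : ℝ → ℝ} (hg : Measurable g) :
    MeasurePreserving (fun z : ℝ × ℝ => (z.1 + g z.2, z.2)) volume volume := by
  have h1 : MeasurePreserving (Prod.swap : ℝ × ℝ → ℝ × ℝ) volume volume :=
    Measure.measurePreserving_swap
  exact h1.comp ((mp_shearB hg).comp h1)

lemma mp_rev : MeasurePreserving rev volume volume := by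
  have h1 : MeasurePreserving (fun x : ℝ => x + π) volume volume :=
    measurePreserving_add_right volume π
  have h2 : MeasurePreserving (fun x : ℝ => -x) volume volume := Measure.measurePreserving_neg volume
  exact h1.prod h2

lemma vol_periodic_one {T : Set ℝ} (hT : MeasurableSet T) (hp : ∀ x, x + 2 * π ∈ T ↔ x ∈ T)
    (a a' : ℝ) : volume (T ∩ Ioc a (a + 2 * π)) = volume (T ∩ Ioc a' (a' + 2 * π)) := by
  have h2 : 0 < 2 * π := two_pi_pos
  refine (isAddFundamentalDomain_Ioc h2 a).measure_set_eq (isAddFundamentalDomain_Ioc h2 a') hT ?_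
  rintro ⟨g, n, rfl⟩
  have hper : Function.Periodic (fun x => x ∈ T) (2 * π) := fun x => propext (hp x)
  ext x
  have := hper.zsmul n x
  change n • (2 * π) + x ∈ T ↔ x ∈ T
  rw [add_comm]
  exact iff_of_eq this

lemma vol_periodic {S : Set (ℝ × ℝ)} (hS : MeasurableSet S) (hp : ∀ z, sh z ∈ S ↔ z ∈ S)
    {α : ℝ → ℝ} (hα : Measurable α) :
    volume (S ∩ {z | z.1 ∈ Ioc (α z.2) (α z.2 + 2 * π)}) = volume (S ∩ win 0) := by
  have m1 : MeasurableSet {z : ℝ × ℝ | z.1 ∈ Ioc (α z.2) (α z.2 + 2 * π)} :=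
    (measurableSet_lt (hα.comp measurable_snd) measurable_fst).inter
      (measurableSet_le measurable_fst ((hα.comp measurable_snd).add_const _))
  rw [Measure.volume_eq_prod, Measure.prod_apply_symm (hS.inter m1),
    Measure.prod_apply_symm (hS.inter (measurableSet_win 0))]
  refine lintegral_congr fun y => ?_
  exact vol_periodic_one (T := (fun x => (x, y)) ⁻¹' S) (measurable_prodMk_right hS)
    (fun x => hp (x, y)) (α y) 0

lemma null_of_win {S : Set (ℝ × ℝ)} (h : ∀ a, volume (S ∩ win a) = 0) : volume S = 0 := by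
  have : S ⊆ ⋃ n : ℤ, S ∩ win n := by
    intro z hz
    refine mem_iUnion.2 ⟨⌈z.1⌉ - 1, hz, ?_, ?_⟩
    · push_cast; linarith [Int.ceil_lt_add_one z.1]
    · push_cast; linarith [Int.le_ceil z.1, pi_gt_three]
  exact measure_mono_null this (measure_iUnion_null fun n => h n)

namespace Cfg

variable {ι : Type} {K : Cfg ι}

lemma mp_step (P : ℂ) (k : ι) : MeasurePreserving (K.step P k) volume volume := by
  have h1 := mp_shearB (continuous_ss (K.c k - P)).measurable
  have h2 := mp_shearP (g := fun y => π - 2 * arcsin (y / K.r k)) (by fun_prop)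
  have : K.step P k = (fun z : ℝ × ℝ => (z.1 + (π - 2 * arcsin (z.2 / K.r k)), z.2)) ∘
      (fun z : ℝ × ℝ => (z.1, z.2 + ss (K.c k - P) z.1)) := by
    funext z
    simp only [step, b, Function.comp, add_sub_assoc]
  rw [this]
  exact h2.comp h1

lemma mp_unstep (P : ℂ) (k : ι) : MeasurePreserving (K.unstep P k) volume volume := by
  have h1 := mp_shearB (continuous_ss (K.c k - P)).neg.measurable
  have h2 := mp_shearP (g := fun y => - π + 2 * arcsin (y / K.r k)) (by fun_prop)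
  have : K.unstep P k = (fun z : ℝ × ℝ => (z.1, z.2 + - ss (K.c k - P) z.1)) ∘
      (fun z : ℝ × ℝ => (z.1 + (- π + 2 * arcsin (z.2 / K.r k)), z.2)) := by
    funext z
    simp only [unstep, inc, Function.comp, sub_eq_add_neg, add_assoc]
  rw [this]
  exact h1.comp h2

lemma mp_back : ∀ (ω : List ι) (P : ℂ), MeasurePreserving (K.back P ω) volume volume
  | [], _ => MeasurePreserving.id _
  | k :: ω, P => (mp_unstep P k).comp (mp_back ω (K.c k))

lemma vol_step_win (P : ℂ) (k : ι) (a : ℝ) {S : Set (ℝ × ℝ)} (hS : MeasurableSet S)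
    (hp : ∀ z, sh z ∈ S ↔ z ∈ S) :
    volume (K.step P k ⁻¹' S ∩ win a) = volume (S ∩ win 0) := by
  have hα : Measurable fun y => a + π - 2 * arcsin (y / K.r k) := by fun_prop
  rw [← vol_periodic hS hp hα]
  have m1 : MeasurableSet {z : ℝ × ℝ | z.1 ∈ Ioc (a + π - 2 * arcsin (z.2 / K.r k))
      (a + π - 2 * arcsin (z.2 / K.r k) + 2 * π)} :=
    (measurableSet_lt (hα.comp measurable_snd) measurable_fst).inter
      (measurableSet_le measurable_fst ((hα.comp measurable_snd).add_const _))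
  rw [← (mp_step (K := K) P k).measure_preimage (hS.inter m1).nullMeasurableSet]
  congr 1
  ext z
  simp only [mem_inter_iff, mem_preimage, win, mem_ofPred_eq, mem_Ioc, step]
  refine and_congr_right fun _ => ⟨fun h => ⟨by linarith [h.1], by linarith [h.2]⟩,
    fun h => ⟨by linarith [h.1], by linarith [h.2]⟩⟩

variable [Fintype ι]

/-- The invariant measure of a periodic family of sets. -/
noncomputable def mu (K : Cfg ι) (B : ι → Set (ℝ × ℝ)) : ℝ≥0∞ :=
  ∑ k, volume (B k ∩ strip (K.r k) ∩ win 0)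

lemma mu_mono {B B' : ι → Set (ℝ × ℝ)} (h : ∀ k, B k ∩ strip (K.r k) ⊆ B' k) :
    K.mu B ≤ K.mu B' :=
  Finset.sum_le_sum fun k _ => measure_mono fun _ hz => ⟨⟨h k hz.1, hz.1.2⟩, hz.2⟩

lemma vol_Pre_le (P : ℂ) (a : ℝ) {B : ι → Set (ℝ × ℝ)} (hB : ∀ k, MeasurableSet (B k))
    (hp : ∀ k z, sh z ∈ B k ↔ z ∈ B k) : volume (K.Pre P B ∩ win a) ≤ K.mu B := by
  have : K.Pre P B ∩ win a ⊆ ⋃ k, K.step P k ⁻¹' (B k ∩ strip (K.r k)) ∩ win a := by
    rintro z ⟨⟨k, h1, h2⟩, h3⟩
    exact mem_iUnion.2 ⟨k, ⟨h2, h1.1.1⟩, h3⟩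
  refine (measure_mono this).trans ((measure_iUnion_fintype_le _ _).trans (le_of_eq ?_))
  refine Finset.sum_congr rfl fun k _ => ?_
  exact vol_step_win P k a ((hB k).inter (measurableSet_strip _))
    (fun z => and_congr (hp k z) (strip_sh _ z))

lemma mu_Pre_le {B : ι → Set (ℝ × ℝ)} (hB : ∀ k, MeasurableSet (B k))
    (hp : ∀ k z, sh z ∈ B k ↔ z ∈ B k) : K.mu (fun i => K.Pre (K.c i) B) ≤ K.mu B := by
  set D : ι → ι → Set (ℝ × ℝ) := fun i k =>
    K.iota k ⁻¹' {z | K.Next (K.c k) z i} ∩ (B k ∩ strip (K.r k)) with hD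
  have mD : ∀ i k, MeasurableSet (D i k) := fun i k =>
    ((continuous_iota k).measurable (measurableSet_next _ _)).inter
      ((hB k).inter (measurableSet_strip _))
  have pD : ∀ i k z, sh z ∈ D i k ↔ z ∈ D i k := fun i k z => by
    simp only [hD, mem_inter_iff, mem_preimage, mem_ofPred_eq, iota_sh, next_sh, hp, strip_sh]
  have h1 : ∀ i, volume (K.Pre (K.c i) B ∩ strip (K.r i) ∩ win 0)
      ≤ ∑ k, volume (D i k ∩ win 0) := by
    intro i
    have : K.Pre (K.c i) B ∩ strip (K.r i) ∩ win 0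
        ⊆ ⋃ k, K.step (K.c i) k ⁻¹' (D i k) ∩ win 0 := by
      rintro z ⟨⟨⟨k, h1, h2⟩, h4⟩, h3⟩
      exact mem_iUnion.2 ⟨k, ⟨h1.back h4, h2, h1.1.1⟩, h3⟩
    refine (measure_mono this).trans ((measure_iUnion_fintype_le _ _).trans (le_of_eq ?_))
    exact Finset.sum_congr rfl fun k _ => vol_step_win _ k 0 (mD i k) (pD i k)
  refine (Finset.sum_le_sum fun i _ => h1 i).trans ?_
  rw [Finset.sum_comm]
  refine Finset.sum_le_sum fun k _ => ?_
  rw [← tsum_fintype (L := SummationFilter.unconditional ι),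
    ← measure_iUnion ?_ (fun i => (mD i k).inter (measurableSet_win 0))]
  · refine measure_mono ?_
    rintro z hz
    obtain ⟨i, h1, h2⟩ := mem_iUnion.1 hz
    exact ⟨h1.2, h2⟩
  · intro i j hij
    exact Set.disjoint_left.2 fun z hi hj => hij (Next.unique hi.1.1 hj.1.1)

lemma vol_Lev_le {N : ℂ → Set (ℝ × ℝ)} (hN : ∀ P, MeasurableSet (N P))
    (hp : ∀ P z, sh z ∈ N P ↔ z ∈ N P) :
    ∀ j : ℕ, K.mu (fun i => K.Lev N j (K.c i)) ≤ K.mu (fun i => N (K.c i))
  | 0 => le_rfl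
  | j + 1 => (mu_Pre_le (fun k => measurableSet_Lev hN j (K.c k))
      (fun k z => Lev_sh hp j (K.c k) z)).trans (vol_Lev_le hN hp j)

lemma vol_Near_le (η : ℝ) (P : ℂ) (a : ℝ) :
    volume (K.Near η P ∩ win a) ≤ Fintype.card ι * ENNReal.ofReal (8 * π * η) := by
  have : K.Near η P ∩ win a ⊆ ⋃ l, (fun z : ℝ × ℝ => (z.1, z.2 + ss (K.c l - P) z.1)) ⁻¹'
      (Ioc a (a + 2 * π) ×ˢ (Ioo (K.r l - η) (K.r l + η) ∪ Ioo (- K.r l - η) (- K.r l + η))) := by
    rintro z ⟨⟨l, _, h2⟩, h3⟩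
    refine mem_iUnion.2 ⟨l, h3, ?_⟩
    change K.b P z l ∈ _
    rw [abs_lt] at h2
    rcases abs_cases (K.b P z l) with h | h
    · left; constructor <;> linarith [h.1, h2.1, h2.2]
    · right; constructor <;> linarith [h.1, h2.1, h2.2]
  refine (measure_mono this).trans ((measure_iUnion_fintype_le _ _).trans ?_)
  rw [← nsmul_eq_mul, ← Finset.card_univ, ← Finset.sum_const]
  refine Finset.sum_le_sum fun l _ => ?_
  rw [(mp_shearB (continuous_ss (K.c l - P)).measurable).measure_preimage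
    (measurableSet_Ioc.prod (measurableSet_Ioo.union measurableSet_Ioo)).nullMeasurableSet,
    Measure.volume_eq_prod, Measure.prod_prod, Real.volume_Ioc]
  refine (mul_le_mul_right (measure_union_le _ _) _).trans ?_
  rw [Real.volume_Ioo, Real.volume_Ioo]
  rcases le_total 0 η with h | h
  · rw [← ENNReal.ofReal_add (by linarith) (by linarith),
      ← ENNReal.ofReal_mul (by linarith [pi_pos])]
    exact ENNReal.ofReal_le_ofReal (le_of_eq (by ring))
  · rw [ENNReal.ofReal_of_nonpos (p := K.r l + η - (K.r l - η)) (by linarith),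
      ENNReal.ofReal_of_nonpos (p := -K.r l + η - (-K.r l - η)) (by linarith)]
    simp

/-- The measure of the states that are almost tangent at level `j`. -/
lemma vol_Lev_Near (η : ℝ) (hη : 0 ≤ η) (P : ℂ) (a : ℝ) (j : ℕ) :
    volume (K.Lev (K.Near η) j P ∩ win a) ≤
      ENNReal.ofReal ((Fintype.card ι + 1) ^ 2 * (8 * π * η)) := by
  have h8 : 0 ≤ 8 * π * η := by positivity
  have hc : (Fintype.card ι : ℝ≥0∞) ≤ ENNReal.ofReal (Fintype.card ι + 1) := by
    rw [← ENNReal.ofReal_natCast]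
    exact ENNReal.ofReal_le_ofReal (by linarith)
  have h1 : (1 : ℝ≥0∞) ≤ ENNReal.ofReal (Fintype.card ι + 1) := by
    rw [← ENNReal.ofReal_one]
    exact ENNReal.ofReal_le_ofReal (by linarith [Nat.cast_nonneg (α := ℝ) (Fintype.card ι)])
  rw [ENNReal.ofReal_mul (by positivity), sq, ENNReal.ofReal_mul (by positivity), mul_assoc]
  rcases j with _ | j
  · refine (vol_Near_le η P a).trans ?_
    rw [← one_mul (_ * ENNReal.ofReal (8 * π * η))]
    gcongr
  · refine (vol_Pre_le P a (fun k => measurableSet_Lev (measurableSet_Near η) j (K.c k))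
      (fun k z => Lev_sh (Near_sh η) j (K.c k) z)).trans
      ((vol_Lev_le (measurableSet_Near η) (Near_sh η) j).trans ?_)
    unfold mu
    calc _ ≤ ∑ _k : ι, (Fintype.card ι * ENNReal.ofReal (8 * π * η) : ℝ≥0∞) :=
          Finset.sum_le_sum fun k _ => le_trans
            (measure_mono (inter_subset_inter_left _ inter_subset_left))
            (vol_Near_le η (K.c k) 0)
      _ = Fintype.card ι * (Fintype.card ι * ENNReal.ofReal (8 * π * η)) := by
          rw [Finset.sum_const, Finset.card_univ, nsmul_eq_mul]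
      _ ≤ _ := by gcongr

/-- Trapped states that came from infinity after exactly `m` reflections. -/
def TT (K : Cfg ι) (m : ℕ) (i : ι) : Set (ℝ × ℝ) :=
  (K.EP (K.c i))ᶜ ∩ ⋃ ω : {ω : List ι // ω.length = m}, K.iota i ⁻¹' {z | K.Esc (K.c i) ω.1 z}

lemma measurableSet_TT (m : ℕ) (i : ι) : MeasurableSet (K.TT m i) :=
  (measurableSet_EP _).compl.inter (MeasurableSet.iUnion fun ω =>
    (continuous_iota i).measurable (measurableSet_esc ω.1 _))

omit [Fintype ι] in
lemma TT_sh (m : ℕ) (i : ι) (z : ℝ × ℝ) : sh z ∈ K.TT m i ↔ z ∈ K.TT m i := by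
  simp only [TT, mem_inter_iff, mem_compl_iff, EP_sh, mem_iUnion, mem_preimage, mem_ofPred_eq,
    iota_sh, esc_sh]

lemma mu_TT_le (m : ℕ) : K.mu (K.TT m) ≤ K.mu (K.TT (m + 1)) := by
  refine le_trans (mu_mono fun i => ?_) (mu_Pre_le (measurableSet_TT (m + 1)) (TT_sh (m + 1)))
  rintro z ⟨⟨h1, h2⟩, h3⟩
  obtain ⟨⟨ω, hω⟩, h2⟩ := mem_iUnion.1 h2
  obtain ⟨k, hk, h4⟩ := next_of_not_EP h1
  refine ⟨k, hk, h4, mem_iUnion.2 ⟨⟨i :: ω, by simp [hω]⟩, hk.back h3, ?_⟩⟩
  rw [step_back, esc_sh]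
  exact h2

lemma mu_TT (m : ℕ) : K.mu (K.TT m) = 0 := by
  have hsum : ∑' n, K.mu (K.TT n) ≠ ⊤ := by
    unfold mu
    rw [Summable.tsum_finsetSum (fun _ _ => ENNReal.summable)]
    refine ENNReal.sum_ne_top.2 fun k _ => ?_
    rw [← measure_iUnion ?_ (fun n => ((measurableSet_TT n k).inter
      (measurableSet_strip _)).inter (measurableSet_win 0))]
    · refine ne_top_of_le_ne_top ?_ (measure_mono (t := Icc 0 (0 + 2 * π) ×ˢ
        Icc (- K.r k) (K.r k)) ?_)
      · exact (isCompact_Icc.prod isCompact_Icc).measure_lt_top.ne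
      · intro z hz
        obtain ⟨n, h1, h2⟩ := mem_iUnion.1 hz
        exact ⟨⟨h2.1.le, h2.2⟩, abs_le.1 h1.2⟩
    · intro n n' hn
      refine Set.disjoint_left.2 fun z h h' => hn ?_
      obtain ⟨⟨ω, hω⟩, h2⟩ := mem_iUnion.1 h.1.1.2
      obtain ⟨⟨ω', hω'⟩, h2'⟩ := mem_iUnion.1 h'.1.1.2
      rw [← hω, ← hω', Esc.unique ω ω' h2 h2']
  have ht := ENNReal.tendsto_atTop_zero_of_tsum_ne_top hsum
  have hm : Monotone fun n => K.mu (K.TT n) := monotone_nat_of_le_succ mu_TT_le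
  refine le_antisymm (ge_of_tendsto ht ?_) zero_le
  filter_upwards [eventually_ge_atTop m] with n hn using hm hn

/-- Almost every state that came from infinity escapes to infinity. -/
lemma null_back {P : ℂ} {ρ : ℝ} (hP : K.Chart P ρ) :
    volume (strip ρ ∩ rev ⁻¹' K.EP P ∩ (K.EP P)ᶜ) = 0 := by
  refine null_of_win fun a => ?_
  have : strip ρ ∩ rev ⁻¹' K.EP P ∩ (K.EP P)ᶜ ∩ win a ⊆ ⋃ m, K.Pre P (K.TT m) ∩ win a := by
    rintro z ⟨⟨⟨h1, ω, h2⟩, h3⟩, h4⟩
    obtain ⟨k, hk, h5⟩ := next_of_not_EP h3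
    refine mem_iUnion.2 ⟨ω.length, ⟨k, hk, h5, mem_iUnion.2 ⟨⟨ω, rfl⟩, ?_⟩⟩, h4⟩
    exact ((hP.same_back h1 hk).esc ω).1 h2
  refine measure_mono_null this (measure_iUnion_null fun m => ?_)
  exact le_antisymm ((vol_Pre_le P a (measurableSet_TT m) (TT_sh m)).trans (mu_TT m).le) zero_le

/-- Almost every state that escapes to infinity came from infinity. -/
lemma null_fwd {P : ℂ} {ρ : ℝ} (hP : K.Chart P ρ) :
    volume (strip ρ ∩ K.EP P ∩ (rev ⁻¹' K.EP P)ᶜ) = 0 := by
  have h := null_back hP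
  rw [← mp_rev.measure_preimage (((measurableSet_strip _).inter
    (continuous_rev.measurable (measurableSet_EP P))).inter
      (measurableSet_EP P).compl).nullMeasurableSet] at h
  refine measure_mono_null ?_ h
  rintro z ⟨⟨h1, h2⟩, h3⟩
  refine ⟨⟨?_, ?_⟩, h3⟩
  · simpa [strip, rev] using h1
  · simp only [mem_preimage, rev_rev, EP_sh]; exact h2

omit [Fintype ι] in
lemma esc_not_escR : ∀ (ω : List ι) (P : ℂ) (z : ℝ × ℝ), K.Esc P ω z → ¬ K.EscR P ω z →
    ∃ j, ∀ η > 0, z ∈ K.Lev (K.Near η) j P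
  | [], _, _, h, h' => absurd h h'
  | k :: ω, P, z, h, h' => by
    rcases h.1.1.1.lt_or_eq with hb | hb
    · obtain ⟨j, hj⟩ := esc_not_escR ω (K.c k) _ h.2 (fun h2 => h' ⟨h.1, hb, h2⟩)
      exact ⟨j + 1, fun η hη => ⟨k, h.1, hj η hη⟩⟩
    · exact ⟨0, fun η hη => ⟨k, h.1.1.2, by rw [hb]; simpa using hη⟩⟩

/-- Almost every escaping state escapes without tangencies. -/
lemma null_tan (P : ℂ) : volume (K.EP P ∩ (K.EE P)ᶜ) = 0 := by
  refine null_of_win fun a => ?_
  have : K.EP P ∩ (K.EE P)ᶜ ∩ win a ⊆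
      ⋃ j, {z | ∀ η > 0, z ∈ K.Lev (K.Near η) j P} ∩ win a := by
    rintro z ⟨⟨⟨ω, h1⟩, h2⟩, h3⟩
    obtain ⟨j, hj⟩ := esc_not_escR ω P z h1 (fun h => h2 ⟨ω, h⟩)
    exact mem_iUnion.2 ⟨j, hj, h3⟩
  refine measure_mono_null this (measure_iUnion_null fun j => ?_)
  refine le_antisymm ?_ zero_le
  have ht : Tendsto (fun η : ℝ => ENNReal.ofReal ((Fintype.card ι + 1) ^ 2 * (8 * π * η)))
      (𝓝[>] 0) (𝓝 0) := by
    have : Tendsto (fun η : ℝ => ((Fintype.card ι + 1) ^ 2 * (8 * π * η) : ℝ)) (𝓝 0)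
        (𝓝 ((Fintype.card ι + 1) ^ 2 * (8 * π * 0))) :=
      Continuous.tendsto (by fun_prop) 0
    rw [mul_zero, mul_zero] at this
    have h2 := ENNReal.tendsto_ofReal this
    rw [ENNReal.ofReal_zero] at h2
    exact h2.mono_left nhdsWithin_le_nhds
  refine ge_of_tendsto ht ?_
  filter_upwards [self_mem_nhdsWithin] with η hη
  refine le_trans (measure_mono ?_) (vol_Lev_Near (K := K) η (le_of_lt hη) P a j)
  exact fun z hz => ⟨hz.1 η hη, hz.2⟩

end Cfg

end Pool.Agent.Lib.MP_ab57f0_an
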