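import Pool.Agent.Lib.MP_ab57f0_an.Leaf
import Pool.Agent.Lib.MP_ab57f0_an.Meas

/-! Area carried by families of leaves. -/

set_option autoImplicit false

namespace Pool.Agent.Lib.MP_ab57f0_an

open Real Set MeasureTheory Filter Topology
open scoped ENNReal

namespace Cfg

variable {ι : Type} {K : Cfg ι}

section

variable {P : ℂ} {ω : List ι} {φ β₀ ℓ βm βp : ℝ} {u s : ℝ → ℝ} {σ : ℝ}

lemma IsLeaf.mem (h : K.IsLeaf P ω φ β₀ ℓ βm βp u s σ) : β₀ ∈ Icc βm βp := ⟨h.le1, h.le2⟩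

lemma IsLeaf.len_lo (h : K.IsLeaf P ω φ β₀ ℓ βm βp u s σ) {β β' β'' : ℝ} (hβ : β ∈ Icc βm βp)
    (hβ' : β' ∈ Icc βm βp) (hβ'' : β'' ∈ Icc βm βp) (hle : β ≤ β') :
    σ * u β'' / 2 * (β' - β) ≤ σ * (K.back P ω (φ, β')).1 - σ * (K.back P ω (φ, β)).1 :=
  mvt_ge ordConnected_Icc (f := fun t => σ * (K.back P ω (φ, t)).1) (f' := fun t => σ * u t)
    (fun t ht => (h.hd t ht).1.const_mul σ) (fun t ht => by linarith [h.dist β'' hβ'' t ht])
    hβ hβ' hle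

lemma IsLeaf.len_hi (h : K.IsLeaf P ω φ β₀ ℓ βm βp u s σ) {β β' β'' : ℝ} (hβ : β ∈ Icc βm βp)
    (hβ' : β' ∈ Icc βm βp) (hβ'' : β'' ∈ Icc βm βp) (hle : β ≤ β') :
    σ * (K.back P ω (φ, β')).1 - σ * (K.back P ω (φ, β)).1 ≤ 2 * (σ * u β'') * (β' - β) := by
  have := mvt_ge ordConnected_Icc (C := - (2 * (σ * u β'')))
    (f := fun t => - (σ * (K.back P ω (φ, t)).1)) (f' := fun t => - (σ * u t))
    (fun t ht => ((h.hd t ht).1.const_mul σ).neg)
    (fun t ht => by linarith [h.dist t ht β'' hβ'']) hβ hβ' hle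
  linarith

lemma IsLeaf.slope (h : K.IsLeaf P ω φ β₀ ℓ βm βp u s σ) {β β' : ℝ} (hβ : β ∈ Icc βm βp)
    (hβ' : β' ∈ Icc βm βp) : ∃ a, K.τ ≤ a ∧ a ≤ K.A ∧
      (K.back P ω (φ, β')).2 - (K.back P ω (φ, β)).2
        = - a * ((K.back P ω (φ, β')).1 - (K.back P ω (φ, β)).1) := by
  wlog hle : β ≤ β' generalizing β β'
  · obtain ⟨a, h1, h2, h3⟩ := this hβ' hβ (le_of_not_ge hle)
    exact ⟨a, h1, h2, by linarith⟩
  have m1 := mvt_ge ordConnected_Icc (C := 0)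
    (f := fun t => σ * (K.A * (K.back P ω (φ, t)).1 + (K.back P ω (φ, t)).2))
    (f' := fun t => σ * (K.A * u t + -(s t * u t)))
    (fun t ht => (((h.hd t ht).1.const_mul K.A).add (h.hd t ht).2).const_mul σ)
    (fun t ht => by nlinarith [mul_nonneg (sub_nonneg.2 (h.s1 t ht)) (h.pos t ht).le]) hβ hβ' hle
  have m2 := mvt_ge ordConnected_Icc (C := 0)
    (f := fun t => -σ * (K.τ * (K.back P ω (φ, t)).1 + (K.back P ω (φ, t)).2))
    (f' := fun t => -σ * (K.τ * u t + -(s t * u t)))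
    (fun t ht => (((h.hd t ht).1.const_mul K.τ).add (h.hd t ht).2).const_mul (-σ))
    (fun t ht => by nlinarith [mul_nonneg (sub_nonneg.2 (h.s0 t ht)) (h.pos t ht).le]) hβ hβ' hle
  have m3 := h.len_lo hβ hβ' hβ hle
  have m4 : 0 ≤ σ * u β / 2 * (β' - β) :=
    mul_nonneg (by linarith [h.pos β hβ]) (sub_nonneg.2 hle)
  set X := (K.back P ω (φ, β')).1 - (K.back P ω (φ, β)).1 with hX
  set Y := (K.back P ω (φ, β')).2 - (K.back P ω (φ, β)).2 with hY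
  have a1 : 0 ≤ σ * (K.A * X + Y) := by rw [hX, hY]; linarith
  have a2 : σ * (K.τ * X + Y) ≤ 0 := by rw [hX, hY]; linarith
  have a3 : 0 ≤ σ * X := by rw [hX]; linarith
  have hτA : K.τ ≤ K.A := K.τ_le.trans K.one_le
  by_cases h0 : X = 0
  · refine ⟨K.τ, le_rfl, hτA, ?_⟩
    rw [h0] at a1 a2 ⊢
    rcases h.sg with e | e <;> rw [e] at a1 a2 <;> linarith
  · refine ⟨- Y / X, ?_, ?_, by field_simp⟩
    · rcases h.sg with e | e <;> rw [e] at a1 a2 a3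
      · have : 0 < X := lt_of_le_of_ne (by linarith) (Ne.symm h0)
        rw [le_div_iff₀ this]; linarith
      · have : X < 0 := lt_of_le_of_ne (by linarith) h0
        rw [le_div_iff_of_neg this]; linarith
    · rcases h.sg with e | e <;> rw [e] at a1 a2 a3
      · have : 0 < X := lt_of_le_of_ne (by linarith) (Ne.symm h0)
        rw [div_le_iff₀ this]; linarith
      · have : X < 0 := lt_of_le_of_ne (by linarith) h0
        rw [div_le_iff_of_neg this]; linarith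

/-- A continuous function changing sign between the two ends of a leaf vanishes on it. -/
lemma IsLeaf.ivt (h : K.IsLeaf P ω φ β₀ ℓ βm βp u s σ) {F : ℝ × ℝ → ℝ} (hF : Continuous F)
    (h1 : ∀ β ∈ Icc βm βp, (K.back P ω (φ, β)).1 = (K.back P ω (φ, β₀)).1 + ℓ →
      F (K.back P ω (φ, β)) ≤ 0)
    (h2 : ∀ β ∈ Icc βm βp, (K.back P ω (φ, β)).1 = (K.back P ω (φ, β₀)).1 - ℓ →
      0 ≤ F (K.back P ω (φ, β))) :
    ∃ β ∈ Icc βm βp, F (K.back P ω (φ, β)) = 0 := by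
  have hle := h.le1.trans h.le2
  have hc : Continuous fun β => F (K.back P ω (φ, β)) :=
    hF.comp ((continuous_back ω P).comp (by fun_prop))
  have ep := h.ep
  have em := h.em
  rcases h.sg with e | e <;> rw [e] at ep em
  · exact intermediate_value_Icc' hle hc.continuousOn
      ⟨h1 βp ⟨hle, le_rfl⟩ (by linarith), h2 βm ⟨le_rfl, hle⟩ (by linarith)⟩
  · exact intermediate_value_Icc hle hc.continuousOn
      ⟨h1 βm ⟨le_rfl, hle⟩ (by linarith), h2 βp ⟨hle, le_rfl⟩ (by linarith)⟩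

lemma IsLeaf.hit (h : K.IsLeaf P ω φ β₀ ℓ βm βp u s σ) {y : ℝ}
    (hy : |y - (K.back P ω (φ, β₀)).1| ≤ ℓ) : ∃ β ∈ Icc βm βp, (K.back P ω (φ, β)).1 = y := by
  have := abs_le.1 hy
  obtain ⟨β, h1, h2⟩ := h.ivt (F := fun z => y - z.1) (by fun_prop)
    (fun β _ e => by rw [e]; linarith) (fun β _ e => by rw [e]; linarith)
  exact ⟨β, h1, by linarith⟩

lemma IsLeaf.vol_band (h : K.IsLeaf P ω φ β₀ ℓ βm βp u s σ) {a a' β'' : ℝ} (haa : a ≤ a')
    (ha : |a - (K.back P ω (φ, β₀)).1| ≤ ℓ) (ha' : |a' - (K.back P ω (φ, β₀)).1| ≤ ℓ)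
    (hβ'' : β'' ∈ Icc βm βp) :
    ENNReal.ofReal ((a' - a) / (2 * (σ * u β''))) ≤
      volume {β | β ∈ Icc βm βp ∧ (K.back P ω (φ, β)).1 ∈ Icc a a'} := by
  obtain ⟨β₁, b1, e1⟩ := h.hit ha
  obtain ⟨β₂, b2, e2⟩ := h.hit ha'
  have hp := h.pos β'' hβ''
  have key : ∀ β β', β ∈ Icc βm βp → β' ∈ Icc βm βp → β ≤ β' →
      σ * (K.back P ω (φ, β)).1 ≤ σ * (K.back P ω (φ, β')).1 := fun β β' hβ hβ' hle => by
    have := h.len_lo hβ hβ' hβ hle
    have m4 : 0 ≤ σ * u β / 2 * (β' - β) :=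
      mul_nonneg (by linarith [h.pos β hβ]) (sub_nonneg.2 hle)
    linarith
  rcases le_total β₁ β₂ with hle | hle
  · refine le_trans ?_ (measure_mono (s := Icc β₁ β₂) fun β hβ => ?_)
    · rw [Real.volume_Icc]
      refine ENNReal.ofReal_le_ofReal ?_
      rw [div_le_iff₀ (by linarith)]
      have l1 := h.len_hi b1 b2 hβ'' hle
      have l2 := key _ _ b1 b2 hle
      have l3 : 0 ≤ 2 * (σ * u β'') * (β₂ - β₁) := mul_nonneg (by linarith) (by linarith)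
      rw [e1, e2] at l1 l2
      rcases h.sg with e | e <;> rw [e] at l1 l2 l3 ⊢ <;> linarith
    · have hβ' : β ∈ Icc βm βp := ⟨b1.1.trans hβ.1, hβ.2.trans b2.2⟩
      have l1 := key _ _ b1 hβ' hβ.1
      have l2 := key _ _ hβ' b2 hβ.2
      rw [e1] at l1
      rw [e2] at l2
      refine ⟨hβ', ?_⟩
      rcases h.sg with e | e <;> rw [e] at l1 l2 <;> constructor <;> linarith
  · refine le_trans ?_ (measure_mono (s := Icc β₂ β₁) fun β hβ => ?_)
    · rw [Real.volume_Icc]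
      refine ENNReal.ofReal_le_ofReal ?_
      rw [div_le_iff₀ (by linarith)]
      have l1 := h.len_hi b2 b1 hβ'' hle
      have l2 := key _ _ b2 b1 hle
      have l3 : 0 ≤ 2 * (σ * u β'') * (β₁ - β₂) := mul_nonneg (by linarith) (by linarith)
      rw [e1, e2] at l1 l2
      rcases h.sg with e | e <;> rw [e] at l1 l2 l3 ⊢ <;> linarith
    · have hβ' : β ∈ Icc βm βp := ⟨b2.1.trans hβ.1, hβ.2.trans b1.2⟩
      have l1 := key _ _ b2 hβ' hβ.1
      have l2 := key _ _ hβ' b1 hβ.2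
      rw [e2] at l1
      rw [e1] at l2
      refine ⟨hβ', ?_⟩
      rcases h.sg with e | e <;> rw [e] at l1 l2 <;> constructor <;> linarith

lemma IsLeaf.total (h : K.IsLeaf P ω φ β₀ ℓ βm βp u s σ) : βp - βm ≤ 4 * ℓ / (σ * u β₀) := by
  have hle := h.le1.trans h.le2
  have := h.len_lo ⟨le_rfl, hle⟩ ⟨hle, le_rfl⟩ h.mem hle
  rw [le_div_iff₀ (h.pos β₀ h.mem)]
  have ep := h.ep
  have em := h.em
  linarith

/-- Nearby states with the same itinerary and final direction lie on the leaf. -/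
lemma IsLeaf.mem_of_near (h : K.IsLeaf P ω φ β₀ ℓ βm βp u s σ) {ρ : ℝ} (hP : K.Adm P ρ)
    (hρ : ∀ β ∈ Icc βm βp, |(K.back P ω (φ, β)).2| ≤ ρ) {β : ℝ}
    (hβ : |(K.back P ω (φ, β)).2| ≤ ρ) (he : K.Esc P ω (K.back P ω (φ, β))) (hℓ : ℓ ≤ 1)
    (h1 : |(K.back P ω (φ, β)).1 - (K.back P ω (φ, β₀)).1| ≤ ℓ)
    (h2 : |(K.back P ω (φ, β)).2 - (K.back P ω (φ, β₀)).2| ≤ K.τ * ℓ) : β ∈ Icc βm βp := by
  have hτ := K.τ_pos
  set y := K.back P ω (φ, β) with hy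
  have a1 := abs_le.1 h1
  have a2 := abs_le.1 h2
  have hℓ0 : 0 ≤ ℓ := (abs_nonneg _).trans h1
  obtain ⟨β', b1, b2⟩ := h.ivt (F := fun z => (z.2 - y.2) - K.τ * (z.1 - y.1)) (by fun_prop)
    (fun β' hβ' e => by
      obtain ⟨a, c1, _, c3⟩ := h.slope h.mem hβ'
      rw [e] at c3 ⊢
      nlinarith [mul_le_mul_of_nonneg_right c1 hℓ0])
    (fun β' hβ' e => by
      obtain ⟨a, c1, _, c3⟩ := h.slope h.mem hβ'
      rw [e] at c3 ⊢
      nlinarith [mul_le_mul_of_nonneg_right c1 hℓ0])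
  have r := abs_le.1 (h.rng β' b1)
  have q := not_increasing ω hP (hρ β' b1) hβ (EscR.esc ω (h.esc β' b1)) he
    (by rw [hy, fwd_back, fwd_back]) (by
      rw [abs_lt]; constructor <;> linarith [pi_gt_three])
  have e1 : (K.back P ω (φ, β')).1 - y.1 = 0 := by
    have e : (K.back P ω (φ, β')).2 - y.2 = K.τ * ((K.back P ω (φ, β')).1 - y.1) := by linarith
    rw [e, mul_assoc] at q
    have := nonpos_of_mul_nonpos_right q hτ
    exact mul_self_eq_zero.1 (le_antisymm this (mul_self_nonneg _))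
  have e2 : K.back P ω (φ, β') = y := by
    ext
    · linarith
    · rw [e1] at b2; linarith
  have e3 := congrArg (fun z => (K.fwd P ω z).2) e2
  simp only [hy, fwd_back] at e3
  rwa [← e3]

end

variable [Fintype ι]

lemma vol_esc_eq (P : ℂ) (ω : List ι) {X : Set (ℝ × ℝ)} (hX : MeasurableSet X) :
    volume (X ∩ {z | K.Esc P ω z}) = ∫⁻ φ, volume {β | K.back P ω (φ, β) ∈ X ∧
      K.Esc P ω (K.back P ω (φ, β))} := by
  have m := hX.inter (measurableSet_esc (K := K) ω P)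
  rw [← (mp_back (K := K) ω P).measure_preimage m.nullMeasurableSet, Measure.volume_eq_prod,
    Measure.prod_apply ((continuous_back ω P).measurable m)]
  rfl

lemma sum_esc_le (P : ℂ) {X : Set (ℝ × ℝ)} (hX : MeasurableSet X) :
    ∑' ω : List ι, volume (X ∩ {z | K.Esc P ω z}) ≤ volume (X ∩ K.EP P) := by
  rw [← measure_iUnion ?_ (fun ω => hX.inter (measurableSet_esc ω P))]
  · refine measure_mono fun z hz => ?_
    obtain ⟨ω, h1, h2⟩ := mem_iUnion.1 hz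
    exact ⟨h1, ω, h2⟩
  · intro ω ω' h
    exact Set.disjoint_left.2 fun z h1 h2 => h (Esc.unique ω ω' h1.2 h2.2)

lemma section_le (P : ℂ) {R S : Set (ℝ × ℝ)} (hR : MeasurableSet R) (hS : MeasurableSet S)
    {c : ℝ≥0∞} (hc : c ≠ ⊤)
    (h : ∀ ω φ, volume {β | K.back P ω (φ, β) ∈ R ∧ K.Esc P ω (K.back P ω (φ, β))} ≤
      c * volume {β | K.back P ω (φ, β) ∈ S ∧ K.Esc P ω (K.back P ω (φ, β))}) :
    volume (R ∩ K.EP P) ≤ c * volume S := by
  have : R ∩ K.EP P ⊆ ⋃ ω, R ∩ {z | K.Esc P ω z} := by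
    rintro z ⟨h1, ω, h2⟩
    exact mem_iUnion.2 ⟨ω, h1, h2⟩
  refine (measure_mono this).trans ((measure_iUnion_le _).trans ?_)
  refine le_trans ?_ (mul_le_mul_right ((sum_esc_le (K := K) P hS).trans
    (measure_mono inter_subset_left)) c)
  rw [← ENNReal.tsum_mul_left]
  refine ENNReal.tsum_le_tsum fun ω => ?_
  rw [vol_esc_eq P ω hR, vol_esc_eq P ω hS, ← lintegral_const_mul' _ _ hc]
  exact lintegral_mono (h ω)

/-- Every escaping itinerary of `z` comes with a leaf of size `ℓ`. -/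
def HasLeaf (K : Cfg ι) (P : ℂ) (ℓ : ℝ) (z : ℝ × ℝ) : Prop :=
  ∀ ω φ β₀, K.back P ω (φ, β₀) = z → K.Esc P ω z →
    ∃ βm βp u s σ, K.IsLeaf P ω φ β₀ ℓ βm βp u s σ

lemma launch {P : ℂ} {ρ : ℝ} (hP : K.Adm P ρ) {γ : ℝ → ℝ × ℝ} (hγ : Continuous γ) {J : Set ℝ}
    (hJ : MeasurableSet J) {p a : ℝ → ℝ} {U ℓ ℓ₁ σ' : ℝ} (hU : 0 ≤ U) (hℓ₁ : 0 ≤ ℓ₁)
    (hℓ : 2 * ℓ₁ ≤ ℓ) (hσ' : σ' = 1 ∨ σ' = -1)
    (hd : ∀ t ∈ J, HD γ (p t) (a t * p t) t) (ha : ∀ t ∈ J, K.τ ≤ a t) (hp : ∀ t ∈ J, U ≤ |p t|)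
    (hρ : ∀ t ∈ J, |(γ t).2| ≤ ρ)
    (hinc : ∀ t ∈ J, ∀ t' ∈ J, t ≠ t' →
      0 < ((γ t).2 - (γ t').2) * ((γ t).1 - (γ t').1) ∧ |(γ t).1 - (γ t').1| < π)
    (hE : ∀ t ∈ J, γ t ∈ K.EP P) (hL : ∀ t ∈ J, K.HasLeaf P ℓ (γ t))
    {T : Set (ℝ × ℝ)} (hT : MeasurableSet T)
    (hmem : ∀ t ∈ J, ∀ d c, ℓ₁ ≤ d → d ≤ 2 * ℓ₁ → K.τ ≤ c → c ≤ K.A →
      ((γ t).1 + σ' * d, (γ t).2 - c * (σ' * d)) ∈ T) :
    ENNReal.ofReal (K.τ * U * ℓ₁) * volume J ≤ volume (T ∩ K.EP P) := by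
  have hτ := K.τ_pos
  have h1 : J ⊆ ⋃ ω, J ∩ γ ⁻¹' {z | K.Esc P ω z} := by
    intro t ht
    obtain ⟨ω, h⟩ := hE t ht
    exact mem_iUnion.2 ⟨ω, ht, h⟩
  refine (mul_le_mul_right ((measure_mono h1).trans (measure_iUnion_le _)) _).trans
    (le_trans ?_ (sum_esc_le P hT))
  rw [← ENNReal.tsum_mul_left]
  refine ENNReal.tsum_le_tsum fun ω => ?_
  set Jω := J ∩ γ ⁻¹' {z | K.Esc P ω z} with hJω
  have mJ : MeasurableSet Jω := hJ.inter (hγ.measurable (measurableSet_esc ω P))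
  set Φ : ℝ → ℝ := fun t => (K.fwd P ω (γ t)).1 with hΦ
  set sec : ℝ → ℝ≥0∞ := fun φ => volume {β | K.back P ω (φ, β) ∈ T ∧
      K.Esc P ω (K.back P ω (φ, β))} with hsec
  have key : ∀ t ∈ Jω, HasDerivAt Φ (deriv Φ t) t ∧
      ENNReal.ofReal (K.τ * U * ℓ₁) ≤ ENNReal.ofReal |deriv Φ t| * sec (Φ t) := by
    intro t ht
    have e0 : K.back P ω (Φ t, (K.fwd P ω (γ t)).2) = γ t := back_fwd ω P (γ t)
    obtain ⟨βm, βp, u, s, σ, hl⟩ := hL t ht.1 ω _ _ e0 ht.2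
    set β₀ := (K.fwd P ω (γ t)).2
    obtain ⟨p', q', u', v', w1, w2, w3⟩ := wronskian ω P (γ := γ)
      (Γ := fun β => K.back P ω (Φ t, β)) (e0 ▸ hl.esc β₀ hl.mem) e0 (hd t ht.1) (hl.hd β₀ hl.mem)
    simp only [fwd_back] at w2
    have eu : u' = 0 := w2.1.unique (hasDerivAt_const β₀ (Φ t))
    have ev : v' = 1 := w2.2.unique (hasDerivAt_id β₀)
    have ed : deriv Φ t = p' := w1.1.deriv
    rw [ed]
    refine ⟨w1.1, ?_⟩
    have hpos := hl.pos β₀ hl.mem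
    have hab : |u β₀| = σ * u β₀ := by
      rcases hl.sg with e | e <;> rw [e] at hpos ⊢
      · rw [abs_of_pos (by linarith)]; ring
      · rw [abs_of_neg (by linarith)]; ring
    have hp' : 2 * K.τ * U * (σ * u β₀) ≤ |p'| := by
      have e : p' = -((s β₀ + a t) * p t * u β₀) := by
        rw [eu, ev] at w3; linarith
      have s0 := hl.s0 β₀ hl.mem
      have s1 := ha t ht.1
      rw [e, abs_neg, abs_mul, abs_mul, hab, abs_of_pos (by linarith)]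
      exact mul_le_mul_of_nonneg_right
        (mul_le_mul (by linarith) (hp t ht.1) hU (by linarith)) hpos.le
    have hband : ENNReal.ofReal (ℓ₁ / (2 * (σ * u β₀))) ≤ sec (Φ t) := by
      have hsub : ∀ β ∈ Icc βm βp, ∀ d, ℓ₁ ≤ d → d ≤ 2 * ℓ₁ →
          (K.back P ω (Φ t, β)).1 = (γ t).1 + σ' * d →
          K.back P ω (Φ t, β) ∈ T ∧ K.Esc P ω (K.back P ω (Φ t, β)) := by
        intro β hβ d d1 d2 e
        refine ⟨?_, EscR.esc ω (hl.esc β hβ)⟩
        obtain ⟨c, c1, c2, c3⟩ := hl.slope hl.mem hβ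
        rw [e0, e] at c3
        have := hmem t ht.1 d c d1 d2 c1 c2
        have e2 : K.back P ω (Φ t, β) = ((γ t).1 + σ' * d, (γ t).2 - c * (σ' * d)) := by
          ext
          · exact e
          · simp only; linarith
        rwa [e2]
      rcases hσ' with e | e
      · have := hl.vol_band (a := (γ t).1 + ℓ₁) (a' := (γ t).1 + 2 * ℓ₁) (by linarith)
          (by rw [e0, abs_le]; constructor <;> linarith)
          (by rw [e0, abs_le]; constructor <;> linarith) hl.mem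
        rw [show (γ t).1 + 2 * ℓ₁ - ((γ t).1 + ℓ₁) = ℓ₁ by ring] at this
        refine this.trans (measure_mono fun β hβ => ?_)
        exact hsub β hβ.1 ((K.back P ω (Φ t, β)).1 - (γ t).1) (by linarith [hβ.2.1])
          (by linarith [hβ.2.2]) (by rw [e]; ring)
      · have := hl.vol_band (a := (γ t).1 - 2 * ℓ₁) (a' := (γ t).1 - ℓ₁) (by linarith)
          (by rw [e0, abs_le]; constructor <;> linarith)
          (by rw [e0, abs_le]; constructor <;> linarith) hl.mem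
        rw [show (γ t).1 - ℓ₁ - ((γ t).1 - 2 * ℓ₁) = ℓ₁ by ring] at this
        refine this.trans (measure_mono fun β hβ => ?_)
        exact hsub β hβ.1 ((γ t).1 - (K.back P ω (Φ t, β)).1) (by linarith [hβ.2.2])
          (by linarith [hβ.2.1]) (by rw [e]; ring)
    refine le_trans ?_ (mul_le_mul' (ENNReal.ofReal_le_ofReal hp') hband)
    rw [← ENNReal.ofReal_mul (by positivity)]
    refine ENNReal.ofReal_le_ofReal (le_of_eq ?_)
    generalize σ * u β₀ = V at hpos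
    field_simp
  have hinj : InjOn Φ Jω := by
    intro t ht t' ht' e
    by_contra hne
    have h2 := hinc t ht.1 t' ht'.1 hne
    have := not_increasing ω hP (hρ t ht.1) (hρ t' ht'.1) ht.2 ht'.2 e h2.2
    linarith [h2.1]
  rw [vol_esc_eq P ω hT]
  refine le_trans ?_ (setLIntegral_le_lintegral (Φ '' Jω) sec)
  rw [lintegral_image_eq_lintegral_abs_deriv_mul mJ
    (fun t ht => (key t ht).1.hasDerivWithinAt) hinj, ← setLIntegral_const]
  exact setLIntegral_mono' mJ fun t ht => (key t ht).2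

end Cfg

end Pool.Agent.Lib.MP_ab57f0_an
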