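import Pool.Agent.Lib.MP_ab57f0_an.Growth

/-! Long stable leaves through robustly escaping states. -/

set_option autoImplicit false

namespace Pool.Agent.Lib.MP_ab57f0_an

open Real Set MeasureTheory Filter Topology

lemma shrink {θ u : ℝ → ℝ} {βm β₀ βp σ ℓ : ℝ} (h1 : βm ≤ β₀) (h2 : β₀ ≤ βp) (hℓ : 0 ≤ ℓ)
    (hσ : σ = 1 ∨ σ = -1) (hd : ∀ β ∈ Icc βm βp, HasDerivAt θ (u β) β)
    (hpos : ∀ β ∈ Icc βm βp, 0 < σ * u β) (ep : ℓ ≤ σ * (θ βp - θ β₀))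
    (em : ℓ ≤ σ * (θ β₀ - θ βm)) :
    ∃ βm' ∈ Icc βm β₀, ∃ βp' ∈ Icc β₀ βp, σ * (θ βp' - θ β₀) = ℓ ∧ σ * (θ β₀ - θ βm') = ℓ ∧
      ∀ β ∈ Icc βm' βp', |θ β - θ β₀| ≤ ℓ := by
  have hc : ContinuousOn (fun β => σ * (θ β - θ β₀)) (Icc βm βp) := fun β hβ =>
    (((hd β hβ).sub_const _).const_mul σ).continuousAt.continuousWithinAt
  obtain ⟨βp', a1, a2⟩ := intermediate_value_Icc h2 (hc.mono (Icc_subset_Icc_left h1))
    (show ℓ ∈ Icc _ _ from ⟨by simpa using hℓ, ep⟩)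
  obtain ⟨βm', b1, b2⟩ := intermediate_value_Icc h1 (hc.mono (Icc_subset_Icc_right h2))
    (show -ℓ ∈ Icc _ _ from ⟨by linarith, by simpa using hℓ⟩)
  simp only at a2 b2
  refine ⟨βm', b1, βp', a1, a2, by linarith, fun β hβ => ?_⟩
  have hm : ∀ x ∈ Icc βm βp, ∀ y ∈ Icc βm βp, x ≤ y → 0 * (y - x) ≤ σ * θ y - σ * θ x :=
    fun x hx y hy hxy => mvt_ge ordConnected_Icc (f := fun β => σ * θ β)
      (f' := fun β => σ * u β) (fun t ht => (hd t ht).const_mul σ) (fun t ht => (hpos t ht).le)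
      hx hy hxy
  have hβ' : β ∈ Icc βm βp := ⟨b1.1.trans hβ.1, hβ.2.trans a1.2⟩
  have c1 := hm β hβ' βp' ⟨h1.trans a1.1, a1.2⟩ hβ.2
  have c2 := hm βm' ⟨b1.1, b1.2.trans h2⟩ β hβ' hβ.1
  rw [abs_le]
  rcases hσ with h | h <;> rw [h] at a2 b2 c1 c2 <;> constructor <;> linarith

lemma hh_ratio {τ A r m ℓ x y y' : ℝ} (hτ : 0 < τ) (hr : τ ≤ r) (hA : r ≤ A) (hm : 0 < m)
    (hx : ℓ ≤ x * m) (hy : |y| ≤ r - m / 2) (hy' : |y'| ≤ r - m / 2) (hd : |y - y'| ≤ 4 * A * ℓ) :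
    hh r y ≤ (1 + 16 * A ^ 2 / τ * x) * hh r y' := by
  have a1 := hh_sq (ρ := r) (b := y) (by linarith)
  have a2 := hh_sq (ρ := r) (b := y') (by linarith)
  have n2 := hh_nonneg r y'
  have hA0 : 0 < A := by linarith
  have hℓ : 0 ≤ ℓ := by
    by_contra hc
    push Not at hc
    nlinarith [abs_nonneg (y - y')]
  have hx0 : 0 ≤ x := by
    by_contra hc
    push Not at hc
    nlinarith
  have hc0 : 0 ≤ 16 * A ^ 2 / τ * x := by positivity
  apply abs_le_of_sq_le_sq' ?_ (by positivity) |>.2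
  have e : y' ^ 2 - y ^ 2 ≤ 8 * A ^ 2 * (x * m) := by
    have : y' ^ 2 - y ^ 2 = - ((y - y') * (y + y')) := by ring
    rw [this]
    refine (neg_le_abs _).trans ?_
    rw [abs_mul]
    have : |y + y'| ≤ 2 * A := (abs_add_le _ _).trans (by linarith)
    calc _ ≤ (4 * A * ℓ) * (2 * A) := mul_le_mul hd this (abs_nonneg _) (by positivity)
      _ = 8 * A ^ 2 * ℓ := by ring
      _ ≤ _ := by gcongr
  have l2 : τ * m / 2 ≤ hh r y' ^ 2 := by
    rw [a2, ← sq_abs y']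
    nlinarith [abs_nonneg y']
  have e2 : 8 * A ^ 2 * (x * m) ≤ 16 * A ^ 2 / τ * x * hh r y' ^ 2 := by
    calc _ = 16 * A ^ 2 / τ * x * (τ * m / 2) := by field_simp; ring
      _ ≤ _ := by gcongr
  set c := 16 * A ^ 2 / τ * x
  nlinarith [mul_nonneg hc0 (sq_nonneg (hh r y')), mul_nonneg (mul_nonneg hc0 hc0)
    (sq_nonneg (hh r y'))]

lemma hh_diff {τ A r m ℓ x y y' : ℝ} (hτ : 0 < τ) (hr : τ ≤ r) (hA : r ≤ A) (hm : 0 < m)
    (hx0 : 0 ≤ x)
    (hx : ℓ ≤ x * m) (hy : |y| ≤ r - m / 2) (hy' : |y'| ≤ r - m / 2) (hd : |y - y'| ≤ 4 * A * ℓ) :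
    |hh r y - hh r y'| ≤ A * (16 * A ^ 2 / τ * x) := by
  have a1 := hh_ratio hτ hr hA hm hx hy hy' hd
  have a2 := hh_ratio hτ hr hA hm hx hy' hy (by rwa [abs_sub_comm])
  have l1 : hh r y ≤ A := (hh_le (by linarith)).trans hA
  have l2 : hh r y' ≤ A := (hh_le (by linarith)).trans hA
  have hc0 : 0 ≤ 16 * A ^ 2 / τ * x := by positivity
  set c := 16 * A ^ 2 / τ * x
  rw [abs_le]
  constructor <;> nlinarith

lemma focal_diff {s s' h h' : ℝ} (h0 : 0 < h) (h0' : 0 < h') (h1 : h ≤ s) (h1' : h' ≤ s') :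
    |s * h / (2 * s - h) - s' * h' / (2 * s' - h')| ≤ 2 * |h - h'| + |s - s'| := by
  have d1 : 0 < 2 * s - h := by linarith
  have d2 : 0 < 2 * s' - h' := by linarith
  have e : s * h / (2 * s - h) - s' * h' / (2 * s' - h')
      = (2 * (s * s') * (h - h') - (h * h') * (s - s')) / ((2 * s - h) * (2 * s' - h')) := by
    rw [div_sub_div _ _ d1.ne' d2.ne']; congr 1; ring
  rw [e, abs_div, abs_of_pos (mul_pos d1 d2), div_le_iff₀ (mul_pos d1 d2)]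
  have p1 : s * s' ≤ (2 * s - h) * (2 * s' - h') :=
    mul_le_mul (by linarith) (by linarith) (by linarith) d1.le
  have p2 : h * h' ≤ s * s' := mul_le_mul h1 h1' h0'.le (by linarith)
  have p3 : 0 < h * h' := mul_pos h0 h0'
  refine (abs_sub _ _).trans ?_
  rw [abs_mul, abs_mul (h * h'), abs_of_nonneg (by linarith), abs_of_pos p3]
  nlinarith [abs_nonneg (h - h'), abs_nonneg (s - s')]

lemma ratio_step {τ a a' s s' H H' y₀ y₁ y₂ y : ℝ} (hτ : 0 < τ) (p1 : 0 < H) (p2 : 0 < H')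
    (q1 : H + τ ≤ s) (q2 : H' + τ ≤ s') (n1 : 0 ≤ a') (y10 : 0 ≤ y₁) (a1 : a ≤ exp y₀ * a')
    (a4 : H' ≤ (1 + y₂) * H) (a2 : 2 * s - H ≤ 2 * s' - H' + y₁ * τ) (a3 : y₀ + y₁ + y₂ ≤ y) :
    a * ((2 * s - H) / H) ≤ exp y * (a' * ((2 * s' - H') / H')) := by
  have b1 : 2 * s - H ≤ exp y₁ * (2 * s' - H') := by
    have := add_one_le_exp y₁
    nlinarith [mul_le_mul_of_nonneg_left (show τ ≤ 2 * s' - H' by linarith) y10,
      mul_le_mul_of_nonneg_right this (show 0 ≤ 2 * s' - H' by linarith)]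
  have b2 : H' ≤ exp y₂ * H := by
    have := add_one_le_exp y₂
    exact a4.trans (mul_le_mul_of_nonneg_right (by linarith) p1.le)
  have b3 : (2 * s - H) / H ≤ exp y₁ * exp y₂ * ((2 * s' - H') / H') := by
    rw [← mul_div_assoc, div_le_div_iff₀ p1 p2]
    calc _ ≤ (exp y₁ * (2 * s' - H')) * (exp y₂ * H) :=
          mul_le_mul b1 b2 p2.le (mul_nonneg (exp_pos _).le (by linarith))
      _ = _ := by ring
  have b4 : exp y₀ * (exp y₁ * exp y₂) ≤ exp y := by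
    rw [← exp_add, ← exp_add]
    apply exp_le_exp.2
    linarith
  have n2 : 0 ≤ (2 * s' - H') / H' := div_nonneg (by linarith) p2.le
  calc _ ≤ (exp y₀ * a') * (exp y₁ * exp y₂ * ((2 * s' - H') / H')) :=
        mul_le_mul a1 b3 (div_nonneg (by linarith) p1.le) (mul_nonneg (exp_pos _).le n1)
    _ = (exp y₀ * (exp y₁ * exp y₂)) * (a' * ((2 * s' - H') / H')) := by ring
    _ ≤ _ := mul_le_mul_of_nonneg_right b4 (mul_nonneg n1 n2)

namespace Cfg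

variable {ι : Type} (K : Cfg ι)

noncomputable def lam : ℝ := 1 + 2 * K.τ / K.A

noncomputable def nu : ℝ := (1 + 1 / K.lam) / 2

lemma one_lt_lam : 1 < K.lam := by
  have : 0 < 2 * K.τ / K.A := div_pos (by linarith [K.τ_pos]) K.A_pos
  unfold lam; linarith

lemma half_le_nu : 1 / 2 ≤ K.nu := by
  have : 0 < 1 / K.lam := div_pos one_pos (by linarith [K.one_lt_lam])
  unfold nu; linarith

lemma nu_pos : 0 < K.nu := by linarith [K.half_le_nu]

lemma nu_lt_one : K.nu < 1 := by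
  have : 1 / K.lam < 1 := by rw [div_lt_one (by linarith [K.one_lt_lam])]; exact K.one_lt_lam
  unfold nu; linarith

lemma one_lt_lam_nu : 1 < K.lam * K.nu := by
  have h := K.one_lt_lam
  have : K.lam * K.nu = (K.lam + 1) / 2 := by
    unfold nu; field_simp
  rw [this]; linarith

/-- Robustly escaping states. -/
def Rob (P : ℂ) (ω : List ι) (z : ℝ × ℝ) (m : ℝ) : Prop :=
  K.Esc P ω z ∧ ∀ j, z ∉ K.Lev (K.NM (m * K.nu ^ j)) j P

variable {K}

lemma Rob.zero {P : ℂ} {ω : List ι} {z : ℝ × ℝ} {m : ℝ} (h : K.Rob P ω z m) : z ∉ K.NM m P := by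
  have := h.2 0
  rwa [pow_zero, mul_one] at this

lemma Rob.succ {P : ℂ} {k : ι} {ω : List ι} {z : ℝ × ℝ} {m : ℝ} (h : K.Rob P (k :: ω) z m) :
    K.Rob (K.c k) ω (K.step P k z) (m * K.nu) := by
  refine ⟨h.1.2, fun j hj => h.2 (j + 1) ⟨k, h.1.1, ?_⟩⟩
  rwa [pow_succ', ← mul_assoc]

/-- Properties of the family of incoming lines at disk `k` with fixed final direction. -/
structure Core (K : Cfg ι) (Cf CW x : ℝ) (k : ι) (ω : List ι) (φ βm βp : ℝ) (u f : ℝ → ℝ)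
    (σ : ℝ) : Prop where
  sg : σ = 1 ∨ σ = -1
  du : ∀ β ∈ Icc βm βp, HasDerivAt (fun t => K.inc k (K.back (K.c k) ω (φ, t))) (u β) β
  dv : ∀ β ∈ Icc βm βp, HasDerivAt (fun t => (K.back (K.c k) ω (φ, t)).2) (f β * u β) β
  pos : ∀ β ∈ Icc βm βp, 0 < σ * u β
  f0 : ∀ β ∈ Icc βm βp, 0 ≤ f β
  f1 : ∀ β ∈ Icc βm βp, f β ≤ hh (K.r k) (K.back (K.c k) ω (φ, β)).2
  reg : ∀ β ∈ Icc βm βp, |(K.back (K.c k) ω (φ, β)).2| < K.r k
  esc : ∀ β ∈ Icc βm βp, K.EscR (K.c k) ω (K.back (K.c k) ω (φ, β))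
  lipf : ∀ β ∈ Icc βm βp, ∀ β' ∈ Icc βm βp, |f β - f β'| ≤ Cf * x
  dist : ∀ β ∈ Icc βm βp, ∀ β' ∈ Icc βm βp, σ * u β ≤ exp (CW * x) * (σ * u β')

lemma Core.restrict {Cf CW x : ℝ} {k : ι} {ω : List ι} {φ βm βp βm' βp' : ℝ} {u f : ℝ → ℝ}
    {σ : ℝ} (h : K.Core Cf CW x k ω φ βm βp u f σ) (h1 : βm ≤ βm') (h2 : βp' ≤ βp) :
    K.Core Cf CW x k ω φ βm' βp' u f σ :=
  have hs := Icc_subset_Icc h1 h2
  ⟨h.sg, fun β hβ => h.du β (hs hβ), fun β hβ => h.dv β (hs hβ), fun β hβ => h.pos β (hs hβ),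
    fun β hβ => h.f0 β (hs hβ), fun β hβ => h.f1 β (hs hβ), fun β hβ => h.reg β (hs hβ),
    fun β hβ => h.esc β (hs hβ), fun β hβ β' hβ' => h.lipf β (hs hβ) β' (hs hβ'),
    fun β hβ β' hβ' => h.dist β (hs hβ) β' (hs hβ')⟩

/-- An incoming family whose angle ranges exactly over an interval of half length `ℓ`. -/
def InLeaf (K : Cfg ι) (Cf CW x : ℝ) (k : ι) (ω : List ι) (φ β₀ ℓ : ℝ) : Prop :=
  ∃ βm βp u f σ, βm ≤ β₀ ∧ β₀ ≤ βp ∧ K.Core Cf CW x k ω φ βm βp u f σ ∧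
    σ * (K.inc k (K.back (K.c k) ω (φ, βp)) - K.inc k (K.back (K.c k) ω (φ, β₀))) = ℓ ∧
    σ * (K.inc k (K.back (K.c k) ω (φ, β₀)) - K.inc k (K.back (K.c k) ω (φ, βm))) = ℓ ∧
    ∀ β ∈ Icc βm βp,
      |K.inc k (K.back (K.c k) ω (φ, β)) - K.inc k (K.back (K.c k) ω (φ, β₀))| ≤ ℓ

lemma Core.inLeaf {Cf CW x : ℝ} {k : ι} {ω : List ι} {φ βm βp β₀ ℓ : ℝ} {u f : ℝ → ℝ}
    {σ : ℝ} (h : K.Core Cf CW x k ω φ βm βp u f σ) (h1 : βm ≤ β₀) (h2 : β₀ ≤ βp) (hℓ : 0 ≤ ℓ)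
    (ep : ℓ ≤ σ * (K.inc k (K.back (K.c k) ω (φ, βp)) - K.inc k (K.back (K.c k) ω (φ, β₀))))
    (em : ℓ ≤ σ * (K.inc k (K.back (K.c k) ω (φ, β₀)) - K.inc k (K.back (K.c k) ω (φ, βm)))) :
    K.InLeaf Cf CW x k ω φ β₀ ℓ := by
  obtain ⟨βm', a1, βp', a2, a3, a4, a5⟩ := shrink h1 h2 hℓ h.sg h.du h.pos ep em
  exact ⟨βm', βp', u, f, σ, a1.2, a2.1, h.restrict a1.1 a2.2, a3, a4, a5⟩

/-- Variation of the impact parameter along an incoming family. -/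
lemma Core.b_var {Cf CW x : ℝ} {k : ι} {ω : List ι} {φ βm βp : ℝ} {u f : ℝ → ℝ}
    {σ : ℝ} (h : K.Core Cf CW x k ω φ βm βp u f σ) {β β' : ℝ} (hβ : β ∈ Icc βm βp)
    (hβ' : β' ∈ Icc βm βp) :
    |(K.back (K.c k) ω (φ, β)).2 - (K.back (K.c k) ω (φ, β')).2| ≤
      K.A * |K.inc k (K.back (K.c k) ω (φ, β)) - K.inc k (K.back (K.c k) ω (φ, β'))| := by
  wlog hle : β' ≤ β generalizing β β'
  · rw [abs_sub_comm, abs_sub_comm (K.inc k _)]
    exact this hβ' hβ (le_of_not_ge hle)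
  have hfA : ∀ t ∈ Icc βm βp, f t ≤ K.A := fun t ht =>
    (h.f1 t ht).trans ((hh_le (K.r_pos k).le).trans (K.r_le k))
  have m1 := mvt_ge ordConnected_Icc (C := 0)
    (f := fun t => σ * (K.back (K.c k) ω (φ, t)).2) (f' := fun t => σ * (f t * u t))
    (fun t ht => (h.dv t ht).const_mul σ)
    (fun t ht => by nlinarith [mul_nonneg (h.f0 t ht) (h.pos t ht).le]) hβ' hβ hle
  have m2 := mvt_ge ordConnected_Icc (C := 0)
    (f := fun t => σ * (K.A * K.inc k (K.back (K.c k) ω (φ, t)) - (K.back (K.c k) ω (φ, t)).2))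
    (f' := fun t => σ * (K.A * u t - f t * u t))
    (fun t ht => (((h.du t ht).const_mul K.A).sub (h.dv t ht)).const_mul σ)
    (fun t ht => by nlinarith [mul_nonneg (sub_nonneg.2 (hfA t ht)) (h.pos t ht).le]) hβ' hβ hle
  have hA := K.A_pos
  set D := K.inc k (K.back (K.c k) ω (φ, β)) - K.inc k (K.back (K.c k) ω (φ, β')) with hD
  have l1 := mul_le_mul_of_nonneg_left (le_abs_self D) hA.le
  have l2 := mul_le_mul_of_nonneg_left (neg_abs_le D) hA.le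
  have n := mul_nonneg hA.le (abs_nonneg D)
  rw [abs_le]
  rcases h.sg with e | e <;> rw [e] at m1 m2 <;> constructor <;> nlinarith

lemma inLeaf_nil {Cf CW : ℝ} (hCf : K.A * (16 * K.A ^ 2 / K.τ) ≤ Cf)
    (hCW : 16 * K.A ^ 2 / K.τ ≤ CW) {k : ι} {φ β₀ ℓ m x : ℝ} (hℓ : 0 < ℓ) (hx : ℓ ≤ x * m)
    (hx1 : 8 * K.A * x ≤ 1) (hm : 0 < m) (hb : |β₀| ≤ K.r k - m)
    (hR : K.Rob (K.c k) [] (φ, β₀) (m * K.nu)) : K.InLeaf Cf CW x k [] φ β₀ ℓ := by
  have hA := K.A_pos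
  have hτ := K.τ_pos
  have hx0 : 0 < x := by
    by_contra hc
    push Not at hc
    nlinarith
  have hAℓ : K.A * ℓ ≤ m / 8 := by nlinarith
  have hI : ∀ β ∈ Icc (β₀ - K.A * ℓ) (β₀ + K.A * ℓ), |β| ≤ K.r k - m / 2 := fun β hβ => by
    have := abs_le.1 hb
    rw [abs_le]; constructor <;> linarith [hβ.1, hβ.2]
  have hI' : ∀ β ∈ Icc (β₀ - K.A * ℓ) (β₀ + K.A * ℓ), |β| < K.r k := fun β hβ => by
    linarith [hI β hβ]
  have hd : ∀ β ∈ Icc (β₀ - K.A * ℓ) (β₀ + K.A * ℓ), ∀ β' ∈ Icc (β₀ - K.A * ℓ) (β₀ + K.A * ℓ),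
      |β - β'| ≤ 4 * K.A * ℓ := fun β hβ β' hβ' => by
    rw [abs_le]; constructor <;> nlinarith [hβ.1, hβ.2, hβ'.1, hβ'.2]
  have hdu : ∀ β ∈ Icc (β₀ - K.A * ℓ) (β₀ + K.A * ℓ),
      HasDerivAt (fun t => K.inc k (φ, t)) (2 / hh (K.r k) β) β := fun β hβ => by
    have h0 : HD (fun t : ℝ => (φ, t)) 0 1 β := ⟨hasDerivAt_const β φ, hasDerivAt_id β⟩
    have := hd_inc h0 k (hI' β hβ)
    rwa [zero_add, mul_one_div] at this
  have hC : K.Core Cf CW x k [] φ (β₀ - K.A * ℓ) (β₀ + K.A * ℓ) (fun β => 2 / hh (K.r k) β)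
      (fun β => hh (K.r k) β / 2) 1 := by
    refine ⟨Or.inl rfl, hdu, fun β hβ => ?_, fun β hβ => ?_, fun β hβ => ?_, fun β hβ => ?_,
      hI', fun β hβ => ?_, fun β hβ β' hβ' => ?_, fun β hβ β' hβ' => ?_⟩
    · have := (hh_pos (hI' β hβ)).ne'
      have e : hh (K.r k) β / 2 * (2 / hh (K.r k) β) = 1 := by field_simp
      rw [e]; exact hasDerivAt_id β
    · rw [one_mul]; exact div_pos two_pos (hh_pos (hI' β hβ))
    · exact div_nonneg (hh_nonneg _ _) two_pos.le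
    · exact half_le_self (hh_nonneg _ _)
    · refine free_perturb (K.adm_c k) (z := (φ, β₀)) (hI' β hβ).le hR.1 hR.zero ?_ ?_
      · simp only [back, sub_self, abs_zero, mul_zero, add_zero]
        have := K.half_le_nu
        rw [abs_lt]; constructor <;> nlinarith [hβ.1, hβ.2]
      · simpa [back] using hτ
    · have := hh_diff hτ (K.τ_le_r k) (K.r_le k) hm hx0.le hx (hI β hβ) (hI β' hβ')
        (hd β hβ β' hβ')
      rw [← sub_div, abs_div, abs_two]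
      have h2 := mul_le_mul_of_nonneg_right hCf hx0.le
      linarith [abs_nonneg (hh (K.r k) β - hh (K.r k) β')]
    · have := hh_ratio hτ (K.τ_le_r k) (K.r_le k) hm hx (hI β' hβ') (hI β hβ)
        (hd β' hβ' β hβ)
      have p1 := hh_pos (hI' β hβ)
      have p2 := hh_pos (hI' β' hβ')
      have h2 := mul_le_mul_of_nonneg_right hCW hx0.le
      have h3 := add_one_le_exp (CW * x)
      rw [one_mul, one_mul, ← mul_div_assoc, div_le_div_iff₀ p1 p2]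
      nlinarith [mul_le_mul_of_nonneg_right (show 1 + 16 * K.A ^ 2 / K.τ * x ≤ exp (CW * x) by
        linarith) p1.le]
  have hmv : ∀ β ∈ Icc (β₀ - K.A * ℓ) (β₀ + K.A * ℓ), ∀ β' ∈ Icc (β₀ - K.A * ℓ) (β₀ + K.A * ℓ),
      β ≤ β' → 1 / K.A * (β' - β) ≤ K.inc k (φ, β') - K.inc k (φ, β) := fun β hβ β' hβ' h =>
    mvt_ge ordConnected_Icc hdu (fun t ht => by
      rw [div_le_div_iff₀ hA (hh_pos (hI' t ht))]
      have := (hh_le (b := t) (K.r_pos k).le).trans (K.r_le k)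
      linarith) hβ hβ' h
  have hp : 0 ≤ K.A * ℓ := by positivity
  refine hC.inLeaf (by linarith) (by linarith) hℓ.le ?_ ?_
  · have := hmv β₀ ⟨by linarith, by linarith⟩ (β₀ + K.A * ℓ) ⟨by linarith, le_rfl⟩ (by linarith)
    have e : 1 / K.A * (β₀ + K.A * ℓ - β₀) = ℓ := by field_simp; ring
    rw [e] at this
    rw [one_mul]; exact this
  · have := hmv (β₀ - K.A * ℓ) ⟨le_rfl, by linarith⟩ β₀ ⟨by linarith, by linarith⟩ (by linarith)
    have e : 1 / K.A * (β₀ - (β₀ - K.A * ℓ)) = ℓ := by field_simp; ring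
    rw [e] at this
    rw [one_mul]; exact this

/-- Pulling an incoming family back to the previous base point. -/
lemma Core.pull {Cf CW x : ℝ} {k : ι} {ω : List ι} {φ βm βp β₀ ℓ m : ℝ} {u f : ℝ → ℝ}
    {σ : ℝ} (h : K.Core Cf CW x k ω φ βm βp u f σ) (h0 : β₀ ∈ Icc βm βp)
    (rng : ∀ β ∈ Icc βm βp,
      |K.inc k (K.back (K.c k) ω (φ, β)) - K.inc k (K.back (K.c k) ω (φ, β₀))| ≤ ℓ)
    {P : ℂ} {ρ : ℝ} (hP : K.Adm P ρ) (hb : |(K.back P (k :: ω) (φ, β₀)).2| + 2 * K.A * ℓ ≤ ρ)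
    (hn : K.Next P (K.back P (k :: ω) (φ, β₀)) k) (hm : K.back P (k :: ω) (φ, β₀) ∉ K.NM m P)
    (h1 : 3 * K.A * ℓ < m) (h2 : 2 * K.A * ℓ < K.τ) {β : ℝ} (hβ : β ∈ Icc βm βp) :
    |(K.back P (k :: ω) (φ, β)).2 - (K.back P (k :: ω) (φ, β₀)).2| ≤ 2 * K.A * ℓ ∧
    K.EscR P (k :: ω) (K.back P (k :: ω) (φ, β)) ∧
    hh ρ (K.back P (k :: ω) (φ, β)).2 + K.τ ≤ K.e P (K.back P (k :: ω) (φ, β)) k - f β ∧
    K.e P (K.back P (k :: ω) (φ, β)) k - f β ≤ K.A ∧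
    HD (fun t => K.back P (k :: ω) (φ, t)) (u β)
      (-((K.e P (K.back P (k :: ω) (φ, β)) k - f β) * u β)) β := by
  have hA := K.A_pos
  have r1 := rng β hβ
  have r2 := mul_le_mul_of_nonneg_left r1 hA.le
  have hℓ : 0 ≤ ℓ := (abs_nonneg _).trans r1
  have a1 : |(K.back P (k :: ω) (φ, β)).2 - (K.back P (k :: ω) (φ, β₀)).2| ≤ 2 * K.A * ℓ := by
    have v1 := h.b_var hβ h0
    have v2 := hP.abs_ss_sub (K.inc k (K.back (K.c k) ω (φ, β)))
      (K.inc k (K.back (K.c k) ω (φ, β₀))) k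
    simp only [back, unstep]
    have w1 := abs_le.1 (v1.trans r2)
    have w2 := abs_le.1 (v2.trans r2)
    rw [abs_le]; constructor <;> linarith
  have a2 : |(K.back P (k :: ω) (φ, β)).2| ≤ ρ := by
    have := abs_sub_abs_le_abs_sub (K.back P (k :: ω) (φ, β)).2 (K.back P (k :: ω) (φ, β₀)).2
    linarith
  have a3 : |(K.back P (k :: ω) (φ, β₀)).1 - (K.back P (k :: ω) (φ, β)).1| ≤ ℓ := by
    rw [abs_sub_comm]; exact r1
  have a4 := mul_le_mul_of_nonneg_left a3 hA.le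
  have a5 := hn.perturb hP (z' := K.back P (k :: ω) (φ, β)) (by nlinarith) a2 hm
    (by rw [abs_sub_comm]; linarith) (by linarith)
  have a6 := hP.gap a2 a5.1.1
  have a7 : K.b P (K.back P (k :: ω) (φ, β)) k = (K.back (K.c k) ω (φ, β)).2 := b_unstep _ _ _
  refine ⟨a1, ⟨a5.1, a5.2, ?_⟩, ?_, ?_, ?_⟩
  · simp only [back, step_unstep]; exact h.esc β hβ
  · rw [a7] at a6; linarith [h.f1 β hβ]
  · linarith [h.f0 β hβ, (abs_le.1 (hP.abs_e_le (K.back P (k :: ω) (φ, β)) k)).2]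
  · exact (hd_unstep P k (h.du β hβ) (h.dv β hβ)).congr rfl (by simp only [back]; ring)

lemma inLeaf {Cf CW : ℝ}
    (hCf : 2 * (K.A * (16 * K.A ^ 2 / K.τ)) + 2 * K.A + Cf / (K.lam * K.nu) ≤ Cf)
    (hCW : CW / (K.lam * K.nu) + (2 * (2 * K.A + Cf) + K.A * (16 * K.A ^ 2 / K.τ)) / K.τ
      + 16 * K.A ^ 2 / K.τ ≤ CW) (hCf0 : 0 ≤ Cf) (hCW0 : 0 ≤ CW) :
    ∀ (ω : List ι) {k : ι} {φ β₀ ℓ m x : ℝ}, 0 < ℓ → ℓ ≤ x * m → 8 * K.A * x ≤ 1 → 0 < m →
      m ≤ K.τ → |(K.back (K.c k) ω (φ, β₀)).2| ≤ K.r k - m →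
      K.Rob (K.c k) ω (K.back (K.c k) ω (φ, β₀)) (m * K.nu) → K.InLeaf Cf CW x k ω φ β₀ ℓ
  | [], k, φ, β₀, ℓ, m, x, hℓ, hx, hx1, hm, _, hb, hR => by
    have hA := K.A_pos
    have hτ := K.τ_pos
    have hln := K.one_lt_lam_nu
    refine inLeaf_nil ?_ ?_ hℓ hx hx1 hm hb hR
    · have : 0 ≤ Cf / (K.lam * K.nu) := by positivity
      have : 0 ≤ K.A * (16 * K.A ^ 2 / K.τ) := by positivity
      linarith
    · have : 0 ≤ CW / (K.lam * K.nu) := by positivity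
      have : 0 ≤ (2 * (2 * K.A + Cf) + K.A * (16 * K.A ^ 2 / K.τ)) / K.τ := by positivity
      linarith
  | k' :: ω, k, φ, β₀, ℓ, m, x, hℓ, hx, hx1, hm, hmτ, hb, hR => by
    have hA := K.A_pos
    have hτ := K.τ_pos
    have hτ1 := K.τ_le
    have hln := K.one_lt_lam_nu
    have hl := K.one_lt_lam
    have hν := K.half_le_nu
    have hν1 := K.nu_lt_one
    have hx0 : 0 < x := by
      by_contra hc
      push Not at hc
      nlinarith
    have hAℓ : K.A * ℓ ≤ m / 8 := by nlinarith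
    have hℓx : ℓ ≤ x := by nlinarith
    have hℓ' : ℓ / K.lam ≤ ℓ := div_le_self hℓ.le hl.le
    have hAℓ' := mul_le_mul_of_nonneg_left hℓ' hA.le
    have hx' : x / (K.lam * K.nu) ≤ x := div_le_self hx0.le hln.le
    have hR' := hR.succ
    have hb' := NM_le_of_next hR.1.1 hR.zero
    simp only [back, step_unstep, b_unstep] at hR' hb'
    obtain ⟨βm, βp, u, f, σ, i1, i2, hC, ep, em, rng⟩ := inLeaf hCf hCW hCf0 hCW0 ω
      (ℓ := ℓ / K.lam) (m := m * K.nu) (x := x / (K.lam * K.nu)) (by positivity)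
      (by
        have e : x / (K.lam * K.nu) * (m * K.nu) = x * m / K.lam := by field_simp
        rw [e]; exact div_le_div_of_nonneg_right hx (by linarith))
      (by nlinarith) (by positivity) (by nlinarith) hb' hR'
    have hp := fun β hβ => hC.pull (β := β) ⟨i1, i2⟩ rng (K.adm_c k) (by linarith) hR.1.1 hR.zero
      (by nlinarith) (by linarith) hβ
    set Γ : ℝ → ℝ × ℝ := fun t => K.back (K.c k) (k' :: ω) (φ, t) with hΓ
    set s : ℝ → ℝ := fun β => K.e (K.c k) (Γ β) k' - f β with hs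
    set H : ℝ → ℝ := fun β => hh (K.r k) (Γ β).2 with hH
    have hI : ∀ β ∈ Icc βm βp, |(Γ β).2| ≤ K.r k - m / 2 := fun β hβ => by
      have := abs_sub_abs_le_abs_sub (Γ β).2 (Γ β₀).2
      have := (hp β hβ).1
      linarith
    have hI' : ∀ β ∈ Icc βm βp, |(Γ β).2| < K.r k := fun β hβ => by linarith [hI β hβ]
    have hd : ∀ β ∈ Icc βm βp, ∀ β' ∈ Icc βm βp, |(Γ β).2 - (Γ β').2| ≤ 4 * K.A * ℓ :=
      fun β hβ β' hβ' => by
        have a1 := abs_le.1 (hp β hβ).1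
        have a2 := abs_le.1 (hp β' hβ').1
        rw [abs_le]; constructor <;> linarith
    have hHp : ∀ β ∈ Icc βm βp, 0 < H β := fun β hβ => hh_pos (hI' β hβ)
    have hsH : ∀ β ∈ Icc βm βp, H β + K.τ ≤ s β := fun β hβ => (hp β hβ).2.2.1
    have hsd : ∀ β ∈ Icc βm βp, ∀ β' ∈ Icc βm βp,
        |s β - s β'| ≤ 2 * K.A * x + Cf / (K.lam * K.nu) * x := fun β hβ β' hβ' => by
      have a1 := (K.adm_c k).abs_e_sub (Γ β) (Γ β') k'
      have a2 := abs_le.1 (rng β hβ)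
      have a3 := abs_le.1 (rng β' hβ')
      have a4 : |(Γ β).1 - (Γ β').1| ≤ 2 * x := by
        change |K.inc k' (K.back (K.c k') ω (φ, β)) - K.inc k' (K.back (K.c k') ω (φ, β'))| ≤ _
        rw [abs_le]; constructor <;> linarith
      have a5 := abs_le.1 (a1.trans (mul_le_mul_of_nonneg_left a4 hA.le))
      have a6 := abs_le.1 (hC.lipf β hβ β' hβ')
      have e : Cf * (x / (K.lam * K.nu)) = Cf / (K.lam * K.nu) * x := by ring
      rw [e] at a6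
      simp only [hs]
      rw [abs_le]; constructor <;> linarith
    have hHd : ∀ β ∈ Icc βm βp, ∀ β' ∈ Icc βm βp,
        |H β - H β'| ≤ K.A * (16 * K.A ^ 2 / K.τ * x) := fun β hβ β' hβ' =>
      hh_diff hτ (K.τ_le_r k) (K.r_le k) hm hx0.le hx (hI β hβ) (hI β' hβ') (hd β hβ β' hβ')
    have hdu : ∀ β ∈ Icc βm βp, HasDerivAt (fun t => K.inc k (Γ t))
        (-(u β * ((2 * s β - H β) / H β))) β := fun β hβ => by
      have := hd_inc (hp β hβ).2.2.2.2 k (hI' β hβ)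
      have hne := (hHp β hβ).ne'
      have e : -(u β * ((2 * s β - H β) / H β)) = u β + 2 * (-(s β * u β) / H β) := by
        field_simp; ring
      rw [e]; exact this
    have hC' : K.Core Cf CW x k (k' :: ω) φ βm βp (fun β => -(u β * ((2 * s β - H β) / H β)))
        (fun β => s β * H β / (2 * s β - H β)) (-σ) := by
      refine ⟨?_, hdu, fun β hβ => ?_, fun β hβ => ?_, fun β hβ => ?_, fun β hβ => ?_,
        hI', fun β hβ => (hp β hβ).2.1, fun β hβ β' hβ' => ?_, fun β hβ β' hβ' => ?_⟩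
      · rcases hC.sg with h | h
        · right; rw [h]
        · left; rw [h, neg_neg]
      · have h1 := (hHp β hβ).ne'
        have h2 : 2 * s β - H β ≠ 0 := by linarith [hsH β hβ, hHp β hβ]
        have e : s β * H β / (2 * s β - H β) * -(u β * ((2 * s β - H β) / H β))
            = -(s β * u β) := by
          generalize 2 * s β - H β = D at h2 ⊢
          field_simp
        rw [e]; exact (hp β hβ).2.2.2.2.2
      · rw [neg_mul_neg, ← mul_assoc]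
        exact mul_pos (hC.pos β hβ) (div_pos (by linarith [hsH β hβ, hHp β hβ]) (hHp β hβ))
      · exact div_nonneg (mul_nonneg (by linarith [hsH β hβ, hHp β hβ]) (hHp β hβ).le)
          (by linarith [hsH β hβ, hHp β hβ])
      · change _ ≤ H β
        rw [div_le_iff₀ (by linarith [hsH β hβ, hHp β hβ])]
        nlinarith [hsH β hβ, hHp β hβ]
      · have a1 := focal_diff (hHp β hβ) (hHp β' hβ') (s := s β) (s' := s β')
          (by linarith [hsH β hβ]) (by linarith [hsH β' hβ'])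
        have a2 := hsd β hβ β' hβ'
        have a3 := hHd β hβ β' hβ'
        have a4 := mul_le_mul_of_nonneg_right hCf hx0.le
        linarith
      · have a1 := hC.dist β hβ β' hβ'
        have a2 := (abs_le.1 (hsd β hβ β' hβ')).2
        have a3 := (abs_le.1 (hHd β hβ β' hβ')).1
        have a4 := hh_ratio hτ (K.τ_le_r k) (K.r_le k) hm hx (hI β' hβ') (hI β hβ)
          (hd β' hβ' β hβ)
        have p1 := hHp β hβ
        have p2 := hHp β' hβ'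
        have q1 := hsH β hβ
        have q2 := hsH β' hβ'
        have a5 : Cf / (K.lam * K.nu) ≤ Cf := div_le_self hCf0 hln.le
        have a6 := mul_le_mul_of_nonneg_right a5 hx0.le
        have a7 := mul_le_mul_of_nonneg_right hCW hx0.le
        have e1 : CW * (x / (K.lam * K.nu)) = CW / (K.lam * K.nu) * x := by ring
        have e2 : (2 * (2 * K.A + Cf) + K.A * (16 * K.A ^ 2 / K.τ)) / K.τ * x * K.τ
            = 2 * (2 * K.A * x + Cf * x) + K.A * (16 * K.A ^ 2 / K.τ * x) := by field_simp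
        rw [neg_mul_neg, neg_mul_neg, ← mul_assoc, ← mul_assoc σ]
        refine ratio_step (y₁ := (2 * (2 * K.A + Cf) + K.A * (16 * K.A ^ 2 / K.τ)) / K.τ * x)
          hτ p1 p2 q1 q2 (hC.pos β' hβ').le (by positivity) a1 a4 (by linarith) (by linarith)
    have hmv : ∀ β ∈ Icc βm βp, ∀ β' ∈ Icc βm βp, β ≤ β' →
        0 * (β' - β) ≤ (-σ * K.inc k (Γ β') - K.lam * (σ * (Γ β').1))
          - (-σ * K.inc k (Γ β) - K.lam * (σ * (Γ β).1)) := fun β hβ β' hβ' h =>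
      mvt_ge ordConnected_Icc
        (f := fun t => -σ * K.inc k (Γ t) - K.lam * (σ * (Γ t).1))
        (f' := fun t => -σ * -(u t * ((2 * s t - H t) / H t)) - K.lam * (σ * u t))
        (fun t ht => ((hdu t ht).const_mul (-σ)).sub
          (((hp t ht).2.2.2.2.1.const_mul σ).const_mul K.lam))
        (fun t ht => by
          have p1 := hHp t ht
          have q1 := hsH t ht
          have l1 : H t ≤ K.A := (hh_le (K.r_pos k).le).trans (K.r_le k)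
          have l2 : K.lam ≤ (2 * s t - H t) / H t := by
            have : 2 * K.τ / K.A ≤ 2 * K.τ / H t :=
              div_le_div_of_nonneg_left (by linarith) p1 l1
            have e : 1 + 2 * K.τ / H t = (H t + 2 * K.τ) / H t := by field_simp
            have l3 : (H t + 2 * K.τ) / H t ≤ (2 * s t - H t) / H t :=
              div_le_div_of_nonneg_right (by linarith) p1.le
            unfold lam; linarith
          have := mul_le_mul_of_nonneg_right l2 (hC.pos t ht).le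
          have e : -σ * -(u t * ((2 * s t - H t) / H t)) = (2 * s t - H t) / H t * (σ * u t) := by
            ring
          rw [e]; linarith) hβ hβ' h
    have e0 : K.lam * (ℓ / K.lam) = ℓ := by field_simp
    refine hC'.inLeaf i1 i2 hℓ.le ?_ ?_
    · have := hmv β₀ ⟨i1, i2⟩ βp ⟨i1.trans i2, le_rfl⟩ i2
      have ep' : σ * ((Γ βp).1 - (Γ β₀).1) = ℓ / K.lam := ep
      change ℓ ≤ -σ * (K.inc k (Γ βp) - K.inc k (Γ β₀))
      rw [← ep'] at e0
      linarith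
    · have := hmv βm ⟨le_rfl, i1.trans i2⟩ β₀ ⟨i1, i2⟩ i1
      have em' : σ * ((Γ β₀).1 - (Γ βm).1) = ℓ / K.lam := em
      change ℓ ≤ -σ * (K.inc k (Γ β₀) - K.inc k (Γ βm))
      rw [← em'] at e0
      linarith

/-- A long stable leaf in a chart. -/
structure IsLeaf (K : Cfg ι) (P : ℂ) (ω : List ι) (φ β₀ ℓ βm βp : ℝ) (u s : ℝ → ℝ) (σ : ℝ) :
    Prop where
  le1 : βm ≤ β₀
  le2 : β₀ ≤ βp
  sg : σ = 1 ∨ σ = -1
  hd : ∀ β ∈ Icc βm βp, HD (fun t => K.back P ω (φ, t)) (u β) (-(s β * u β)) β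
  pos : ∀ β ∈ Icc βm βp, 0 < σ * u β
  s0 : ∀ β ∈ Icc βm βp, K.τ ≤ s β
  s1 : ∀ β ∈ Icc βm βp, s β ≤ K.A
  esc : ∀ β ∈ Icc βm βp, K.EscR P ω (K.back P ω (φ, β))
  dist : ∀ β ∈ Icc βm βp, ∀ β' ∈ Icc βm βp, σ * u β ≤ 2 * (σ * u β')
  ep : σ * ((K.back P ω (φ, βp)).1 - (K.back P ω (φ, β₀)).1) = ℓ
  em : σ * ((K.back P ω (φ, β₀)).1 - (K.back P ω (φ, βm)).1) = ℓ
  rng : ∀ β ∈ Icc βm βp, |(K.back P ω (φ, β)).1 - (K.back P ω (φ, β₀)).1| ≤ ℓ
  rng2 : ∀ β ∈ Icc βm βp, |(K.back P ω (φ, β)).2 - (K.back P ω (φ, β₀)).2| ≤ 2 * K.A * ℓ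

theorem exists_leaf (K : Cfg ι) : ∃ x > 0, ∀ {P : ℂ} {ρ : ℝ}, K.Adm P ρ → ∀ {ω : List ι}, ω ≠ [] →
    ∀ {φ β₀ ℓ m : ℝ}, 0 < ℓ → ℓ ≤ x * m → 0 < m → m ≤ K.τ →
    |(K.back P ω (φ, β₀)).2| + 2 * K.A * ℓ ≤ ρ → K.Rob P ω (K.back P ω (φ, β₀)) m →
    ∃ βm βp u s σ, K.IsLeaf P ω φ β₀ ℓ βm βp u s σ := by
  have hA := K.A_pos
  have hτ := K.τ_pos
  have hln := K.one_lt_lam_nu
  have hκ : 0 < 1 - 1 / (K.lam * K.nu) := by
    have : 1 / (K.lam * K.nu) < 1 := by rw [div_lt_one (by linarith)]; exact hln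
    linarith
  set Cf := (2 * (K.A * (16 * K.A ^ 2 / K.τ)) + 2 * K.A) / (1 - 1 / (K.lam * K.nu)) with hCf
  have hCf0 : 0 ≤ Cf := by positivity
  set CW := ((2 * (2 * K.A + Cf) + K.A * (16 * K.A ^ 2 / K.τ)) / K.τ + 16 * K.A ^ 2 / K.τ) /
    (1 - 1 / (K.lam * K.nu)) with hCW
  have hCW0 : 0 ≤ CW := by positivity
  have h1 : 2 * (K.A * (16 * K.A ^ 2 / K.τ)) + 2 * K.A + Cf / (K.lam * K.nu) ≤ Cf := by
    have : Cf * (1 - 1 / (K.lam * K.nu)) = 2 * (K.A * (16 * K.A ^ 2 / K.τ)) + 2 * K.A :=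
      div_mul_cancel₀ _ hκ.ne'
    have e : Cf / (K.lam * K.nu) = Cf * (1 / (K.lam * K.nu)) := by ring
    linarith
  have h2 : CW / (K.lam * K.nu) + (2 * (2 * K.A + Cf) + K.A * (16 * K.A ^ 2 / K.τ)) / K.τ
      + 16 * K.A ^ 2 / K.τ ≤ CW := by
    have : CW * (1 - 1 / (K.lam * K.nu)) =
        (2 * (2 * K.A + Cf) + K.A * (16 * K.A ^ 2 / K.τ)) / K.τ + 16 * K.A ^ 2 / K.τ :=
      div_mul_cancel₀ _ hκ.ne'
    have e : CW / (K.lam * K.nu) = CW * (1 / (K.lam * K.nu)) := by ring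
    linarith
  obtain ⟨x, ⟨hx1, hx2⟩, hx0⟩ := (((ev_le (8 * K.A) one_pos).and
    (ev_le CW (log_pos one_lt_two))).and self_mem_nhdsWithin).exists
  refine ⟨x, hx0, fun {P ρ} hP ω hω φ β₀ ℓ m hℓ hx hm hmτ hb hR => ?_⟩
  obtain ⟨k, ω, rfl⟩ := List.exists_cons_of_ne_nil hω
  have hR' := hR.succ
  have hb' := NM_le_of_next hR.1.1 hR.zero
  simp only [back, step_unstep, b_unstep] at hR' hb'
  obtain ⟨βm, βp, u, f, σ, i1, i2, hC, ep, em, rng⟩ :=
    inLeaf h1 h2 hCf0 hCW0 ω hℓ hx hx1 hm hmτ hb' hR'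
  have hAℓ : K.A * ℓ ≤ m / 8 := by nlinarith
  have hp := fun β hβ => hC.pull (β := β) ⟨i1, i2⟩ rng hP hb hR.1.1 hR.zero
    (by linarith) (by linarith) hβ
  refine ⟨βm, βp, u, fun β => K.e P (K.back P (k :: ω) (φ, β)) k - f β, σ, i1, i2, hC.sg,
    fun β hβ => (hp β hβ).2.2.2.2, hC.pos, fun β hβ => ?_, fun β hβ => (hp β hβ).2.2.2.1,
    fun β hβ => (hp β hβ).2.1, fun β hβ β' hβ' => ?_, ep, em, rng, fun β hβ => (hp β hβ).1⟩
  · linarith [(hp β hβ).2.2.1, hh_nonneg ρ (K.back P (k :: ω) (φ, β)).2]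
  · refine (hC.dist β hβ β' hβ').trans (mul_le_mul_of_nonneg_right ?_ (hC.pos β' hβ').le)
    calc exp (CW * x) ≤ exp (log 2) := exp_le_exp.2 hx2
      _ = 2 := exp_log two_pos

end Cfg

end Pool.Agent.Lib.MP_ab57f0_an
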