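import Pool.Agent.Lib.MP_ab57f0_an.Step

/-! The local density theorem. -/

set_option autoImplicit false

namespace Pool.Agent.Lib.MP_ab57f0_an

open Real Set MeasureTheory Filter Topology
open scoped ENNReal

lemma vol_iUnion_geom {S : ℕ → Set (ℝ × ℝ)} {c ν : ℝ} (hc : 0 ≤ c) (h0 : 0 ≤ ν) (h1 : ν < 1)
    (h : ∀ i, volume (S i) ≤ ENNReal.ofReal (c * ν ^ i)) :
    volume (⋃ i, S i) ≤ ENNReal.ofReal (c / (1 - ν)) := by
  refine (measure_iUnion_le _).trans ((ENNReal.tsum_le_tsum h).trans (le_of_eq ?_))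
  rw [← ENNReal.ofReal_tsum_of_nonneg (fun i => by positivity)
    ((summable_geometric_of_lt_one h0 h1).mul_left c), tsum_mul_left,
    tsum_geometric_of_lt_one h0 h1, div_eq_mul_inv]

lemma vol_box_le {S : Set (ℝ × ℝ)} (hS : MeasurableSet S) (z : ℝ × ℝ) {W c : ℝ} (hW : 0 ≤ W)
    (h : ∀ y, |y - z.2| < W →
      volume {t | t ∈ Ioo (z.1 - W) (z.1 + W) ∧ (t, y) ∈ S} ≤ ENNReal.ofReal c) :
    volume (S ∩ Box z W) ≤ ENNReal.ofReal (2 * W * c) := by
  rw [Measure.volume_eq_prod, Measure.prod_apply_symm (hS.inter (measurableSet_Box z W))]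
  calc _ ≤ ∫⁻ y, (Ioo (z.2 - W) (z.2 + W)).indicator (fun _ => ENNReal.ofReal c) y := by
        refine lintegral_mono fun y => ?_
        by_cases hy : y ∈ Ioo (z.2 - W) (z.2 + W)
        · rw [indicator_of_mem hy]
          refine le_trans (measure_mono ?_) (h y (by
            rw [abs_lt]; constructor <;> linarith [hy.1, hy.2]))
          rintro t ⟨a1, a2, _⟩
          have := abs_lt.1 a2
          exact ⟨⟨by linarith [this.1], by linarith [this.2]⟩, a1⟩
        · rw [indicator_of_notMem hy]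
          refine le_of_eq (measure_mono_null (t := ∅) ?_ measure_empty)
          rintro t ⟨_, _, a2⟩
          have := abs_lt.1 a2
          exact hy ⟨by linarith [this.1], by linarith [this.2]⟩
    _ = _ := by
        rw [lintegral_indicator_const measurableSet_Ioo, Real.volume_Ioo, mul_comm,
          ← ENNReal.ofReal_mul (by linarith)]
        congr 1; ring

lemma exists_thin (μ : Measure (ℝ × ℝ)) {f : ℝ × ℝ → ℝ} (hf : Measurable f) (a : ℝ) {σ w c : ℝ}
    (hw : 0 < w) (h : 2 * w ≤ σ) (hc : 0 ≤ c) (hμ : μ univ ≤ ENNReal.ofReal c) :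
    ∃ y ∈ Icc a (a + σ), μ {x | |f x - y| < w} ≤ ENNReal.ofReal (4 * w * c / σ) := by
  have hσ : 0 < σ := by linarith
  set N := ⌊σ / (2 * w)⌋₊ with hN
  have t1 : 1 ≤ σ / (2 * w) := by rw [le_div_iff₀ (by linarith)]; linarith
  have N1 : (N : ℝ) ≤ σ / (2 * w) := Nat.floor_le (by linarith)
  have N2 : σ / (2 * w) < N + 1 := Nat.lt_floor_add_one _
  have N3 : 1 ≤ N := Nat.le_floor (by simpa using t1)
  have N4 : (1 : ℝ) ≤ N := by exact_mod_cast N3
  rw [le_div_iff₀ (by linarith)] at N1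
  rw [div_lt_iff₀ (by linarith)] at N2
  set S : ℕ → Set (ℝ × ℝ) := fun n => {x | |f x - (a + (2 * n + 1) * w)| < w} with hS
  obtain ⟨n, hn, hmin⟩ := (Finset.range N).exists_min_image (fun n => μ (S n)) ⟨0, by simp; omega⟩
  have hn' : (n : ℝ) + 1 ≤ N := by exact_mod_cast Finset.mem_range.1 hn
  refine ⟨a + (2 * n + 1) * w, ⟨by nlinarith [Nat.cast_nonneg (α := ℝ) n], by nlinarith⟩, ?_⟩
  have mS : ∀ i, MeasurableSet (S i) := fun i =>
    measurableSet_lt ((hf.sub_const _).abs) measurable_const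
  have hsum : ∑ i ∈ Finset.range N, μ (S i) ≤ μ univ := by
    refine sum_measure_le_measure_univ (fun i _ => (mS i).nullMeasurableSet) ?_
    intro i _ j _ hij
    refine Disjoint.aedisjoint (Set.disjoint_left.2 fun x hi hj => ?_)
    have a1 := abs_lt.1 (show |f x - (a + (2 * i + 1) * w)| < w from hi)
    have a2 := abs_lt.1 (show |f x - (a + (2 * j + 1) * w)| < w from hj)
    rcases lt_or_gt_of_ne hij with h' | h'
    · have : (i : ℝ) + 1 ≤ j := by exact_mod_cast h'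
      nlinarith
    · have : (j : ℝ) + 1 ≤ i := by exact_mod_cast h'
      nlinarith
  have h2 : (N : ℝ≥0∞) * μ (S n) ≤ ENNReal.ofReal c := by
    refine le_trans ?_ (hsum.trans hμ)
    have := Finset.card_nsmul_le_sum (Finset.range N) (fun n => μ (S n)) _ hmin
    rwa [Finset.card_range, nsmul_eq_mul] at this
  have h3 : μ (S n) ≤ ENNReal.ofReal c / N := by
    rw [ENNReal.le_div_iff_mul_le (Or.inl (by simp; omega)) (Or.inl (by simp)), mul_comm]
    exact h2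
  refine h3.trans ?_
  rw [← ENNReal.ofReal_natCast, ← ENNReal.ofReal_div_of_pos (by linarith)]
  refine ENNReal.ofReal_le_ofReal ?_
  rw [div_le_div_iff₀ (by linarith) hσ]
  nlinarith [mul_le_mul_of_nonneg_left (show σ ≤ 4 * w * N by nlinarith) hc]

lemma rev_Box (z : ℝ × ℝ) (W : ℝ) : rev ⁻¹' Box (rev z) W = Box z W := by
  ext y
  simp only [Box, rev, mem_preimage, mem_ofPred_eq, add_sub_add_right_eq_sub, neg_sub_neg,
    abs_sub_comm z.2]

lemma vol_rev_Box {S : Set (ℝ × ℝ)} (hS : MeasurableSet S) (z : ℝ × ℝ) (W : ℝ) :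
    volume (rev ⁻¹' S ∩ Box z W) = volume (S ∩ Box (rev z) W) := by
  rw [← mp_rev.measure_preimage (hS.inter (measurableSet_Box _ _)).nullMeasurableSet,
    preimage_inter, rev_Box]

lemma exists_Box {z : ℝ × ℝ} {U : Set (ℝ × ℝ)} (h : U ∈ 𝓝 z) : ∃ d > 0, Box z d ⊆ U := by
  obtain ⟨d, hd, h⟩ := Metric.mem_nhds_iff.1 h
  refine ⟨d, hd, fun y hy => h ?_⟩
  rw [Metric.mem_ball, Prod.dist_eq, max_lt_iff, Real.dist_eq, Real.dist_eq]
  exact hy

lemma Box_mem_nhds (z : ℝ × ℝ) {d : ℝ} (hd : 0 < d) : Box z d ∈ 𝓝 z :=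
  (isOpen_Box z d).mem_nhds ⟨by simpa using hd, by simpa using hd⟩

lemma Box_mono (z : ℝ × ℝ) {d d' : ℝ} (h : d ≤ d') : Box z d ⊆ Box z d' :=
  fun _ hy => ⟨hy.1.trans_le h, hy.2.trans_le h⟩

lemma Box_subset {z z' : ℝ × ℝ} {d W : ℝ} (h : z' ∈ Box z d) (hW : W ≤ d) :
    Box z' W ⊆ Box z (2 * d) := by
  intro y hy
  have a1 := abs_lt.1 h.1
  have a2 := abs_lt.1 h.2
  have a3 := abs_lt.1 hy.1
  have a4 := abs_lt.1 hy.2
  constructor <;> rw [abs_lt] <;> constructor <;> linarith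

lemma exists_pow_le {c b ν : ℝ} (hb : 0 < b) (h0 : 0 ≤ ν) (h1 : ν < 1) :
    ∃ n : ℕ, c * ν ^ n ≤ b := by
  have := (tendsto_pow_atTop_nhds_zero_of_lt_one h0 h1).const_mul c
  rw [mul_zero] at this
  exact (this.eventually (ge_mem_nhds hb)).exists

namespace Cfg

variable {ι : Type} [Fintype ι]

theorem local_density (K : Cfg ι) : ∃ J : ℕ, ∀ {P : ℂ} {ρ : ℝ}, K.Chart P ρ →
    ∀ {z₀ : ℝ × ℝ}, |z₀.2| < ρ → K.RegN (J + 1) P z₀ → K.RegN (J + 1) P (rev z₀) →
    ∃ d > 0, ∀ zs ∈ Box z₀ d, zs ∈ K.EE P → ∀ zT ∈ Box z₀ d, ∀ σ > 0,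
      ∃ X, |X - zT.1| < σ ∧ (X, zT.2) ∈ K.EE P := by
  obtain ⟨x, hx, hleaf⟩ := K.exists_leaf
  have hτ := K.τ_pos
  have hA := K.A_pos
  have hq : 0 < K.q := zero_lt_one.trans_le K.one_le_q
  have hν0 := K.nu_pos
  have hν1 := K.nu_lt_one
  have hν : 0 < 1 - K.nu := by linarith
  set L := 56 * K.q ^ 2 with hL
  set W₀ := 168 * K.A * K.q ^ 2 with hW₀
  set κ := 1 / (4 * (1 + 448 * K.q ^ 2)) with hκ
  set C₀ : ℝ := Fintype.card ι * (16 / K.τ) with hC₀
  set C₁ : ℝ := (Fintype.card ι + 1) ^ 2 * (8 * π) with hC₁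
  have L0 : 0 < L := by positivity
  have W0 : 0 < W₀ := by positivity
  have κ0 : 0 < κ := by positivity
  have C00 : 0 ≤ C₀ := by positivity
  have C10 : 0 ≤ C₁ := by positivity
  obtain ⟨J, hJ⟩ := exists_pow_le (c := 2 * W₀ * C₀ * (L / x) / (1 - K.nu)) (b := κ / 4)
    (by positivity) hν0.le hν1
  refine ⟨J, fun {P ρ} hP z₀ hz₀ r1 r2 => ?_⟩
  have hz₀' : |(rev z₀).2| < ρ := by simpa [rev] using hz₀
  obtain ⟨η₁, hη₁, ev1⟩ := RegN.margin (J + 1) hP.adm hz₀ r1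
  obtain ⟨η₂, hη₂, ev2⟩ := RegN.margin (J + 1) hP.adm hz₀' r2
  obtain ⟨k₁, n1, n1', _⟩ := r1
  obtain ⟨k₂, n2, n2', _⟩ := r2
  have ev3 := n1.eventually hP.adm hz₀ n1'
  have ev4 := n2.eventually hP.adm hz₀' n2'
  obtain ⟨d₀, hd₀, hU⟩ := exists_Box (((ev1.and ev3).and
    (continuous_rev.continuousAt.eventually (ev2.and ev4))))
  obtain ⟨d, ⟨⟨hd1, hd2⟩, hd3⟩, hd⟩ := ((((ev_le 2 hd₀).and (ev_le 2 one_pos)).and
    (ev_le 3 (sub_pos.2 hz₀))).and self_mem_nhdsWithin).exists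
  have hd : 0 < d := hd
  refine ⟨d, hd, fun zs hzs hE zT hzT σ hσ => ?_⟩
  have hstr : ∀ y ∈ Box z₀ (2 * d), |y.2| + d ≤ ρ := fun y hy => by
    have := abs_sub_abs_le_abs_sub y.2 z₀.2
    linarith [hy.2]
  have hzs' : |zs.2| < ρ := by linarith [hstr zs (Box_mono z₀ (by linarith) hzs)]
  obtain ⟨σ₀, hσ₀, hball⟩ := exists_Box (EE_mem_nhds hP.adm hzs' hE)
  obtain ⟨σ₁, ⟨⟨⟨s1, s2⟩, s3⟩, s4⟩, hσ₁⟩ := (((((ev_le 2 hσ₀).and (ev_le 3 hσ)).and
    (ev_le 2 (sub_pos.2 hzs.2))).and (ev_le 2 (sub_pos.2 hzT.1))).and self_mem_nhdsWithin).exists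
  have hσ₁ : 0 < σ₁ := hσ₁
  obtain ⟨j₀, hj₀⟩ := exists_pow_le (c := 4 * W₀ * (2 * (C₁ * (L / x) / (1 - K.nu))) / σ₁)
    (b := κ / 2) (by positivity) hν0.le hν1
  obtain ⟨δ, hδ, hgr⟩ := K.growth_le j₀
  obtain ⟨ε, ⟨⟨⟨⟨⟨⟨⟨⟨e1, e2⟩, e3⟩, e4⟩, e5⟩, e6⟩, e7⟩, e8⟩, e9⟩, hε⟩ :=
    ((((((((((ev_le (2 * W₀) hδ).and (ev_le W₀ hd)).and (ev_le (2 * W₀) hσ₁)).and
    (ev_le L one_pos)).and (ev_le (L / x) (half_pos hτ))).and (ev_le (L / x) hη₁)).and
    (ev_le (L / x) hη₂)).and (ev_le (2 * K.A * L) hd)).and (ev_le L hσ₁)).and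
    self_mem_nhdsWithin).exists
  have hε : 0 < ε := hε
  set m := L / x * ε with hm
  have m0 : 0 < m := by positivity
  have hmj : ∀ j : ℕ, m * K.nu ^ j ≤ m := fun j =>
    mul_le_of_le_one_right m0.le (pow_le_one₀ hν0.le hν1.le)
  set Mid : Set (ℝ × ℝ) := ⋃ i : ℕ, K.Lev (K.Near (m * K.nu ^ (i + J))) (i + J) P ∩
    {_y | i + J ≤ j₀} with hMid
  set High : Set (ℝ × ℝ) := ⋃ i : ℕ, K.Lev (K.Near (m * K.nu ^ (i + j₀))) (i + j₀) P with hHigh
  have mL : ∀ η j, MeasurableSet (K.Lev (K.Near η) j P) := fun η j =>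
    measurableSet_Lev (measurableSet_Near η) j P
  have mMid : MeasurableSet Mid :=
    MeasurableSet.iUnion fun i => (mL _ _).inter (MeasurableSet.const _)
  have mHigh : MeasurableSet High := MeasurableSet.iUnion fun i => mL _ _
  have hHL : ∀ y η, m ≤ η → (∃ k, K.Next P y k) → (∀ j < J + 1, y ∉ K.Lev (K.NM η) j P) →
      y ∉ Mid → y ∉ High → |y.2| + d ≤ ρ → K.HasLeaf P (L * ε) y := by
    rintro y η hη ⟨k, hk⟩ h1 h2 h3 h4 ω φ β₀ rfl he
    refine hleaf hP.adm ?_ (m := m) (by positivity) (le_of_eq (by rw [hm]; field_simp)) m0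
      (by linarith) (by linarith) ⟨he, fun j hj => ?_⟩
    · rintro rfl
      exact he k hk.1
    · rcases lt_or_ge j J with h | h
      · exact h1 j (by omega) (Lev_mono (fun P => NM_mono ((hmj j).trans hη) P) j P hj)
      · have hj' := Lev_mono (fun P => NM_subset_Near _ P) j P hj
        rcases le_total j j₀ with h' | h'
        · refine h2 (mem_iUnion.2 ⟨j - J, ?_, ?_⟩)
          · rwa [Nat.sub_add_cancel h]
          · change j - J + J ≤ j₀
            omega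
        · refine h3 (mem_iUnion.2 ⟨j - j₀, ?_⟩)
          rwa [Nat.sub_add_cancel h']
  have vMid : ∀ z : ℝ × ℝ, (∀ y, |y - z.2| < W₀ * ε → |y| ≤ ρ) →
      volume (Mid ∩ Box z (W₀ * ε)) ≤ ENNReal.ofReal (κ / 4 * ε ^ 2) := by
    intro z hz
    rw [hMid, iUnion_inter]
    refine (vol_iUnion_geom (c := 2 * (W₀ * ε) * (C₀ * (m * K.nu ^ J))) (by positivity) hν0.le hν1
      fun i => ?_).trans (ENNReal.ofReal_le_ofReal ?_)
    · by_cases hi : i + J ≤ j₀
      · refine le_trans (measure_mono (inter_subset_inter_left _ inter_subset_left)) ?_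
        refine (vol_box_le (mL _ _) z (by positivity) fun y hy =>
          hgr (i + J) hi hP.adm (by positivity) ((hmj _).trans e5) (hz y hy)
            (by linarith)).trans (ENNReal.ofReal_le_ofReal (le_of_eq ?_))
        rw [pow_add]; ring
      · simp [hi]
    · have := mul_le_mul_of_nonneg_right hJ (sq_nonneg ε)
      refine le_trans (le_of_eq ?_) this
      rw [hm]; ring
  have vHigh : ∀ z : ℝ × ℝ, volume (High ∩ Box z (2 * d)) ≤
      ENNReal.ofReal (C₁ * (m * K.nu ^ j₀) / (1 - K.nu)) := by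
    intro z
    rw [hHigh, iUnion_inter]
    refine vol_iUnion_geom (by positivity) hν0.le hν1 fun i => ?_
    refine le_trans (measure_mono (inter_subset_inter_right _ ?_))
      ((vol_Lev_Near (K := K) (m * K.nu ^ (i + j₀)) (by positivity) P (z.1 - π) (i + j₀)).trans
        (ENNReal.ofReal_le_ofReal (le_of_eq ?_)))
    · intro y hy
      have := abs_lt.1 hy.1
      constructor <;> linarith [pi_gt_three]
    · rw [pow_add, hC₁]; ring
  set H := (High ∪ rev ⁻¹' High) ∩ Box z₀ (2 * d) with hH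
  have mH : MeasurableSet H :=
    (mHigh.union (continuous_rev.measurable mHigh)).inter (measurableSet_Box _ _)
  have vH : (volume.restrict H) univ ≤
      ENNReal.ofReal (2 * (C₁ * (m * K.nu ^ j₀) / (1 - K.nu))) := by
    rw [Measure.restrict_apply_univ, hH, union_inter_distrib_right,
      two_mul (C₁ * (m * K.nu ^ j₀) / (1 - K.nu)),
      ENNReal.ofReal_add (by positivity) (by positivity)]
    refine (measure_union_le _ _).trans (add_le_add (vHigh z₀) ?_)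
    rw [vol_rev_Box mHigh]
    exact vHigh _
  have hthin : 4 * (W₀ * ε) * (2 * (C₁ * (m * K.nu ^ j₀) / (1 - K.nu))) / σ₁ ≤ κ / 2 * ε ^ 2 := by
    have := mul_le_mul_of_nonneg_right hj₀ (sq_nonneg ε)
    refine le_trans (le_of_eq ?_) this
    rw [hm]; ring
  obtain ⟨b₁, hb₁, vrow⟩ := exists_thin (volume.restrict H) measurable_snd zs.2 (w := W₀ * ε)
    (σ := σ₁) (by positivity) (by linarith) (by positivity) vH
  obtain ⟨φ₁, hφ₁, vcol⟩ := exists_thin (volume.restrict H) measurable_fst zT.1 (w := W₀ * ε)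
    (σ := σ₁) (by positivity) (by linarith) (by positivity) vH
  rw [Measure.restrict_apply' mH] at vrow vcol
  set B : Set (ℝ × ℝ) := (Mid ∪ rev ⁻¹' Mid) ∪ (High ∪ rev ⁻¹' High) ∪
    ((strip ρ ∩ rev ⁻¹' K.EP P ∩ (K.EP P)ᶜ) ∪ (strip ρ ∩ K.EP P ∩ (rev ⁻¹' K.EP P)ᶜ)) with hB
  have mEP := measurableSet_EP (K := K) P
  have mB : MeasurableSet B :=
    ((mMid.union (continuous_rev.measurable mMid)).union
      (mHigh.union (continuous_rev.measurable mHigh))).union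
      ((((measurableSet_strip ρ).inter (continuous_rev.measurable mEP)).inter mEP.compl).union
        (((measurableSet_strip ρ).inter mEP).inter (continuous_rev.measurable mEP).compl))
  have hloc : ∀ z ∈ Box z₀ d, volume (Box z (W₀ * ε) ∩ H) ≤ ENNReal.ofReal (κ / 2 * ε ^ 2) →
      K.Loc P ρ ε B z := by
    intro z hz hv
    have hsub := Box_subset hz e2
    refine ⟨fun y hy hyB => ?_, fun y hy => by linarith [hstr y (hsub hy)], ?_⟩
    · have hy2 := hsub hy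
      have hs := hstr y hy2
      have hys : y ∈ strip ρ := by change |y.2| ≤ ρ; linarith
      obtain ⟨⟨u1, u2⟩, u3, u4⟩ := hU (Box_mono z₀ hd1 hy2)
      simp only [hB, mem_union, not_or] at hyB
      obtain ⟨⟨⟨b1, b2⟩, b3, b4⟩, b5, b6⟩ := hyB
      refine ⟨⟨fun h => ?_, fun h => ?_⟩, hHL y η₁ e6 ⟨k₁, u2.1⟩ u1 b1 b3 hs,
        hHL (rev y) η₂ e7 ⟨k₂, u4.1⟩ u3 b2 b4 (by simpa [rev] using hs)⟩
      · by_contra hc
        exact b6 ⟨⟨hys, h⟩, hc⟩
      · by_contra hc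
        exact b5 ⟨⟨hys, h⟩, hc⟩
    · have hz2 : ∀ y, |y - z.2| < W₀ * ε → |y| ≤ ρ := fun y hy => by
        have := hstr (z.1, y) (hsub ⟨by simp only [sub_self, abs_zero]; positivity, hy⟩)
        simp only at this
        linarith
      have v1 := vMid z hz2
      have v2 := vMid (rev z) (fun y hy => by
        have := hz2 (-y) (by
          simp only [rev, sub_neg_eq_add] at hy
          rwa [← abs_neg, neg_add, ← sub_eq_add_neg] at hy)
        rwa [abs_neg] at this)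
      rw [← vol_rev_Box mMid] at v2
      have hcov : B ∩ Box z (W₀ * ε) ⊆ (Mid ∩ Box z (W₀ * ε) ∪ rev ⁻¹' Mid ∩ Box z (W₀ * ε)) ∪
          Box z (W₀ * ε) ∩ H ∪ ((strip ρ ∩ rev ⁻¹' K.EP P ∩ (K.EP P)ᶜ) ∪
            (strip ρ ∩ K.EP P ∩ (rev ⁻¹' K.EP P)ᶜ)) := by
        rintro y ⟨((h | h) | h) | h, hy⟩
        · exact Or.inl (Or.inl (Or.inl ⟨h, hy⟩))
        · exact Or.inl (Or.inl (Or.inr ⟨h, hy⟩))
        · exact Or.inl (Or.inr ⟨hy, h, hsub hy⟩)
        · exact Or.inr h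
      refine (measure_mono hcov).trans ((measure_union_le _ _).trans ?_)
      rw [measure_union_null (null_back hP) (null_fwd hP), add_zero]
      refine (measure_union_le _ _).trans ((add_le_add ((measure_union_le _ _).trans
        (add_le_add v1 v2)) hv).trans (le_of_eq ?_))
      rw [← ENNReal.ofReal_add (by positivity) (by positivity),
        ← ENNReal.ofReal_add (by positivity) (by positivity)]
      congr 1
      rw [hκ]; ring
  have a1 := abs_lt.1 hzs.1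
  have a3 := abs_lt.1 hzT.2
  have hb₁' : |b₁ - z₀.2| < d := by
    have := abs_sub_le b₁ zs.2 z₀.2
    have : |b₁ - zs.2| ≤ σ₁ := by rw [abs_le]; constructor <;> linarith [hb₁.1, hb₁.2]
    linarith
  have hφ₁' : |φ₁ - z₀.1| < d := by
    have := abs_sub_le φ₁ zT.1 z₀.1
    have : |φ₁ - zT.1| ≤ σ₁ := by rw [abs_le]; constructor <;> linarith [hφ₁.1, hφ₁.2]
    linarith
  have a2 := abs_lt.1 hb₁'
  have a4 := abs_lt.1 hφ₁'
  have hconv : ∀ (a a' c t : ℝ), t ∈ Icc (0 : ℝ) 1 → |a - c| < d → |a' - c| < d →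
      |a + t * (a' - a) - c| < d := fun a a' c t ht h1 h2 => by
    have := (convex_Ioo (c - d) (c + d)).add_smul_sub_mem (x := a) (y := a')
      (by have := abs_lt.1 h1; constructor <;> linarith)
      (by have := abs_lt.1 h2; constructor <;> linarith) ht
    rw [smul_eq_mul] at this
    rw [abs_lt]; constructor <;> linarith [this.1, this.2]
  have hrow : ∀ t, |t - z₀.1| < d → K.Loc P ρ ε B (t, b₁) := fun t ht =>
    hloc _ ⟨ht, hb₁'⟩ (le_trans (measure_mono (inter_subset_inter_left _ fun y hy => hy.2))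
      (vrow.trans (ENNReal.ofReal_le_ofReal hthin)))
  have hcol : ∀ t, |t - z₀.2| < d → K.Loc P ρ ε B (φ₁, t) := fun t ht =>
    hloc _ ⟨hφ₁', ht⟩ (le_trans (measure_mono (inter_subset_inter_left _ fun y hy => hy.1))
      (vcol.trans (ENNReal.ofReal_le_ofReal hthin)))
  have p0 : ENNReal.ofReal (ε ^ 2 / 2) ≤ volume (K.Par ε (zs.1, b₁) ∩ K.EP P) := by
    refine Loc.start hε fun y hy => EE_subset_EP P (hball ?_)
    have c1 := abs_lt.1 hy.1
    have c2 := abs_lt.1 hy.2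
    have : 0 < W₀ * ε := by positivity
    constructor <;> rw [abs_lt] <;> constructor <;> linarith [hb₁.1, hb₁.2]
  have p1 := Loc.segment hP.adm hε e4 mB (z := (zs.1, b₁)) (z' := (φ₁, b₁)) (fun t ht => by
    simp only [sub_self, mul_zero, add_zero]
    exact hrow _ (hconv _ _ _ t ht hzs.1 hφ₁')) p0
  have p2 := Loc.segment hP.adm hε e4 mB (z := (φ₁, b₁)) (z' := (φ₁, zT.2)) (fun t ht => by
    simp only [sub_self, mul_zero, add_zero]
    exact hcol _ (hconv _ _ _ t ht hb₁' hzT.2)) p1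
  obtain ⟨X, hX1, hX2⟩ := (hcol zT.2 hzT.2).hit hP.adm hε e4 mB p2
  refine ⟨X, ?_, hX2⟩
  have c1 := abs_le.1 hX1
  rw [abs_lt]
  constructor <;> linarith [hφ₁.1, hφ₁.2]

end Cfg

end Pool.Agent.Lib.MP_ab57f0_an
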