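import Mathlib

set_option autoImplicit false

namespace Pool.Agent.Lib.MP_ab57f0_an.LT

open Set

/-- The plane. -/
abbrev E := EuclideanSpace ℝ (Fin 2)

section Abstract

variable (c : Fin 3 → E) (K : Set E)

/-- The segment from `q` to `q + t d` misses the open discs of radius `r`. -/
def Free (w : (ℝ × E × E) × ℝ) : Prop :=
  ∀ s ∈ Icc (0 : ℝ) 1, ∀ k, w.1.1 ≤ dist (w.1.2.1 + (s * w.2) • w.1.2.2) (c k)

/-- End point of the segment. -/
noncomputable def ep (w : (ℝ × E × E) × ℝ) : E := w.1.2.1 + w.2 • w.1.2.2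

/-- The state after a reflection in disc `j`. -/
noncomputable def nxt (j : Fin 3) (w : (ℝ × E × E) × ℝ) : ℝ × E × E :=
  (w.1.1, ep w, w.1.2.2 -
    (2 * inner ℝ w.1.2.2 (ep w - c j) / (max w.1.1 (1 / 2)) ^ 2) • (ep w - c j))

/-- The states after `n` reflections. -/
def St : ℕ → Set (ℝ × E × E)
  | 0 => Icc (1 / 2 : ℝ) 1 ×ˢ K ×ˢ Metric.sphere (0 : E) 1
  | n + 1 => ⋃ j, nxt c j ''
      ((St n ×ˢ Icc (0 : ℝ) 5) ∩ ({w | Free c w} ∩ {w | dist (ep w) (c j) = w.1.1}))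

theorem continuous_ep : Continuous ep := by
  unfold ep
  fun_prop

theorem isClosed_free : IsClosed {w | Free c w} := by
  have : {w | Free c w} = ⋂ s ∈ Icc (0 : ℝ) 1, ⋂ k,
      {w : (ℝ × E × E) × ℝ | w.1.1 ≤ dist (w.1.2.1 + (s * w.2) • w.1.2.2) (c k)} := by
    ext w
    simp [Free]
  rw [this]
  refine isClosed_biInter fun s _ => isClosed_iInter fun k => isClosed_le ?_ ?_ <;> fun_prop

theorem continuous_nxt (j : Fin 3) : Continuous (nxt c j) := by
  have h := continuous_ep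
  unfold nxt
  have h2 : Continuous fun w : (ℝ × E × E) × ℝ =>
      2 * inner ℝ w.1.2.2 (ep w - c j) / (max w.1.1 (1 / 2)) ^ 2 := by
    refine Continuous.div (by fun_prop) (by fun_prop) fun w => ?_
    have : (0 : ℝ) < max w.1.1 (1 / 2) := lt_max_of_lt_right (by norm_num)
    positivity
  have h3 : Continuous fun w : (ℝ × E × E) × ℝ => ep w - c j := by fun_prop
  have h4 : Continuous fun w : (ℝ × E × E) × ℝ => w.1.2.2 := by fun_prop
  exact (continuous_fst.comp continuous_fst).prodMk (h.prodMk (h4.sub (h2.smul h3)))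

theorem isCompact_St (hK : IsCompact K) (n : ℕ) : IsCompact (St c K n) := by
  induction n with
  | zero => exact isCompact_Icc.prod (hK.prod (isCompact_sphere _ _))
  | succ n ih =>
    have h := continuous_ep
    refine isCompact_iUnion fun j => IsCompact.image ?_ (continuous_nxt c j)
    refine (ih.prod isCompact_Icc).inter_right ((isClosed_free c).inter (isClosed_eq ?_ ?_)) <;>
      fun_prop

variable {c K} {u P : Fin 3 → E}

/-- The state is not at a touching point and does not run along an axis. -/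
def Good (c u P : Fin 3 → E) (q d : E) : Prop :=
  ∀ k, q ≠ P k ∧ ¬ (inner ℝ (q - c k) (u k) = 0 ∧ inner ℝ d (u k) = 0)

/-- The geometry of three touching unit discs. -/
def Geo (c u P : Fin 3 → E) : Prop :=
  ∀ k, ‖u k‖ = 1 ∧ P k - c (k + 2) = u k ∧ P k - c (k + 1) = -u k ∧
    inner ℝ (P k - c k) (u k) = 0

theorem not_end (hG : Geo c u P) {w : (ℝ × E × E) × ℝ} (h1 : w.1.1 = 1) (ht : 0 ≤ w.2)
    (hf : Free c w) (hg : Good c u P w.1.2.1 w.1.2.2) (k : Fin 3) : ep w ≠ P k := by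
  obtain ⟨⟨r, q, d⟩, t⟩ := w
  simp only at h1 ht hg
  subst h1
  intro he
  have he' : q + t • d = P k := he
  obtain ⟨g1, g2, g3, g4⟩ := hG k
  have t0 : 0 < t := by
    rcases ht.eq_or_lt with h | h
    · subst h
      rw [zero_smul, add_zero] at he'
      exact absurd he' (hg k).1
    · exact h
  have key : ∀ σ : ℝ, 0 < σ → σ ≤ t → 2 * |inner ℝ d (u k)| ≤ σ * ‖d‖ ^ 2 := by
    intro σ s0 s1
    have m : 1 - σ / t ∈ Icc (0 : ℝ) 1 := by
      have a1 : σ / t ≤ 1 := (div_le_one t0).2 s1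
      have a2 : 0 ≤ σ / t := by positivity
      constructor <;> linarith
    have e : q + ((1 - σ / t) * t) • d = P k - σ • d := by
      have : (1 - σ / t) * t = t - σ := by field_simp
      rw [this, sub_smul, ← he']
      abel
    have a1 : (1 : ℝ) ≤ dist (q + ((1 - σ / t) * t) • d) (c (k + 2)) := hf _ m _
    have a2 : (1 : ℝ) ≤ dist (q + ((1 - σ / t) * t) • d) (c (k + 1)) := hf _ m _
    rw [e, dist_eq_norm] at a1 a2
    have e1 : P k - σ • d - c (k + 2) = u k - σ • d := by rw [← g2]; abel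
    have e2 : P k - σ • d - c (k + 1) = -(u k + σ • d) := by
      rw [neg_add, ← g3]; abel
    rw [e1] at a1
    rw [e2, norm_neg] at a2
    have b1 : 1 ≤ ‖u k - σ • d‖ ^ 2 := one_le_pow₀ a1
    have b2 : 1 ≤ ‖u k + σ • d‖ ^ 2 := one_le_pow₀ a2
    rw [norm_sub_sq_real, g1, inner_smul_right, norm_smul, Real.norm_eq_abs, mul_pow, sq_abs,
      real_inner_comm] at b1
    rw [norm_add_sq_real, g1, inner_smul_right, norm_smul, Real.norm_eq_abs, mul_pow, sq_abs,
      real_inner_comm] at b2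
    refine le_of_mul_le_mul_left ?_ s0
    rcases abs_cases (inner ℝ d (u k)) with ⟨h, -⟩ | ⟨h, -⟩ <;> rw [h] <;> nlinarith
  have z : inner ℝ d (u k) = 0 := by
    by_contra hz
    have a0 : 0 < |inner ℝ d (u k)| := abs_pos.2 hz
    have n0 : 0 ≤ ‖d‖ ^ 2 := by positivity
    have a1 := key (min t (|inner ℝ d (u k)| / (‖d‖ ^ 2 + 1))) (by positivity) (min_le_left _ _)
    have a2 : min t (|inner ℝ d (u k)| / (‖d‖ ^ 2 + 1)) * (‖d‖ ^ 2 + 1) ≤ |inner ℝ d (u k)| :=
      (le_div_iff₀ (by positivity)).1 (min_le_right _ _)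
    have a3 : 0 < min t (|inner ℝ d (u k)| / (‖d‖ ^ 2 + 1)) := by positivity
    nlinarith
  refine (hg k).2 ⟨?_, z⟩
  have e : q - c k = (P k - c k) - t • d := by rw [← he']; abel
  rw [e, inner_sub_left, g4, real_inner_smul_left, z]
  ring

theorem eq_P (hG : Geo c u P) {y : E} {k j : Fin 3} (hj : j ≠ k) (h1 : dist y (c j) = 1)
    (h2 : inner ℝ (y - c k) (u k) = 0) : y = P k := by
  obtain ⟨g1, g2, g3, g4⟩ := hG k
  have a1 : inner ℝ (y - P k) (u k) = 0 := by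
    have e : y - P k = (y - c k) - (P k - c k) := by abel
    rw [e, inner_sub_left, h2, g4, sub_zero]
  have hc : ∀ k j : Fin 3, j ≠ k → j = k + 1 ∨ j = k + 2 := by decide
  rw [dist_eq_norm] at h1
  have a2 : ‖y - P k‖ ^ 2 = 0 := by
    rcases hc k j hj with rfl | rfl
    · have e : y - c (k + 1) = (y - P k) - u k := by rw [sub_eq_add_neg _ (u k), ← g3]; abel
      have := norm_sub_sq_real (y - P k) (u k)
      rw [← e, h1, a1, g1] at this
      linarith
    · have e : y - c (k + 2) = (y - P k) + u k := by rw [← g2]; abel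
      have := norm_add_sq_real (y - P k) (u k)
      rw [← e, h1, a1, g1] at this
      linarith
  exact sub_eq_zero.1 (norm_eq_zero.1 (pow_eq_zero_iff two_ne_zero |>.1 a2))

theorem good_St (hG : Geo c u P) (hp : ∀ p ∈ K, ∀ k, inner ℝ (p - c k) (u k) ≠ 0) (n : ℕ) :
    ∀ z ∈ St c K n, z.1 = 1 → Good c u P z.2.1 z.2.2 := by
  induction n with
  | zero =>
    rintro ⟨r, q, d⟩ ⟨-, h2, -⟩ - k
    refine ⟨fun h => hp q h2 k ?_, fun h => hp q h2 k h.1⟩
    have h' : q = P k := h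
    rw [h']
    exact (hG k).2.2.2
  | succ n ih =>
    intro z hz h1 k
    obtain ⟨j, w, ⟨⟨m1, m2⟩, m3, m4⟩, rfl⟩ := mem_iUnion.1 hz
    have h1' : w.1.1 = 1 := h1
    have g := ih _ m1 h1'
    have ne := not_end hG h1' m2.1 m3 g
    refine ⟨ne k, ?_⟩
    rintro ⟨a1, a2⟩
    have a1' : inner ℝ (ep w - c k) (u k) = 0 := a1
    have m4' : dist (ep w) (c j) = 1 := m4.trans h1'
    by_cases hj : j = k
    · subst hj
      have a3 : inner ℝ w.1.2.2 (u j) = 0 := by
        simp only [nxt] at a2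
        rwa [inner_sub_left, real_inner_smul_left, a1', mul_zero, sub_zero] at a2
      refine (g j).2 ⟨?_, a3⟩
      have e : w.1.2.1 - c j = (ep w - c j) - w.2 • w.1.2.2 := by unfold ep; abel
      rw [e, inner_sub_left, a1', real_inner_smul_left, a3]
      ring
    · exact ne k (eq_P hG hj m4' a1')

theorem norm_refl {d v : E} {r : ℝ} (hr : 0 < r) (hv : ‖v‖ = r) :
    ‖d - (2 * inner ℝ d v / r ^ 2) • v‖ = ‖d‖ := by
  have h : ‖d - (2 * inner ℝ d v / r ^ 2) • v‖ ^ 2 = ‖d‖ ^ 2 := by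
    rw [norm_sub_sq_real, inner_smul_right, norm_smul, Real.norm_eq_abs, mul_pow, sq_abs, hv]
    field_simp
    ring
  exact (pow_left_inj₀ (norm_nonneg _) (norm_nonneg _) two_ne_zero).1 h

theorem free_of {r t t' : ℝ} {q d : E} (ht : 0 < t) (h0 : 0 ≤ t') (h1 : t' ≤ t)
    (h : ∀ s, 0 < s → s < t → ∀ k, r ≤ dist (q + s • d) (c k)) : Free c ((r, q, d), t') := by
  intro s hs k
  have cl : IsClosed {s : ℝ | r ≤ dist (q + s • d) (c k)} := isClosed_le (by fun_prop) (by fun_prop)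
  have sub : Icc 0 t ⊆ {s : ℝ | r ≤ dist (q + s • d) (c k)} := by
    rw [← closure_Ioo ht.ne]
    exact cl.closure_subset_iff.2 fun s hs => h s hs.1 hs.2 k
  exact sub ⟨mul_nonneg hs.1 h0, by nlinarith [hs.1, hs.2]⟩

theorem long_trap (hG : Geo c u P) (hK : IsCompact K)
    (hp : ∀ p ∈ K, ∀ k, inner ℝ (p - c k) (u k) ≠ 0) (g : E → ℝ)
    (hg : Continuous g) (gp : ∀ p ∈ K, 0 < g p) (gb : ∀ x y, 0 ≤ g x → 0 ≤ g y → dist x y ≤ 5)
    (g0 : ∀ y, g y = 0 → (∀ k, 1 ≤ dist y (c k)) → ∃ k, y = P k) (N : ℕ) :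
    ∃ r₀ : ℝ, 0 < r₀ ∧ r₀ < 1 ∧ ∀ r, r₀ < r → r < 1 → ∀ (n : ℕ) (q d : ℕ → E),
      q 0 ∈ K → ‖d 0‖ = 1 →
      (∀ i < n, ∃ (j : Fin 3) (t : ℝ), 0 < t ∧ q (i + 1) = q i + t • d i ∧
        dist (q (i + 1)) (c j) = r ∧
        (∀ s : ℝ, 0 < s → s < t → ∀ k, r ≤ dist (q i + s • d i) (c k)) ∧
        d (i + 1) = d i - (2 * inner ℝ (d i) (q (i + 1) - c j) / r ^ 2) • (q (i + 1) - c j)) →
      (∀ s : ℝ, 0 < s → ∀ k, r ≤ dist (q n + s • d n) (c k)) → N ≤ n := by
  let B : ℕ → Set ℝ := fun n => (fun w : (ℝ × E × E) × ℝ => w.1.1) ''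
    ((St c K n ×ˢ Icc (0 : ℝ) 5) ∩ ({w | Free c w} ∩ {w | g (ep w) = 0}))
  have cB : ∀ n, IsClosed (B n) := fun n => by
    refine (IsCompact.image ?_ (by fun_prop)).isClosed
    exact ((isCompact_St c K hK n).prod isCompact_Icc).inter_right
      ((isClosed_free c).inter (isClosed_eq (hg.comp continuous_ep) continuous_const))
  have nB : ∀ n, (1 : ℝ) ∉ B n := by
    rintro n ⟨w, ⟨⟨m1, m2⟩, m3, m4⟩, h1⟩
    have h1' : w.1.1 = 1 := h1
    obtain ⟨k, hk⟩ := g0 (ep w) m4 fun k => by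
      have := m3 1 ⟨zero_le_one, le_rfl⟩ k
      rwa [h1', one_mul] at this
    exact not_end hG h1' m2.1 m3 (good_St hG hp n _ m1 h1') k hk
  have op : IsOpen (⋃ n ∈ Iio N, B n)ᶜ :=
    ((finite_Iio N).isClosed_biUnion fun n _ => cB n).isOpen_compl
  obtain ⟨δ, δ0, hδ⟩ := Metric.isOpen_iff.1 op 1 (by
    simp only [mem_compl_iff, mem_iUnion, not_exists]
    exact fun n _ => nB n)
  refine ⟨max (1 / 2) (1 - δ), lt_max_of_lt_left (by norm_num), max_lt (by norm_num) (by linarith),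
    fun r r1 r2 n q d q0 d0 step fin => ?_⟩
  by_contra hn
  have r3 : 1 / 2 < r := lt_of_le_of_lt (le_max_left _ _) r1
  have r4 : 1 - δ < r := lt_of_le_of_lt (le_max_right _ _) r1
  have rB : ∀ i ≤ n, r ∉ B i := fun i hi h => by
    refine hδ (show r ∈ Metric.ball (1 : ℝ) δ from ?_) (mem_biUnion (show i ∈ Iio N from ?_) h)
    · rw [Metric.mem_ball, Real.dist_eq, abs_lt]
      constructor <;> linarith
    · exact lt_of_le_of_lt hi (not_le.1 hn)
  have len : ∀ (x v : E) (t : ℝ), ‖v‖ = 1 → 0 ≤ t → dist x (x + t • v) = t := by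
    intro x v t hv ht
    rw [dist_self_add_right, norm_smul, hv, Real.norm_eq_abs, abs_of_nonneg ht, mul_one]
  have stay : ∀ i ≤ n, (r, q i, d i) ∈ St c K i → ‖d i‖ = 1 → 0 < g (q i) → ∀ t : ℝ, 0 < t →
      (∀ s : ℝ, 0 < s → s < t → ∀ k, r ≤ dist (q i + s • d i) (c k)) →
      0 < g (q i + t • d i) := by
    intro i hi m1 m2 m3 t t0 hf
    by_contra hc
    have co : Continuous fun s : ℝ => g (q i + s • d i) := hg.comp (by fun_prop)
    obtain ⟨t', ⟨a1, a2⟩, a3⟩ := intermediate_value_Icc' t0.le co.continuousOn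
      (show (0 : ℝ) ∈ Icc (g (q i + t • d i)) (g (q i + (0 : ℝ) • d i)) from
        ⟨not_lt.1 hc, by rw [zero_smul, add_zero]; exact m3.le⟩)
    have a4 := gb _ _ m3.le (le_of_eq (Eq.symm a3))
    rw [len _ _ _ m2 a1] at a4
    exact rB i hi ⟨((r, q i, d i), t'), ⟨⟨m1, a1, a4⟩, free_of t0 a1 a2 hf, a3⟩, rfl⟩
  have inv : ∀ i ≤ n, (r, q i, d i) ∈ St c K i ∧ ‖d i‖ = 1 ∧ 0 < g (q i) := by
    intro i
    induction i with
    | zero =>
      intro _
      refine ⟨⟨⟨r3.le, r2.le⟩, q0, ?_⟩, d0, gp _ q0⟩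
      simpa using d0
    | succ i ih =>
      intro hi
      obtain ⟨m1, m2, m3⟩ := ih (by omega)
      obtain ⟨j, t, t0, e1, e2, e3, e4⟩ := step i (by omega)
      have a1 := stay i (by omega) m1 m2 m3 t t0 e3
      have a4 := gb _ _ m3.le a1.le
      rw [len _ _ _ m2 t0.le] at a4
      refine ⟨mem_iUnion.2 ⟨j, ((r, q i, d i), t),
        ⟨⟨m1, t0.le, a4⟩, free_of t0 t0.le le_rfl e3, ?_⟩, ?_⟩, ?_, e1 ▸ a1⟩
      · change dist (q i + t • d i) (c j) = r
        rw [← e1, e2]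
      · simp only [nxt, ep, max_eq_left r3.le]
        rw [← e1, ← e4]
      · rw [e4, norm_refl (by linarith) (by rw [← dist_eq_norm, e2]), m2]
  obtain ⟨m1, m2, m3⟩ := inv n le_rfl
  have a1 := stay n le_rfl m1 m2 m3 6 (by norm_num) fun s s0 _ => fin s s0
  have a2 := gb _ _ m3.le a1.le
  rw [len _ _ _ m2 (by norm_num)] at a2
  norm_num at a2

end Abstract

end Pool.Agent.Lib.MP_ab57f0_an.LT
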