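import Pool.Agent.Lib.MP_ab57f0_an.Launch

/-! Propagation of a definite density of escaping states from one box to the next. -/

set_option autoImplicit false

namespace Pool.Agent.Lib.MP_ab57f0_an

open Real Set MeasureTheory Filter Topology
open scoped ENNReal

def Box (z : ℝ × ℝ) (W : ℝ) : Set (ℝ × ℝ) := {y | |y.1 - z.1| < W ∧ |y.2 - z.2| < W}

lemma isOpen_Box (z : ℝ × ℝ) (W : ℝ) : IsOpen (Box z W) :=
  (isOpen_lt (f := fun y : ℝ × ℝ => |y.1 - z.1|) (by fun_prop) continuous_const).inter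
    (isOpen_lt (f := fun y : ℝ × ℝ => |y.2 - z.2|) (by fun_prop) continuous_const)

lemma measurableSet_Box (z : ℝ × ℝ) (W : ℝ) : MeasurableSet (Box z W) :=
  (isOpen_Box z W).measurableSet

namespace Cfg

variable {ι : Type} (K : Cfg ι)

noncomputable def q : ℝ := K.A / K.τ

lemma q_mul : K.q * K.τ = K.A := div_mul_cancel₀ _ K.τ_pos.ne'

lemma one_le_q : 1 ≤ K.q := by
  unfold q
  rw [le_div_iff₀ K.τ_pos]
  linarith [K.τ_le, K.one_le]

def Par (ε : ℝ) (z : ℝ × ℝ) : Set (ℝ × ℝ) :=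
  {y | |y.1 - z.1| ≤ 14 * K.q ^ 2 * ε ∧ |y.1 - z.1 + (y.2 - z.2) / K.τ| ≤ 14 * K.q ^ 2 * ε}

lemma measurableSet_Par (ε : ℝ) (z : ℝ × ℝ) : MeasurableSet (K.Par ε z) :=
  ((isClosed_le (f := fun y : ℝ × ℝ => |y.1 - z.1|) (by fun_prop) continuous_const).inter
    (isClosed_le (f := fun y : ℝ × ℝ => |y.1 - z.1 + (y.2 - z.2) / K.τ|) (by fun_prop)
      continuous_const)).measurableSet

/-- Local smallness of the bad set `B` near `z` at scale `ε`. -/
structure Loc (P : ℂ) (ρ ε : ℝ) (B : Set (ℝ × ℝ)) (z : ℝ × ℝ) : Prop where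
  good : ∀ y ∈ Box z (168 * K.A * K.q ^ 2 * ε), y ∉ B → (y ∈ K.EP P ↔ rev y ∈ K.EP P) ∧
    K.HasLeaf P (56 * K.q ^ 2 * ε) y ∧ K.HasLeaf P (56 * K.q ^ 2 * ε) (rev y)
  str : ∀ y ∈ Box z (168 * K.A * K.q ^ 2 * ε), |y.2| ≤ ρ
  small : volume (B ∩ Box z (168 * K.A * K.q ^ 2 * ε)) ≤
    ENNReal.ofReal (ε ^ 2 / (4 * (1 + 448 * K.q ^ 2)))

variable {K}

lemma Par_b {ε : ℝ} {z y : ℝ × ℝ} (h : y ∈ K.Par ε z) :
    |y.2 - z.2| ≤ K.τ * (28 * K.q ^ 2 * ε) := by
  have hτ := K.τ_pos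
  have h1 := abs_le.1 h.1
  have h2 := abs_le.1 h.2
  have e : y.2 - z.2 = K.τ * ((y.2 - z.2) / K.τ) := by field_simp
  rw [e, abs_mul, abs_of_pos hτ]
  refine mul_le_mul_of_nonneg_left ?_ hτ.le
  rw [abs_le]; constructor <;> linarith

lemma near_mem_Box {ε : ℝ} (hε : 0 < ε) {z y w : ℝ × ℝ} (h : y ∈ K.Par ε z)
    (h1 : |w.1 - y.1| ≤ 56 * K.q ^ 2 * ε) (h2 : |w.2 - y.2| ≤ 2 * K.A * (56 * K.q ^ 2 * ε)) :
    w ∈ Box z (168 * K.A * K.q ^ 2 * ε) := by
  have a1 := abs_le.1 h.1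
  have a2 := abs_le.1 (Par_b h)
  have a3 := abs_le.1 h1
  have a4 := abs_le.1 h2
  have hq := K.one_le_q
  have p : 0 < K.q ^ 2 * ε := by positivity
  have b1 := mul_le_mul_of_nonneg_right K.one_le p.le
  have b2 := mul_le_mul_of_nonneg_right K.τ_le p.le
  constructor <;> rw [abs_lt] <;> constructor <;> nlinarith

lemma Par_mem_Box {ε : ℝ} (hε : 0 < ε) {z z' y : ℝ × ℝ} (h : y ∈ K.Par ε z')
    (h1 : |z'.1 - z.1| ≤ ε) (h2 : |z'.2 - z.2| ≤ ε) : y ∈ Box z (168 * K.A * K.q ^ 2 * ε) := by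
  have a1 := abs_le.1 h.1
  have a2 := abs_le.1 (Par_b h)
  have a3 := abs_le.1 h1
  have a4 := abs_le.1 h2
  have hq := K.one_le_q
  have p : 0 < K.q ^ 2 * ε := by positivity
  have p2 : ε ≤ K.q ^ 2 * ε := by nlinarith [one_le_pow₀ (n := 2) hq]
  have b1 := mul_le_mul_of_nonneg_right K.one_le p.le
  have b2 := mul_le_mul_of_nonneg_right K.τ_le p.le
  constructor <;> rw [abs_lt] <;> constructor <;> nlinarith

lemma IsLeaf.cross {P : ℂ} {ω : List ι} {φ β₀ βm βp : ℝ} {u s : ℝ → ℝ} {σ ε : ℝ} (hε : 0 < ε)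
    (h : K.IsLeaf P ω φ β₀ (56 * K.q ^ 2 * ε) βm βp u s σ) {z z' : ℝ × ℝ}
    (hz : K.back P ω (φ, β₀) ∈ K.Par ε z) (h1 : |z'.1 - z.1| ≤ ε) (h2 : |z'.2 - z.2| ≤ ε) :
    ∃ β ∈ Icc βm βp, (K.back P ω (φ, β)).2 = z'.2 ∧
      |(K.back P ω (φ, β)).1 - z'.1| ≤ 14 * K.q ^ 2 * ε + ε + K.q * ε ∧
      |(K.back P ω (φ, β)).1 - (K.back P ω (φ, β₀)).1| + ε ≤ 56 * K.q ^ 2 * ε := by
  have hτ := K.τ_pos
  have hq := K.one_le_q
  have hqτ := K.q_mul
  have hA := K.one_le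
  have a1 := abs_le.1 hz.1
  have a2 := abs_le.1 (Par_b hz)
  have a5 := abs_le.1 hz.2
  have a3 := abs_le.1 h1
  have a4 := abs_le.1 h2
  have p1 : ε ≤ K.q * ε := by nlinarith
  have p2 : K.q * ε ≤ K.q ^ 2 * ε := by nlinarith [mul_pos (zero_lt_one.trans_le hq) hε]
  have p3 : ε ≤ K.τ * (K.q * ε) := by nlinarith
  have p4 := mul_le_mul_of_nonneg_left p2 hτ.le
  have p5 : 0 < K.q ^ 2 * ε := by positivity
  obtain ⟨β, b1, b2⟩ := h.ivt (F := fun y => y.2 - z'.2) (by fun_prop)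
    (fun β hβ e => by
      obtain ⟨a, c1, _, c3⟩ := h.slope h.mem hβ
      rw [e] at c3
      nlinarith [mul_le_mul_of_nonneg_right c1 p5.le])
    (fun β hβ e => by
      obtain ⟨a, c1, _, c3⟩ := h.slope h.mem hβ
      rw [e] at c3
      nlinarith [mul_le_mul_of_nonneg_right c1 p5.le])
  obtain ⟨a, c1, _, c3⟩ := h.slope h.mem b1
  set y₀ := K.back P ω (φ, β₀)
  set y := K.back P ω (φ, β)
  have e1 : y.2 = z'.2 := by linarith
  set v := (y₀.2 - z.2) / K.τ with hv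
  set v' := (z.2 - z'.2) / K.τ with hv'
  have hv'' : |v'| ≤ K.q * ε := by
    rw [hv', abs_div, abs_of_pos hτ, div_le_iff₀ hτ, abs_le]
    constructor <;> linarith
  have a6 := abs_le.1 hv''
  have e2 : a * (y.1 - y₀.1) = K.τ * (v + v') := by
    rw [hv, hv']; field_simp; linarith
  have hbet : (0 ≤ y.1 - y₀.1 ∧ y.1 - y₀.1 ≤ v + v') ∨ (v + v' ≤ y.1 - y₀.1 ∧ y.1 - y₀.1 ≤ 0) := by
    rcases le_total 0 (y.1 - y₀.1) with h0 | h0
    · left
      refine ⟨h0, le_of_mul_le_mul_left ?_ hτ⟩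
      nlinarith [mul_le_mul_of_nonneg_right c1 h0]
    · right
      refine ⟨le_of_mul_le_mul_left ?_ hτ, h0⟩
      nlinarith [mul_le_mul_of_nonneg_right c1 (neg_nonneg.2 h0)]
  refine ⟨β, b1, e1, ?_, ?_⟩
  · rw [abs_le]
    rcases hbet with h0 | h0 <;> constructor <;> linarith [h0.1, h0.2]
  · have : |y.1 - y₀.1| ≤ 28 * K.q ^ 2 * ε + K.q * ε := by
      rw [abs_le]
      rcases hbet with h0 | h0 <;> constructor <;> linarith [h0.1, h0.2]
    linarith

variable [Fintype ι]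

lemma Loc.select {P : ℂ} {ρ ε : ℝ} (hP : K.Adm P ρ) (hε : 0 < ε) (hℓ : 56 * K.q ^ 2 * ε ≤ 1)
    {B : Set (ℝ × ℝ)} (hB : MeasurableSet B) {z : ℝ × ℝ} (h : K.Loc P ρ ε B z)
    (hE : ENNReal.ofReal (ε ^ 2 / 2) ≤ volume (K.Par ε z ∩ K.EP P)) :
    ∃ ω φ β₀ βm βp u s σ, K.IsLeaf P ω φ β₀ (56 * K.q ^ 2 * ε) βm βp u s σ ∧
      K.back P ω (φ, β₀) ∈ K.Par ε z ∧
      volume {β | β ∈ Icc βm βp ∧ K.back P ω (φ, β) ∈ B} ≤
        ENNReal.ofReal (ε / (2 * (σ * u β₀))) := by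
  by_contra hcon
  push Not at hcon
  have hq := K.one_le_q
  have hPB : ∀ y ∈ K.Par ε z, y ∈ Box z (168 * K.A * K.q ^ 2 * ε) := fun y hy =>
    Par_mem_Box hε hy (by simpa using hε.le) (by simpa using hε.le)
  have key := section_le (K := K) P (R := K.Par ε z \ B)
    (S := B ∩ Box z (168 * K.A * K.q ^ 2 * ε)) ((K.measurableSet_Par ε z).diff hB)
    (hB.inter (measurableSet_Box _ _)) (c := ENNReal.ofReal (448 * K.q ^ 2))
    ENNReal.ofReal_ne_top (fun ω φ => by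
      rcases Set.eq_empty_or_nonempty {β | K.back P ω (φ, β) ∈ K.Par ε z \ B ∧
        K.Esc P ω (K.back P ω (φ, β))} with he | ⟨β₀, h1, h2⟩
      · rw [he, measure_empty]; exact zero_le
      obtain ⟨βm, βp, u, s, σ, hl⟩ := (h.good _ (hPB _ h1.1) h1.2).2.1 ω φ β₀ rfl h2
      have hbox : ∀ β ∈ Icc βm βp, K.back P ω (φ, β) ∈ Box z (168 * K.A * K.q ^ 2 * ε) :=
        fun β hβ => near_mem_Box hε h1.1 (hl.rng β hβ) (hl.rng2 β hβ)
      have hpos := hl.pos β₀ hl.mem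
      have c := (hcon ω φ β₀ βm βp u s σ hl h1.1).le
      calc _ ≤ volume (Icc βm βp) := by
            refine measure_mono fun β hβ => ?_
            have a1 := abs_le.1 hβ.1.1.1
            have a2 := abs_le.1 h1.1.1
            have a3 := abs_le.1 (Par_b hβ.1.1)
            have a4 := abs_le.1 (Par_b h1.1)
            have p : 0 < K.q ^ 2 * ε := by positivity
            refine hl.mem_of_near hP (fun β hβ => h.str _ (hbox β hβ)) (h.str _ (hPB _ hβ.1.1))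
              hβ.2 hℓ ?_ ?_
            · rw [abs_le]; constructor <;> linarith
            · rw [abs_le]; constructor <;> linarith
        _ ≤ ENNReal.ofReal (448 * K.q ^ 2) * ENNReal.ofReal (ε / (2 * (σ * u β₀))) := by
            rw [Real.volume_Icc, ← ENNReal.ofReal_mul (by positivity)]
            refine ENNReal.ofReal_le_ofReal (hl.total.trans (le_of_eq ?_))
            generalize σ * u β₀ = V at hpos
            field_simp; ring
        _ ≤ _ := by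
            refine mul_le_mul_right (c.trans (measure_mono fun β hβ => ?_)) _
            exact ⟨⟨hβ.2, hbox β hβ.1⟩, EscR.esc ω (hl.esc β hβ.1)⟩)
  have hsub : K.Par ε z ∩ K.EP P ⊆ (K.Par ε z \ B) ∩ K.EP P ∪
      B ∩ Box z (168 * K.A * K.q ^ 2 * ε) := by
    intro y hy
    by_cases hb : y ∈ B
    · exact Or.inr ⟨hb, hPB y hy.1⟩
    · exact Or.inl ⟨⟨hy.1, hb⟩, hy.2⟩
  have h3 := hE.trans ((measure_mono hsub).trans ((measure_union_le _ _).trans
    (add_le_add (key.trans (mul_le_mul_right h.small _)) h.small)))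
  rw [← ENNReal.ofReal_mul (by positivity), ← ENNReal.ofReal_add (by positivity) (by positivity),
    ENNReal.ofReal_le_ofReal_iff (by positivity)] at h3
  have e : 448 * K.q ^ 2 * (ε ^ 2 / (4 * (1 + 448 * K.q ^ 2))) + ε ^ 2 / (4 * (1 + 448 * K.q ^ 2))
      = ε ^ 2 / 4 := by field_simp; ring
  rw [e] at h3
  have : 0 < ε ^ 2 := by positivity
  linarith

lemma Loc.hit {P : ℂ} {ρ ε : ℝ} (hP : K.Adm P ρ) (hε : 0 < ε) (hℓ : 56 * K.q ^ 2 * ε ≤ 1)
    {B : Set (ℝ × ℝ)} (hB : MeasurableSet B) {z : ℝ × ℝ} (h : K.Loc P ρ ε B z)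
    (hE : ENNReal.ofReal (ε ^ 2 / 2) ≤ volume (K.Par ε z ∩ K.EP P)) :
    ∃ X, |X - z.1| ≤ 56 * K.q ^ 2 * ε ∧ (X, z.2) ∈ K.EE P := by
  obtain ⟨ω, φ, β₀, βm, βp, u, s, σ, hl, h1, _⟩ := h.select hP hε hℓ hB hE
  obtain ⟨β, b1, b2, b3, _⟩ := hl.cross hε (z' := z) h1 (by simpa using hε.le)
    (by simpa using hε.le)
  have hq := K.one_le_q
  have p1 : ε ≤ K.q * ε := by nlinarith
  have p2 : K.q * ε ≤ K.q ^ 2 * ε := by nlinarith [mul_pos (zero_lt_one.trans_le hq) hε]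
  refine ⟨(K.back P ω (φ, β)).1, by linarith, ω, ?_⟩
  rw [← b2]
  exact hl.esc β b1

lemma Loc.step {P : ℂ} {ρ ε : ℝ} (hP : K.Adm P ρ) (hε : 0 < ε) (hℓ : 56 * K.q ^ 2 * ε ≤ 1)
    {B : Set (ℝ × ℝ)} (hB : MeasurableSet B) {z : ℝ × ℝ} (h : K.Loc P ρ ε B z)
    (hE : ENNReal.ofReal (ε ^ 2 / 2) ≤ volume (K.Par ε z ∩ K.EP P)) {z' : ℝ × ℝ}
    (h1 : |z'.1 - z.1| ≤ ε) (h2 : |z'.2 - z.2| ≤ ε) :
    ENNReal.ofReal (ε ^ 2 / 2) ≤ volume (K.Par ε z' ∩ K.EP P) := by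
  obtain ⟨ω, φ, β₀, βm, βp, u, s, σ, hl, hz, hbad⟩ := h.select hP hε hℓ hB hE
  obtain ⟨β₁, b1, b2, b3, b4⟩ := hl.cross hε hz h1 h2
  have hτ := K.τ_pos
  have hq := K.one_le_q
  have hqτ := K.q_mul
  have hA := K.one_le
  have p1 : ε ≤ K.q * ε := by nlinarith
  have p2 : K.q * ε ≤ K.q ^ 2 * ε := by nlinarith [mul_pos (zero_lt_one.trans_le hq) hε]
  set Γ : ℝ → ℝ × ℝ := fun β => K.back P ω (φ, β) with hΓ
  have cΓ : Continuous Γ := (continuous_back ω P).comp (by fun_prop)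
  have hbox : ∀ β ∈ Icc βm βp, Γ β ∈ Box z (168 * K.A * K.q ^ 2 * ε) :=
    fun β hβ => near_mem_Box hε hz (hl.rng β hβ) (hl.rng2 β hβ)
  have hpos := hl.pos β₀ hl.mem
  set U := σ * u β₀ with hU
  set X := (Γ β₁).1 with hX
  obtain ⟨σ', hσ', hs1⟩ : ∃ σ' : ℝ, (σ' = 1 ∨ σ' = -1) ∧ σ' * (X - z'.1) ≤ 0 := by
    rcases le_total X z'.1 with h0 | h0
    · exact ⟨1, Or.inl rfl, by linarith⟩
    · exact ⟨-1, Or.inr rfl, by linarith⟩
  set J : Set ℝ := {β | β ∈ Icc βm βp ∧ (Γ β).1 ∈ Icc (X - ε) (X + ε)} \ Γ ⁻¹' B with hJ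
  have mJ : MeasurableSet J :=
    (measurableSet_Icc.inter ((continuous_fst.comp cΓ).measurable measurableSet_Icc)).diff
      (cΓ.measurable hB)
  have hJv : ENNReal.ofReal (ε / (2 * U)) ≤ volume J := by
    have a1 := abs_le.1 (show |X - (Γ β₀).1| ≤ 56 * K.q ^ 2 * ε - ε by linarith)
    have := hl.vol_band (a := X - ε) (a' := X + ε) (by linarith)
      (by rw [abs_le]; constructor <;> linarith) (by rw [abs_le]; constructor <;> linarith) hl.mem
    have hsub : {β | β ∈ Icc βm βp ∧ (Γ β).1 ∈ Icc (X - ε) (X + ε)} ⊆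
        J ∪ {β | β ∈ Icc βm βp ∧ K.back P ω (φ, β) ∈ B} := by
      intro β hβ
      by_cases hb : Γ β ∈ B
      · exact Or.inr ⟨hβ.1, hb⟩
      · exact Or.inl ⟨hβ, hb⟩
    have h3 := this.trans ((measure_mono hsub).trans ((measure_union_le _ _).trans
      (add_le_add le_rfl hbad)))
    have e : (X + ε - (X - ε)) / (2 * U) = ε / (2 * U) + ε / (2 * U) := by ring
    rw [e, ENNReal.ofReal_add (by positivity) (by positivity)] at h3
    exact (ENNReal.add_le_add_iff_right ENNReal.ofReal_ne_top).1 h3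
  have hab : ∀ β ∈ Icc βm βp, |u β| = σ * u β := fun β hβ => by
    have := hl.pos β hβ
    rcases hl.sg with e | e <;> rw [e] at this ⊢
    · rw [abs_of_pos (by linarith)]; ring
    · rw [abs_of_neg (by linarith)]; ring
  set T : Set (ℝ × ℝ) := (fun w : ℝ × ℝ => (w.1 - π, -w.2)) ⁻¹' K.Par ε z' with hT
  have mT : MeasurableSet T := measurableSet_preimage (by fun_prop) (K.measurableSet_Par ε z')
  have key := launch (K := K) hP (γ := fun β => rev (Γ β)) (continuous_rev.comp cΓ) mJ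
    (p := u) (a := s) (U := U / 2) (ℓ := 56 * K.q ^ 2 * ε) (ℓ₁ := 3 * (K.q * ε)) (σ' := σ')
    (by linarith) (by linarith) (by linarith) hσ'
    (fun β hβ => ⟨(hl.hd β hβ.1.1).1.add_const π, by
      have := (hl.hd β hβ.1.1).2.neg
      rwa [neg_neg] at this⟩)
    (fun β hβ => hl.s0 β hβ.1.1)
    (fun β hβ => by rw [hab β hβ.1.1]; linarith [hl.dist β₀ hl.mem β hβ.1.1])
    (fun β hβ => by simpa [rev] using h.str _ (hbox β hβ.1.1))
    (fun β hβ β' hβ' hne => by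
      obtain ⟨a, c1, _, c3⟩ := hl.slope hβ'.1.1 hβ.1.1
      have r1 := hβ.1.2
      have r2 := hβ'.1.2
      have hne' : (Γ β).1 - (Γ β').1 ≠ 0 := by
        intro e0
        rcases lt_or_gt_of_ne hne with hlt | hlt
        · have := hl.len_lo hβ.1.1 hβ'.1.1 hl.mem hlt.le
          have e1 : (Γ β').1 = (Γ β).1 := by linarith
          change _ ≤ σ * (Γ β').1 - σ * (Γ β).1 at this
          rw [e1, sub_self] at this
          nlinarith [sub_pos.2 hlt]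
        · have := hl.len_lo hβ'.1.1 hβ.1.1 hl.mem hlt.le
          have e1 : (Γ β').1 = (Γ β).1 := by linarith
          change _ ≤ σ * (Γ β).1 - σ * (Γ β').1 at this
          rw [e1, sub_self] at this
          nlinarith [sub_pos.2 hlt]
      simp only [rev]
      constructor
      · have e2 : -(Γ β).2 - -(Γ β').2 = a * ((Γ β).1 - (Γ β').1) := by
          change (Γ β).2 - (Γ β').2 = -a * ((Γ β).1 - (Γ β').1) at c3
          linarith
        have e3 : (Γ β).1 + π - ((Γ β').1 + π) = (Γ β).1 - (Γ β').1 := by ring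
        rw [e2, e3, mul_assoc]
        exact mul_pos (by linarith) (mul_self_pos.2 hne')
      · rw [abs_lt]; constructor <;> linarith [r1.1, r1.2, r2.1, r2.2, pi_gt_three])
    (fun β hβ => (h.good _ (hbox β hβ.1.1) hβ.2).1.1 ⟨ω, EscR.esc ω (hl.esc β hβ.1.1)⟩)
    (fun β hβ => (h.good _ (hbox β hβ.1.1) hβ.2).2.2) mT
    (fun β hβ d c d1 d2 c1 c2 => by
      obtain ⟨a, a1, a2, a3⟩ := hl.slope b1 hβ.1.1
      change (Γ β).2 - (Γ β₁).2 = -a * ((Γ β).1 - X) at a3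
      have b2' : (Γ β₁).2 = z'.2 := b2
      have r1 := hβ.1.2
      have b3' := abs_le.1 b3
      have hd0 : 0 ≤ d := by linarith
      have k1 : |((Γ β).2 - z'.2) / K.τ| ≤ K.q * ε := by
        rw [abs_div, abs_of_pos hτ, div_le_iff₀ hτ, ← b2', a3, abs_mul, abs_neg,
          abs_of_pos (by linarith)]
        have : |(Γ β).1 - X| ≤ ε := by rw [abs_le]; constructor <;> linarith [r1.1, r1.2]
        calc _ ≤ K.A * ε := mul_le_mul a2 this (abs_nonneg _) (by linarith)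
          _ = _ := by rw [← hqτ]; ring
      have k2 : d ≤ c * d / K.τ := by
        rw [le_div_iff₀ hτ]; nlinarith
      have k3 : c * d / K.τ ≤ 6 * (K.q ^ 2 * ε) := by
        rw [div_le_iff₀ hτ]
        calc c * d ≤ K.A * (2 * (3 * (K.q * ε))) := mul_le_mul c2 d2 hd0 (by linarith)
          _ = _ := by rw [← hqτ]; ring
      have k1' := abs_le.1 k1
      simp only [hT, rev, mem_preimage, Par, mem_ofPred_eq]
      have e1 : (Γ β).1 + π + σ' * d - π - z'.1 = (Γ β).1 - z'.1 + σ' * d := by ring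
      have e2 : (-(-(Γ β).2 - c * (σ' * d)) - z'.2) / K.τ
          = ((Γ β).2 - z'.2) / K.τ + σ' * (c * d / K.τ) := by ring
      rw [e1, e2]
      constructor <;> rw [abs_le] <;> rcases hσ' with e | e <;> rw [e] at hs1 ⊢ <;>
        constructor <;> linarith [r1.1, r1.2])
  have h4 : ENNReal.ofReal (3 * ε ^ 2 / 4) ≤ volume (T ∩ K.EP P) := by
    refine le_trans ?_ ((mul_le_mul_right hJv _).trans key)
    rw [← ENNReal.ofReal_mul (by positivity)]
    refine ENNReal.ofReal_le_ofReal ?_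
    have e : K.τ * (U / 2) * (3 * (K.q * ε)) * (ε / (2 * U)) = 3 * (K.q * K.τ) * ε ^ 2 / 4 := by
      field_simp; ring
    rw [e, hqτ]
    nlinarith [sq_nonneg ε]
  rw [← mp_rev.measure_preimage (mT.inter (measurableSet_EP P)).nullMeasurableSet] at h4
  have hsub : rev ⁻¹' (T ∩ K.EP P) ⊆ K.Par ε z' ∩ K.EP P ∪
      B ∩ Box z (168 * K.A * K.q ^ 2 * ε) := by
    rintro y ⟨a1, a2⟩
    have a3 : y ∈ K.Par ε z' := by simpa [hT, rev] using a1
    have a4 := Par_mem_Box hε a3 h1 h2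
    by_cases hb : y ∈ B
    · exact Or.inr ⟨hb, a4⟩
    · exact Or.inl ⟨a3, (h.good y a4 hb).1.2 a2⟩
  have h5 := h4.trans ((measure_mono hsub).trans ((measure_union_le _ _).trans
    (add_le_add le_rfl (h.small.trans (ENNReal.ofReal_le_ofReal (q := ε ^ 2 / 4) ?_)))))
  · have e : 3 * ε ^ 2 / 4 = ε ^ 2 / 2 + ε ^ 2 / 4 := by ring
    rw [e, ENNReal.ofReal_add (by positivity) (by positivity)] at h5
    exact (ENNReal.add_le_add_iff_right ENNReal.ofReal_ne_top).1 h5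
  · refine div_le_div_of_nonneg_left (by positivity) (by norm_num) ?_
    nlinarith [sq_nonneg K.q]

omit [Fintype ι] in
lemma Loc.start {P : ℂ} {ε : ℝ} (hε : 0 < ε) {z : ℝ × ℝ}
    (h : Box z (168 * K.A * K.q ^ 2 * ε) ⊆ K.EP P) :
    ENNReal.ofReal (ε ^ 2 / 2) ≤ volume (K.Par ε z ∩ K.EP P) := by
  have hτ := K.τ_pos
  have hq := K.one_le_q
  have hqτ := K.q_mul
  have hA := K.one_le
  have p1 : ε ≤ K.q * ε := by nlinarith
  have p2 : K.q * ε ≤ K.q ^ 2 * ε := by nlinarith [mul_pos (zero_lt_one.trans_le hq) hε]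
  have p3 : ε ≤ K.τ * (K.q * ε) := by nlinarith
  have hsub : Icc z.1 (z.1 + ε) ×ˢ Icc z.2 (z.2 + ε) ⊆ K.Par ε z ∩ K.EP P := by
    rintro y ⟨a1, a2⟩
    have : y ∈ K.Par ε z := by
      have k1 : 0 ≤ (y.2 - z.2) / K.τ := div_nonneg (by linarith [a2.1]) hτ.le
      have k2 : (y.2 - z.2) / K.τ ≤ K.q * ε := by
        rw [div_le_iff₀ hτ]; linarith [a2.2]
      constructor <;> rw [abs_le] <;> constructor <;> linarith [a1.1, a1.2]
    exact ⟨this, h (Par_mem_Box hε this (by simpa using hε.le) (by simpa using hε.le))⟩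
  refine le_trans ?_ (measure_mono hsub)
  rw [Measure.volume_eq_prod, Measure.prod_prod, Real.volume_Icc, Real.volume_Icc,
    ← ENNReal.ofReal_mul (by linarith)]
  refine ENNReal.ofReal_le_ofReal ?_
  nlinarith [sq_nonneg ε]

/-- Propagation along a segment all of whose points are good. -/
lemma Loc.segment {P : ℂ} {ρ ε : ℝ} (hP : K.Adm P ρ) (hε : 0 < ε) (hℓ : 56 * K.q ^ 2 * ε ≤ 1)
    {B : Set (ℝ × ℝ)} (hB : MeasurableSet B) {z z' : ℝ × ℝ}
    (h : ∀ t ∈ Icc (0 : ℝ) 1, K.Loc P ρ ε B (z.1 + t * (z'.1 - z.1), z.2 + t * (z'.2 - z.2)))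
    (hE : ENNReal.ofReal (ε ^ 2 / 2) ≤ volume (K.Par ε z ∩ K.EP P)) :
    ENNReal.ofReal (ε ^ 2 / 2) ≤ volume (K.Par ε z' ∩ K.EP P) := by
  obtain ⟨N, hN⟩ := exists_nat_gt ((|z'.1 - z.1| + |z'.2 - z.2|) / ε)
  have hN0 : (0 : ℝ) < N := lt_of_le_of_lt (by positivity) hN
  rw [div_lt_iff₀ hε] at hN
  have key : ∀ n : ℕ, n ≤ N → ENNReal.ofReal (ε ^ 2 / 2) ≤ volume (K.Par ε
      (z.1 + n / N * (z'.1 - z.1), z.2 + n / N * (z'.2 - z.2)) ∩ K.EP P) := by
    intro n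
    induction n with
    | zero => intro _; simpa using hE
    | succ n ih =>
      intro hn
      have hn' : (n : ℝ) ≤ N := by exact_mod_cast (by omega : n ≤ N)
      refine (h (n / N) ⟨by positivity, by rw [div_le_one hN0]; exact hn'⟩).step hP hε hℓ hB
        (ih (by omega)) ?_ ?_
      · have e : z.1 + ((n + 1 : ℕ) : ℝ) / N * (z'.1 - z.1) - (z.1 + n / N * (z'.1 - z.1))
            = (z'.1 - z.1) / N := by push_cast; field_simp; ring
        simp only [e]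
        rw [abs_div, abs_of_pos hN0, div_le_iff₀ hN0]
        linarith [abs_nonneg (z'.2 - z.2)]
      · have e : z.2 + ((n + 1 : ℕ) : ℝ) / N * (z'.2 - z.2) - (z.2 + n / N * (z'.2 - z.2))
            = (z'.2 - z.2) / N := by push_cast; field_simp; ring
        simp only [e]
        rw [abs_div, abs_of_pos hN0, div_le_iff₀ hN0]
        linarith [abs_nonneg (z'.1 - z.1)]
  have := key N le_rfl
  rw [div_self hN0.ne', one_mul, one_mul, add_sub_cancel, add_sub_cancel] at this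
  exact this

end Cfg

end Pool.Agent.Lib.MP_ab57f0_an
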