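import Pool.Agent.Lib.MP_ab57f0_an.Geom

/-! Periodicity, change of base point, time reversal, measurability. -/

set_option autoImplicit false

namespace Pool.Agent.Lib.MP_ab57f0_an

open Real Set MeasureTheory Filter Topology

lemma rev_rev (z : ℝ × ℝ) : rev (rev z) = sh z := by
  ext
  · simp only [rev, sh]; ring
  · simp only [rev, sh, neg_neg]

lemma continuous_rev : Continuous rev := by unfold rev; fun_prop

lemma continuous_sh : Continuous sh := by unfold sh; fun_prop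

namespace Cfg

variable {ι : Type} {K : Cfg ι}

lemma e_sh (P : ℂ) (z : ℝ × ℝ) (l : ι) : K.e P (sh z) l = K.e P z l := ee_add_two_pi _ _

lemma b_sh (P : ℂ) (z : ℝ × ℝ) (l : ι) : K.b P (sh z) l = K.b P z l := by
  simp only [b, sh, ss_add_two_pi]

lemma ahead_sh (P : ℂ) (z : ℝ × ℝ) (l : ι) : K.Ahead P (sh z) l ↔ K.Ahead P z l := by
  simp only [Ahead, e_sh, b_sh]

lemma next_sh (P : ℂ) (z : ℝ × ℝ) (l : ι) : K.Next P (sh z) l ↔ K.Next P z l := by
  simp only [Next, ahead_sh, e_sh]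

lemma step_sh (P : ℂ) (k : ι) (z : ℝ × ℝ) : K.step P k (sh z) = sh (K.step P k z) := by
  ext
  · simp only [step, b_sh]; simp only [sh]; ring
  · simp only [step, b_sh]; simp only [sh]

lemma iota_sh (k : ι) (z : ℝ × ℝ) : K.iota k (sh z) = sh (K.iota k z) := by
  ext
  · simp only [iota, sh]; ring
  · simp only [iota, sh]

lemma esc_sh : ∀ (ω : List ι) (P : ℂ) (z : ℝ × ℝ), K.Esc P ω (sh z) ↔ K.Esc P ω z
  | [], P, z => by simp only [Esc, ahead_sh]
  | k :: ω, P, z => by simp only [Esc, next_sh, step_sh, esc_sh ω]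

lemma escR_sh : ∀ (ω : List ι) (P : ℂ) (z : ℝ × ℝ), K.EscR P ω (sh z) ↔ K.EscR P ω z
  | [], P, z => by simp only [EscR, ahead_sh]
  | k :: ω, P, z => by simp only [EscR, next_sh, step_sh, b_sh, escR_sh ω]

lemma regN_sh : ∀ (n : ℕ) (P : ℂ) (z : ℝ × ℝ), K.RegN n P (sh z) ↔ K.RegN n P z
  | 0, P, z => by simp only [RegN]
  | n + 1, P, z => by simp only [RegN, next_sh, step_sh, b_sh, regN_sh n]

lemma tanAt_sh : ∀ (ω : List ι) (P : ℂ) (k : ι) (z : ℝ × ℝ),
    K.TanAt P ω k (sh z) ↔ K.TanAt P ω k z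
  | [], P, k, z => by simp only [TanAt, next_sh, b_sh]
  | l :: ω, P, k, z => by simp only [TanAt, next_sh, step_sh, b_sh, tanAt_sh ω]

lemma EP_sh (P : ℂ) (z : ℝ × ℝ) : sh z ∈ K.EP P ↔ z ∈ K.EP P := by
  simp only [EP, mem_ofPred_eq, esc_sh]

lemma EE_sh (P : ℂ) (z : ℝ × ℝ) : sh z ∈ K.EE P ↔ z ∈ K.EE P := by
  simp only [EE, mem_ofPred_eq, escR_sh]

lemma Near_sh (η : ℝ) (P : ℂ) (z : ℝ × ℝ) : sh z ∈ K.Near η P ↔ z ∈ K.Near η P := by
  simp only [Near, mem_ofPred_eq, e_sh, b_sh]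

lemma Pre_sh {B : ι → Set (ℝ × ℝ)} (hB : ∀ k z, sh z ∈ B k ↔ z ∈ B k) (P : ℂ) (z : ℝ × ℝ) :
    sh z ∈ K.Pre P B ↔ z ∈ K.Pre P B := by
  simp only [Pre, mem_ofPred_eq, next_sh, step_sh, hB]

lemma Lev_sh {N : ℂ → Set (ℝ × ℝ)} (hN : ∀ P z, sh z ∈ N P ↔ z ∈ N P) :
    ∀ (j : ℕ) (P : ℂ) (z : ℝ × ℝ), sh z ∈ K.Lev N j P ↔ z ∈ K.Lev N j P
  | 0, P, z => hN P z
  | j + 1, P, z => Pre_sh (fun k z => Lev_sh hN j (K.c k) z) P z

/-- Two states describing the same line with the same disks ahead. -/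
def Same (K : Cfg ι) (P P' : ℂ) (z z' : ℝ × ℝ) : Prop :=
  z'.1 = z.1 ∧ z'.2 = z.2 + ss (P' - P) z.1 ∧ ∀ l, K.Ahead P z l ↔ K.Ahead P' z' l

lemma Same.b_eq {P P' : ℂ} {z z' : ℝ × ℝ} (h : K.Same P P' z z') (l : ι) :
    K.b P' z' l = K.b P z l := b_rebase P P' z z' h.1 h.2.1 l

lemma Same.next {P P' : ℂ} {z z' : ℝ × ℝ} (h : K.Same P P' z z') (k : ι) :
    K.Next P z k ↔ K.Next P' z' k := by
  simp only [Next, ← h.2.2, e_rebase P P' z z' h.1, sub_le_sub_iff_right]

lemma Same.step_eq {P P' : ℂ} {z z' : ℝ × ℝ} (h : K.Same P P' z z') (k : ι) :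
    K.step P' k z' = K.step P k z := by
  simp only [step, h.b_eq, h.1]

lemma Same.esc {P P' : ℂ} {z z' : ℝ × ℝ} (h : K.Same P P' z z') :
    ∀ ω : List ι, K.Esc P ω z ↔ K.Esc P' ω z'
  | [] => by simp only [Esc, h.2.2]
  | k :: ω => by simp only [Esc, h.next, h.step_eq]

lemma Same.escR {P P' : ℂ} {z z' : ℝ × ℝ} (h : K.Same P P' z z') :
    ∀ ω : List ι, K.EscR P ω z ↔ K.EscR P' ω z'
  | [] => by simp only [EscR, h.2.2]
  | k :: ω => by simp only [EscR, h.next, h.step_eq, h.b_eq]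

lemma Same.regN {P P' : ℂ} {z z' : ℝ × ℝ} (h : K.Same P P' z z') :
    ∀ n : ℕ, K.RegN n P z ↔ K.RegN n P' z'
  | 0 => by simp only [RegN]
  | n + 1 => by simp only [RegN, h.next, h.step_eq, h.b_eq]

lemma Same.EE {P P' : ℂ} {z z' : ℝ × ℝ} (h : K.Same P P' z z') : z ∈ K.EE P ↔ z' ∈ K.EE P' := by
  simp only [Cfg.EE, mem_ofPred_eq, h.escR]

lemma Same.EP {P P' : ℂ} {z z' : ℝ × ℝ} (h : K.Same P P' z z') : z ∈ K.EP P ↔ z' ∈ K.EP P' := by
  simp only [Cfg.EP, mem_ofPred_eq, h.esc]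

lemma e_rev (P : ℂ) (z : ℝ × ℝ) (l : ι) : K.e P (rev z) l = - K.e P z l := ee_add_pi _ _

lemma b_rev (P : ℂ) (z : ℝ × ℝ) (l : ι) : K.b P (rev z) l = - K.b P z l := by
  simp only [b, rev, ss_add_pi]; ring

lemma iota_step (P : ℂ) (k : ι) (z : ℝ × ℝ) :
    K.iota k (K.step P k z) = (z.1 + π, - K.b P z k) := by
  ext
  · simp only [iota, step]; ring
  · simp only [iota, step]

lemma e_iota_step (P : ℂ) (k : ι) (z : ℝ × ℝ) (l : ι) :
    K.e (K.c k) (K.iota k (K.step P k z)) l = K.e P z k - K.e P z l := by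
  rw [iota_step, e_rebase P (K.c k) (rev z) (z.1 + π, - K.b P z k) rfl, e_rev]
  simp only [rev, ee_add_pi, e]; ring

lemma b_iota_step (P : ℂ) (k : ι) (z : ℝ × ℝ) (l : ι) :
    K.b (K.c k) (K.iota k (K.step P k z)) l = - K.b P z l := by
  rw [iota_step, b_rebase P (K.c k) (rev z) (z.1 + π, - K.b P z k) rfl, b_rev]
  simp only [rev, ss_add_pi, b]; ring

/-- Going back after a collision leads to the previous disk. -/
lemma Next.back {i k : ι} {z : ℝ × ℝ} (hk : K.Next (K.c i) z k) (hz : |z.2| ≤ K.r i) :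
    K.Next (K.c k) (K.iota k (K.step (K.c i) k z)) i := by
  refine ⟨⟨?_, ?_⟩, fun l hl => ?_⟩
  · rw [b_iota_step, b_self, abs_neg]; exact hz
  · rw [e_iota_step, e_self, sub_zero]; exact hk.1.2
  · obtain ⟨h1, h2⟩ := hl
    rw [b_iota_step, abs_neg] at h1
    rw [e_iota_step] at h2
    rw [e_iota_step, e_iota_step, e_self]
    by_contra hc
    have := hk.2 l ⟨h1, by linarith⟩
    linarith

lemma b_back (i k : ι) (z : ℝ × ℝ) :
    K.b (K.c k) (K.iota k (K.step (K.c i) k z)) i = - z.2 := by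
  rw [b_iota_step, b_self]

lemma step_back (i k : ι) (z : ℝ × ℝ) :
    K.step (K.c k) i (K.iota k (K.step (K.c i) k z)) = sh (K.iota i z) := by
  unfold step
  rw [show K.b (K.c k) (K.iota k (z.1 + π - 2 * arcsin (K.b (K.c i) z k / K.r k),
    K.b (K.c i) z k)) i = - z.2 from b_back i k z]
  ext
  · simp only [iota, sh, neg_div, arcsin_neg]; ring
  · simp only [iota, sh]

/-- In a chart, going back after the first collision is the reversed state. -/
lemma Chart.same_back {P : ℂ} {ρ : ℝ} (hP : K.Chart P ρ) {z : ℝ × ℝ} (hz : |z.2| ≤ ρ) {k : ι}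
    (hk : K.Next P z k) : K.Same P (K.c k) (rev z) (K.iota k (K.step P k z)) := by
  refine ⟨by rw [iota_step]; rfl, ?_, fun l => ?_⟩
  · rw [iota_step]; simp only [rev, ss_add_pi, b]; ring
  · simp only [Ahead, e_iota_step, b_iota_step, e_rev, b_rev, abs_neg]
    refine and_congr_right fun h1 => ⟨fun h => by linarith [hk.1.2], fun h => ?_⟩
    have hg := gap_gen K.τ_pos hz h1 (hP.2.2 l).2
    have n1 := hh_nonneg ρ z.2
    have n2 := hh_nonneg (K.r l) (K.b P z l)
    have hτ := K.τ_pos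
    rcases lt_trichotomy (K.e P z l) 0 with h' | h' | h'
    · linarith
    · rw [h', abs_zero] at hg; linarith
    · have := hk.2 l ⟨h1, h'⟩; linarith

lemma measurableSet_ahead (P : ℂ) (l : ι) : MeasurableSet {z | K.Ahead P z l} :=
  (measurableSet_le (continuous_b P l).abs.measurable measurable_const).inter
    (measurableSet_lt measurable_const (continuous_e P l).measurable)

lemma measurableSet_next [Finite ι] (P : ℂ) (k : ι) : MeasurableSet {z | K.Next P z k} := by
  have : {z | K.Next P z k} = {z | K.Ahead P z k} ∩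
      ⋂ l, ({z | K.Ahead P z l}ᶜ ∪ {z | K.e P z k ≤ K.e P z l}) := by
    ext z
    simp only [Next, mem_ofPred_eq, mem_inter_iff, mem_iInter, mem_union, mem_compl_iff,
      imp_iff_not_or]
  rw [this]
  exact (measurableSet_ahead P k).inter (MeasurableSet.iInter fun l =>
    (measurableSet_ahead P l).compl.union
      (measurableSet_le (continuous_e P k).measurable (continuous_e P l).measurable))

lemma measurableSet_Pre [Finite ι] (P : ℂ) {B : ι → Set (ℝ × ℝ)} (hB : ∀ k, MeasurableSet (B k)) :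
    MeasurableSet (K.Pre P B) := by
  have : K.Pre P B = ⋃ k, {z | K.Next P z k} ∩ K.step P k ⁻¹' B k := by
    ext z; simp only [Pre, mem_ofPred_eq, mem_iUnion, mem_inter_iff, mem_preimage]
  rw [this]
  exact MeasurableSet.iUnion fun k =>
    (measurableSet_next P k).inter ((continuous_step P k).measurable (hB k))

lemma measurableSet_Lev [Finite ι] {N : ℂ → Set (ℝ × ℝ)} (hN : ∀ P, MeasurableSet (N P)) :
    ∀ (j : ℕ) (P : ℂ), MeasurableSet (K.Lev N j P)
  | 0, P => hN P
  | j + 1, P => measurableSet_Pre P fun k => measurableSet_Lev hN j (K.c k)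

lemma measurableSet_Near [Finite ι] (η : ℝ) (P : ℂ) : MeasurableSet (K.Near η P) := by
  have : K.Near η P = ⋃ l, {z | 0 < K.e P z l} ∩ {z | abs (|K.b P z l| - K.r l) < η} := by
    ext z; simp only [Near, mem_ofPred_eq, mem_iUnion, mem_inter_iff]
  rw [this]
  exact MeasurableSet.iUnion fun l =>
    (measurableSet_lt measurable_const (continuous_e P l).measurable).inter
      (measurableSet_lt ((continuous_b P l).abs.sub continuous_const).abs.measurable
        measurable_const)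

lemma measurableSet_esc [Finite ι] : ∀ (ω : List ι) (P : ℂ), MeasurableSet {z | K.Esc P ω z}
  | [], P => by
    have : {z | K.Esc P [] z} = ⋂ l, {z | K.Ahead P z l}ᶜ := by
      ext z; simp only [Esc, mem_ofPred_eq, mem_iInter, mem_compl_iff]
    rw [this]
    exact MeasurableSet.iInter fun l => (measurableSet_ahead P l).compl
  | k :: ω, P => (measurableSet_next P k).inter
      ((continuous_step P k).measurable (measurableSet_esc ω (K.c k)))

lemma measurableSet_escR [Finite ι] : ∀ (ω : List ι) (P : ℂ), MeasurableSet {z | K.EscR P ω z}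
  | [], P => measurableSet_esc [] P
  | k :: ω, P => (measurableSet_next P k).inter
      ((measurableSet_lt (continuous_b P k).abs.measurable measurable_const).inter
        ((continuous_step P k).measurable (measurableSet_escR ω (K.c k))))

lemma measurableSet_EP [Finite ι] (P : ℂ) : MeasurableSet (K.EP P) := by
  have : K.EP P = ⋃ ω, {z | K.Esc P ω z} := by
    ext z; simp only [EP, mem_ofPred_eq, mem_iUnion]
  rw [this]
  exact MeasurableSet.iUnion fun ω => measurableSet_esc ω P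

lemma measurableSet_EE [Finite ι] (P : ℂ) : MeasurableSet (K.EE P) := by
  have : K.EE P = ⋃ ω, {z | K.EscR P ω z} := by
    ext z; simp only [EE, mem_ofPred_eq, mem_iUnion]
  rw [this]
  exact MeasurableSet.iUnion fun ω => measurableSet_escR ω P

end Cfg

end Pool.Agent.Lib.MP_ab57f0_an
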