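import Pool.Agent.Lib.MP_ab57f0_an.Dense

/-! From regularly escaping states to explicit light paths in the plane. -/

set_option autoImplicit false

namespace Pool.Agent.Lib.MP_ab57f0_an

open Real Set MeasureTheory Filter Topology

namespace Cfg

variable {ι : Type} {K : Cfg ι}

lemma out_of_sq (P : ℂ) (z : ℝ × ℝ) (H s : ℝ) (j : ι)
    (h : K.r j ^ 2 < (H + s - K.e P z j) ^ 2 + K.b P z j ^ 2) :
    K.r j < ‖P + pt H z.2 z.1 + s * pt 1 0 z.1 - K.c j‖ := by
  rw [ray_eq]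
  refine lt_of_pow_lt_pow_left₀ 2 (norm_nonneg _) ?_
  rwa [norm_pt_sq]

lemma out_of_far (P : ℂ) (z : ℝ × ℝ) (H s : ℝ) (j : ι) (hb : |K.b P z j| ≤ K.r j)
    (h : hh (K.r j) (K.b P z j) < |H + s - K.e P z j|) :
    K.r j < ‖P + pt H z.2 z.1 + s * pt 1 0 z.1 - K.c j‖ := by
  refine out_of_sq P z H s j ?_
  have h1 := hh_sq hb
  have h2 := pow_lt_pow_left₀ h (hh_nonneg _ _) two_ne_zero
  rw [sq_abs] at h2
  linarith

lemma out_behind {P : ℂ} {ρ : ℝ} (hP : K.Adm P ρ) {z : ℝ × ℝ} (hz : |z.2| ≤ ρ) {H : ℝ}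
    (H0 : 0 ≤ H) (H2 : ∀ j, P = K.c j → hh (K.r j) z.2 ≤ H) {s : ℝ} (hs : 0 < s) {j : ι}
    (hj : ¬ K.Ahead P z j) : K.r j < ‖P + pt H z.2 z.1 + s * pt 1 0 z.1 - K.c j‖ := by
  by_cases hb : |K.b P z j| ≤ K.r j
  · have he : K.e P z j ≤ 0 := by
      by_contra hc
      exact hj ⟨hb, lt_of_not_ge hc⟩
    refine out_of_far P z H s j hb ?_
    rw [abs_of_pos (by linarith)]
    rcases (hP.2.2 j).2 with h | h
    · have h1 := H2 j h
      have h2 : K.b P z j = z.2 := by rw [h]; exact b_self z j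
      rw [h2]
      linarith
    · have h1 := gap_gen K.τ_pos hz hb h
      rw [abs_of_nonpos he] at h1
      linarith [hh_nonneg ρ z.2, K.τ_pos]
  · refine out_of_sq P z H s j ?_
    have h1 := pow_lt_pow_left₀ (lt_of_not_ge hb) (K.r_pos j).le two_ne_zero
    rw [sq_abs] at h1
    nlinarith [sq_nonneg (H + s - K.e P z j)]

lemma out_before {P : ℂ} {z : ℝ × ℝ} {H : ℝ} {k : ι} (hk : K.Next P z k) {s : ℝ}
    (hs : s < K.e P z k - hh (K.r k) (K.b P z k) - H) {j : ι} (hj : K.Ahead P z j) :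
    K.r j < ‖P + pt H z.2 z.1 + s * pt 1 0 z.1 - K.c j‖ := by
  refine out_of_far P z H s j hj.1 ?_
  have n1 := hh_nonneg (K.r k) (K.b P z k)
  have n2 := hh_nonneg (K.r j) (K.b P z j)
  have h1 := hk.2 j hj
  by_cases h : k = j
  · subst h
    rw [abs_of_neg (by linarith)]
    linarith
  · have h2 := gap_two P z h hk.1.1 hj.1
    rw [abs_of_nonneg (by linarith)] at h2
    rw [abs_of_neg (by linarith)]
    linarith [K.τ_pos]

lemma traj : ∀ (ω : List ι) {P : ℂ} {ρ : ℝ}, K.Adm P ρ → ∀ {z : ℝ × ℝ}, |z.2| ≤ ρ → ∀ {H : ℝ},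
    0 ≤ H → H ≤ hh ρ z.2 → (∀ j, P = K.c j → hh (K.r j) z.2 ≤ H) → K.EscR P ω z →
    ∃ (N : ℕ) (Q D : ℕ → ℂ), Q 0 = P + pt H z.2 z.1 ∧ D 0 = pt 1 0 z.1 ∧
      (∀ n < N, ∃ (i : ι) (t : ℝ), 0 < t ∧ Q (n + 1) = Q n + t * D n ∧
        (∀ s : ℝ, 0 < s → s < t → ∀ j, K.r j < ‖Q n + s * D n - K.c j‖) ∧
        ‖Q (n + 1) - K.c i‖ = K.r i ∧
        (D n).re * (Q (n + 1) - K.c i).re + (D n).im * (Q (n + 1) - K.c i).im < 0 ∧
        D (n + 1) = D n - ((2 * ((D n).re * (Q (n + 1) - K.c i).re +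
          (D n).im * (Q (n + 1) - K.c i).im) / K.r i ^ 2 : ℝ) : ℂ) * (Q (n + 1) - K.c i)) ∧
      ∀ s : ℝ, 0 < s → ∀ j, K.r j < ‖Q N + s * D N - K.c j‖
  | [], P, ρ, hP, z, hz, H, H0, _, H2, hE =>
    ⟨0, fun _ => P + pt H z.2 z.1, fun _ => pt 1 0 z.1, rfl, rfl,
      fun _ hn => absurd hn (Nat.not_lt_zero _), fun _ hs j => out_behind hP hz H0 H2 hs (hE j)⟩
  | k :: ω, P, ρ, hP, z, hz, H, H0, H1, H2, ⟨b1, hb, hE⟩ => by
    have hr := K.r_pos k
    obtain ⟨N, Q, D, a1, a2, a3, a4⟩ := traj ω (K.adm_c k) (z := K.step P k z) b1.1.1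
      (hh_nonneg _ _) le_rfl (fun j hj => by
        by_cases h : k = j
        · rw [h]
        · have := K.sep k j h
          rw [hj, sub_self, norm_zero] at this
          linarith [K.r_pos j, K.τ_pos]) hE
    set t := K.e P z k - hh (K.r k) (K.b P z k) - H with ht
    have ht0 : 0 < t := by
      have := hP.gap hz b1.1
      linarith [K.τ_pos]
    have s1 := mul_sin_arcsin hr b1.1.1
    have c1 := mul_cos_arcsin (x := K.b P z k) hr
    have e2 : (K.step P k z).1 = z.1 - 2 * arcsin (K.b P z k / K.r k) + π := by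
      simp only [step]; ring
    have e3 : (K.step P k z).2 = K.b P z k := rfl
    have t1 := sin_sq_add_cos_sq z.1
    have t2 := sin_sq_add_cos_sq (arcsin (K.b P z k / K.r k))
    have e1 : Q 0 - K.c k = pt (- hh (K.r k) (K.b P z k)) (K.b P z k) z.1 := by
      rw [a1, add_sub_cancel_left, e2, e3, ← c1]
      generalize arcsin (K.b P z k / K.r k) = α at s1 t2 ⊢
      rw [← s1]
      apply Complex.ext
      · simp only [pt, cos_add_pi, sin_add_pi, cos_sub, sin_sub, cos_two_mul, sin_two_mul]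
        linear_combination (- 2 * K.r k * cos α * cos z.1) * t2
      · simp only [pt, cos_add_pi, sin_add_pi, cos_sub, sin_sub, cos_two_mul, sin_two_mul]
        linear_combination (- 2 * K.r k * cos α * sin z.1) * t2
    have e4 : Q 0 = P + pt H z.2 z.1 + t * pt 1 0 z.1 := by
      have := ray_eq (K := K) P z H t k
      rw [show H + t - K.e P z k = - hh (K.r k) (K.b P z k) by rw [ht]; ring, ← e1] at this
      exact (sub_left_inj.1 this).symm
    refine ⟨N + 1, fun n => Nat.casesOn n (P + pt H z.2 z.1) Q,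
      fun n => Nat.casesOn n (pt 1 0 z.1) D, rfl, rfl, fun n hn => ?_, a4⟩
    rcases n with _ | n
    · refine ⟨k, t, ht0, e4, fun s s0 s1 j => ?_, ?_, ?_, ?_⟩
      · by_cases hj : K.Ahead P z j
        · exact out_before b1 s1 hj
        · exact out_behind hP hz H0 H2 s0 hj
      · change ‖Q 0 - K.c k‖ = K.r k
        refine (pow_left_inj₀ (norm_nonneg _) hr.le two_ne_zero).1 ?_
        rw [e1, norm_pt_sq, neg_sq, hh_sq b1.1.1]
        ring
      · change (pt 1 0 z.1).re * (Q 0 - K.c k).re + (pt 1 0 z.1).im * (Q 0 - K.c k).im < 0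
        rw [e1]
        have := hh_pos hb
        simp only [pt]
        nlinarith
      · change D 0 = pt 1 0 z.1 - ((2 * ((pt 1 0 z.1).re * (Q 0 - K.c k).re +
          (pt 1 0 z.1).im * (Q 0 - K.c k).im) / K.r k ^ 2 : ℝ) : ℂ) * (Q 0 - K.c k)
        rw [a2, e1, e2, ← c1]
        generalize arcsin (K.b P z k / K.r k) = α at s1 t2 ⊢
        rw [← s1]
        symm
        apply Complex.ext
        · simp only [pt, Complex.sub_re, Complex.mul_re, Complex.ofReal_re, Complex.ofReal_im,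
            cos_add_pi, sin_add_pi, cos_sub, sin_sub, cos_two_mul, sin_two_mul]
          field_simp
          linear_combination (2 * cos α * (- cos α * cos z.1 - sin α * sin z.1)) * t1
        · simp only [pt, Complex.sub_im, Complex.mul_im, Complex.ofReal_re, Complex.ofReal_im,
            cos_add_pi, sin_add_pi, cos_sub, sin_sub, cos_two_mul, sin_two_mul]
          field_simp
          linear_combination (2 * cos α * (- cos α * sin z.1 + sin α * cos z.1)) * t1
    · exact a3 n (by omega)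

end Cfg

/-- The inverse identification. -/
noncomputable def ofC (w : ℂ) : EuclideanSpace ℝ (Fin 2) := !₂[w.re, w.im]

lemma toC_ofC (w : ℂ) : toC (ofC w) = w := by
  apply Complex.ext <;> simp [toC, ofC]

lemma toC_injective : Function.Injective toC := by
  intro x y h
  have h0 : x 0 = y 0 := congrArg Complex.re h
  have h1 : x 1 = y 1 := congrArg Complex.im h
  ext i
  fin_cases i
  · exact h0
  · exact h1

lemma reflection_eq (u v : EuclideanSpace ℝ (Fin 2)) :
    (ℝ ∙ u)ᗮ.reflection v = v - (2 * inner ℝ v u / ‖u‖ ^ 2) • u := by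
  rw [Submodule.reflection_orthogonal_apply, Submodule.reflection_singleton_apply, neg_sub,
    two_smul, ← add_smul, real_inner_comm]
  congr 2
  simp only [RCLike.ofReal_real_eq_id, id]
  ring

theorem escape_plane {ι : Type} [Finite ι] (c : ι → EuclideanSpace ℝ (Fin 2)) (r : ι → ℝ)
    (p : EuclideanSpace ℝ (Fin 2)) (hr : ∀ i, 0 < r i)
    (hsep : ∀ i j, i ≠ j → r i + r j < dist (c i) (c j)) (hp : ∀ i, r i < dist p (c i))
    {a b : ℝ} (hab : a < b) :
    ∃ a' b', a ≤ a' ∧ a' < b' ∧ b' ≤ b ∧ ∀ θ ∈ Ioo a' b',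
      ∃ (N : ℕ) (q d : ℕ → EuclideanSpace ℝ (Fin 2)), q 0 = p ∧ d 0 = !₂[cos θ, sin θ] ∧
        (∀ n < N, ∃ (i : ι) (t : ℝ), 0 < t ∧ q (n + 1) = q n + t • d n ∧
          (∀ s : ℝ, 0 < s → s < t → ∀ j, r j < dist (q n + s • d n) (c j)) ∧
          dist (q (n + 1)) (c i) = r i ∧ inner ℝ (d n) (q (n + 1) - c i) < 0 ∧
          d (n + 1) = (ℝ ∙ (q (n + 1) - c i))ᗮ.reflection (d n)) ∧
        ∀ s : ℝ, 0 < s → ∀ j, r j < dist (q N + s • d N) (c j) := by
  have := Fintype.ofFinite ι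
  obtain ⟨K, h1, h2, hF, hC⟩ := exists_cfg (fun i => toC (c i)) r (toC p) hr
    (fun i j hij => by rw [← dist_toC, dist_comm]; exact hsep i j hij)
    (fun i => by rw [← dist_toC, dist_comm]; exact hp i)
  obtain ⟨a', b', e1, e2, e3, e4⟩ := Cfg.escape_arc hF hC hab
  refine ⟨a', b', e1, e2, e3, fun θ hθ => ?_⟩
  obtain ⟨ω, hω⟩ := e4 θ hθ
  obtain ⟨N, Q, D, a1, a2, a3, a4⟩ := Cfg.traj ω hC.adm (z := (θ, 0)) (H := 0)
    (by simpa using K.τ_pos.le) le_rfl (hh_nonneg _ _) (fun j hj => by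
      have := (hC.2.2 j).2
      rw [← hj, sub_self, norm_zero] at this
      linarith [K.r_pos j, K.τ_pos]) hω
  rw [h1, h2] at a3 a4
  refine ⟨N, fun n => ofC (Q n), fun n => ofC (D n), ?_, ?_, fun n hn => ?_, fun s hs j => ?_⟩
  · apply toC_injective
    rw [toC_ofC, a1]
    apply Complex.ext <;> simp [pt]
  · apply toC_injective
    rw [toC_ofC, a2]
    apply Complex.ext <;> simp [pt, toC]
  · obtain ⟨i, t, b1, b2, b3, b4, b5, b6⟩ := a3 n hn
    have b7 : dist (ofC (Q (n + 1))) (c i) = r i := by rw [dist_toC, toC_ofC]; exact b4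
    refine ⟨i, t, b1, ?_, fun s s0 s1 j => ?_, b7, ?_, ?_⟩
    · apply toC_injective
      rw [toC_add_smul, toC_ofC, toC_ofC, toC_ofC, b2]
    · rw [dist_toC, toC_add_smul, toC_ofC, toC_ofC]
      exact b3 s s0 s1 j
    · rw [inner_toC, toC_sub, toC_ofC, toC_ofC]
      exact b5
    · apply toC_injective
      rw [reflection_eq, toC_sub_smul, inner_toC, ← dist_eq_norm, b7, toC_sub, toC_ofC, toC_ofC,
        toC_ofC]
      exact b6
  · rw [dist_toC, toC_add_smul, toC_ofC, toC_ofC]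
    exact a4 s hs j

end Pool.Agent.Lib.MP_ab57f0_an
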